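import Pool.Agent.T2h82.Low

/-!
# The counts of curves
-/

set_option autoImplicit false

namespace Pool.Agent.T2h82

open Finset Filter Topology
open Pool.Agent.H328R2.ABC (rad rad_pos)

/-- the invariants of the curves with conductor at most `X`, height at most `X ^ κ` and `P` -/
def Cl (κ X : ℝ) (P : WeierstrassCurve ℤ → Prop) : Set (ℤ × ℤ) :=
  {q | ∃ W : WeierstrassCurve ℤ, W.Δ ≠ 0 ∧ IsCoprime W.c₄ W.Δ ∧ Two W ∧ (cond W : ℝ) ≤ X ∧
    ((ht W : ℤ) : ℝ) ≤ X ^ κ ∧ P W ∧ q = (W.c₄, W.c₆)}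

theorem bd_finite (τ X : ℝ) (Q : ℤ × ℤ → Prop) : {q : ℤ × ℤ | Bd τ X q ∧ Q q}.Finite := by
  set m : ℤ := ⌊65 * (11 * |X ^ τ|)⌋ with hm
  refine Set.Finite.subset (Finset.finite_toSet (Icc (-m) m ×ˢ Icc (-m) m)) ?_
  rintro q ⟨⟨-, h1, h2⟩, -⟩
  have h3 := le_abs_self (X ^ τ)
  have h4 := abs_nonneg (X ^ τ)
  have h5 := HH_le_real (Y := 11 * |X ^ τ|) (by linarith) (by linarith)
  have h6 : HH q ≤ m := Int.le_floor.2 h5
  have e1 : q.1 ^ 2 ≤ HH q := le_max_left _ _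
  have e2 : |q.2| ≤ HH q := le_max_right _ _
  have e3 : |q.1| ≤ q.1 ^ 2 := by
    rcases eq_or_ne q.1 0 with h | h
    · rw [h]; simp
    · have := Int.one_le_abs h
      rw [← sq_abs]
      nlinarith
  rw [mem_coe, mem_product, mem_Icc, mem_Icc]
  exact ⟨abs_le.1 (by linarith), abs_le.1 (by linarith)⟩

theorem cl_bound (κ X : ℝ) (hX : 1 ≤ X) (P : WeierstrassCurve ℤ → Prop) (Q : ℤ × ℤ → Prop) (B : ℝ)
    (hPQ : ∀ W : WeierstrassCurve ℤ, (cond W : ℝ) ≤ X → P W → ∀ q, Adm (cond W) q →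
      ((ht W : ℤ) : ℝ) ≤ (193 * HH q) ^ 3 →
      (∀ Y : ℝ, 0 ≤ Y → |(W.Δ : ℝ)| < Y ^ 3 →
        (q.2.natAbs : ℝ) < Y ∨ ((ff q).natAbs : ℝ) < Y) → Q q)
    (hS : ∀ S : Finset (ℤ × ℤ), (∀ q ∈ S, Bd (κ / 3) X q ∧ Q q) → (S.card : ℝ) ≤ B) :
    (Cl κ X P).Finite ∧ ((Cl κ X P).ncard : ℝ) ≤ 2 * B := by
  have hX0 : 0 < X := by linarith
  set S' : Set (ℤ × ℤ) := {q : ℤ × ℤ | Bd (κ / 3) X q ∧ Q q} with hS'
  have hfin : S'.Finite := bd_finite _ _ _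
  have hsub : Cl κ X P ⊆ g1 '' S' ∪ g2 '' S' := by
    rintro x ⟨W, hΔ, hc, h2, hN, hh, hP, rfl⟩
    obtain ⟨q, hor, hadm, hY, hht, hD⟩ := curve W hΔ hc h2
    have hpow : X ^ κ = (X ^ (κ / 3)) ^ 3 := by
      rw [← Real.rpow_natCast, ← Real.rpow_mul hX0.le]
      congr 1
      push_cast
      ring
    rw [hpow] at hh
    obtain ⟨k1, k2⟩ := hY (X ^ (κ / 3)) (by positivity) hh
    have hq : q ∈ S' := by
      refine ⟨⟨⟨hadm.odd, hadm.n0, hadm.f0, hadm.cop, hadm.rad_le.trans hN⟩, k1, k2⟩, ?_⟩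
      exact hPQ W hN hP q hadm hht hD
    rcases hor with h | h
    · exact Or.inl ⟨q, hq, h.symm⟩
    · exact Or.inr ⟨q, hq, h.symm⟩
  have hfin2 : (g1 '' S' ∪ g2 '' S').Finite := (hfin.image g1).union (hfin.image g2)
  refine ⟨hfin2.subset hsub, ?_⟩
  have c1 : (Cl κ X P).ncard ≤ S'.ncard + S'.ncard := by
    calc (Cl κ X P).ncard ≤ (g1 '' S' ∪ g2 '' S').ncard := Set.ncard_le_ncard hsub hfin2
      _ ≤ (g1 '' S').ncard + (g2 '' S').ncard := Set.ncard_union_le _ _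
      _ ≤ _ := add_le_add (Set.ncard_image_le hfin) (Set.ncard_image_le hfin)
  have c2 : (S'.ncard : ℝ) ≤ B := by
    rw [Set.ncard_eq_toFinset_card S' hfin]
    refine hS _ (fun q hq => ?_)
    exact (Set.Finite.mem_toFinset hfin).1 hq
  have c3 : ((Cl κ X P).ncard : ℝ) ≤ (S'.ncard : ℝ) + (S'.ncard : ℝ) := by exact_mod_cast c1
  linarith

/-- the upper bound -/
theorem upper (κ : ℝ) (hκ : κ < 3) : ∃ C : ℝ, 0 < C ∧ ∀ X : ℝ, 1 ≤ X →
    (Cl κ X (fun _ => True)).Finite ∧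
    ((Cl κ X (fun _ => True)).ncard : ℝ) ≤ C * X ^ (3 / 4 : ℝ) := by
  obtain ⟨C, hC, h⟩ := pairs_total (κ / 3) (by linarith)
  refine ⟨2 * C, by positivity, fun X hX => ?_⟩
  have := cl_bound κ X hX (fun _ => True) (fun _ => True) (C * X ^ (3 / 4 : ℝ))
    (fun _ _ _ _ _ _ _ => trivial) (fun S hS => h X hX S (fun q hq => (hS q hq).1))
  rw [← mul_assoc] at this
  exact this

/-- the lower bound -/
theorem lower (κ : ℝ) (hκ : 3 / 2 < κ) : ∃ X₀ : ℝ, ∀ X : ℝ, X₀ ≤ X →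
    1 / 2000 * X ^ (3 / 4 : ℝ) ≤ ((Cl κ X (fun _ => True)).ncard : ℝ) := by
  obtain ⟨Z₀, hlow⟩ := low2
  set X₁ : ℝ := 4096 ^ (1 / (κ - 3 / 2)) with hX₁
  refine ⟨max (max Z₀ X₁) 1, fun X hX => ?_⟩
  have hXa : Z₀ ≤ X := (le_max_left _ _).trans ((le_max_left _ _).trans hX)
  have hXb : X₁ ≤ X := (le_max_right _ _).trans ((le_max_left _ _).trans hX)
  have hXc : 1 ≤ X := (le_max_right _ _).trans hX
  have hX0 : 0 < X := by linarith
  set y : ℝ := X ^ (1 / 4 : ℝ) with hy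
  have hy1 : 1 ≤ y := Real.one_le_rpow hXc (by norm_num)
  have hy4 : y ^ 4 = X := by
    rw [hy, ← Real.rpow_natCast, ← Real.rpow_mul hX0.le]
    norm_num
  set M : ℕ := ⌈3 * y⌉₊ with hM
  have hMl : 3 * y ≤ M := Nat.le_ceil _
  have hMu : (M : ℝ) ≤ 4 * y := by
    have := Nat.ceil_lt_add_one (by positivity : 0 ≤ 3 * y)
    linarith
  have h1 := hlow X M hXa (by
    rw [← hy4]
    have : y ≤ (M : ℝ) / 3 := by
      rw [le_div_iff₀ (by norm_num)]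
      linarith
    exact pow_le_pow_left₀ (by positivity) this 4)
  have h6 : ((M : ℝ)) ^ 6 ≤ X ^ κ := by
    have e1 : (4096 : ℝ) = X₁ ^ (κ - 3 / 2) := by
      have hne : κ - 3 / 2 ≠ 0 := by linarith
      rw [hX₁, ← Real.rpow_mul (by norm_num), one_div, inv_mul_cancel₀ hne, Real.rpow_one]
    have e2 : y ^ 6 = X ^ (3 / 2 : ℝ) := by
      rw [hy, ← Real.rpow_natCast, ← Real.rpow_mul hX0.le]
      norm_num
    calc ((M : ℝ)) ^ 6 ≤ (4 * y) ^ 6 := pow_le_pow_left₀ (by positivity) hMu 6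
      _ = 4096 * y ^ 6 := by ring
      _ = X₁ ^ (κ - 3 / 2) * X ^ (3 / 2 : ℝ) := by rw [← e1, e2]
      _ ≤ X ^ (κ - 3 / 2) * X ^ (3 / 2 : ℝ) := by
          have : 0 < X₁ := by positivity
          have e3 : X₁ ^ (κ - 3 / 2) ≤ X ^ (κ - 3 / 2) :=
            Real.rpow_le_rpow this.le hXb (by linarith)
          exact mul_le_mul_of_nonneg_right e3 (by positivity)
      _ = X ^ κ := by
          rw [← Real.rpow_add hX0]
          congr 1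
          ring
  have hsub : Pool.Agent.R417.BC.Cv Pool.Agent.R417.BC.Two X M ⊆ Cl κ X (fun _ => True) := by
    rintro q ⟨W, hΔ, hc, h2, rfl, k4, k6, hN⟩
    refine ⟨W, hΔ, hc, h2, hN, ?_, trivial, rfl⟩
    have : ht W ≤ (M : ℤ) ^ 6 := max_le k4 k6
    have h3 : ((ht W : ℤ) : ℝ) ≤ (M : ℝ) ^ 6 := by exact_mod_cast this
    exact h3.trans h6
  have hfin : (Cl κ X (fun _ => True)).Finite := by
    refine (cl_bound κ X hXc (fun _ => True) (fun _ => True)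
      (((bd_finite (κ / 3) X (fun _ => True)).toFinset.card : ℕ) : ℝ)
      (fun _ _ _ _ _ _ _ => trivial) (fun S hS => ?_)).1
    have : S ⊆ (bd_finite (κ / 3) X (fun _ => True)).toFinset := by
      intro q hq
      rw [Set.Finite.mem_toFinset]
      exact hS q hq
    exact_mod_cast card_le_card this
  refine h1.trans ?_
  exact_mod_cast Set.ncard_le_ncard hsub hfin

/-- the exceptional set -/
theorem exceptional (κ δ : ℝ) (hκ0 : 0 < κ) (hκ : κ < 3) (hδ : 0 < δ) : ∃ η C : ℝ, 0 < η ∧ 0 < C ∧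
    ∀ X : ℝ, 1 ≤ X →
    (Cl κ X (fun W => |(W.Δ : ℝ)| < (cond W : ℝ) ^ (3 / 2 - δ) ∨
      (cond W : ℝ) ^ (3 / 2 + δ) < ((ht W : ℤ) : ℝ))).Finite ∧
    ((Cl κ X (fun W => |(W.Δ : ℝ)| < (cond W : ℝ) ^ (3 / 2 - δ) ∨
      (cond W : ℝ) ^ (3 / 2 + δ) < ((ht W : ℤ) : ℝ))).ncard : ℝ) ≤ C * X ^ (3 / 4 - η) := by
  obtain ⟨η, C, hη, hC, h⟩ := pairs_exc (κ / 3) (δ / 3) (by linarith) (by linarith) (by linarith)
  refine ⟨η, 2 * C, hη, by positivity, fun X hX => ?_⟩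
  have := cl_bound κ X hX (fun W => |(W.Δ : ℝ)| < (cond W : ℝ) ^ (3 / 2 - δ) ∨
      (cond W : ℝ) ^ (3 / 2 + δ) < ((ht W : ℤ) : ℝ))
    (fun q => ∃ N : ℝ, 1 ≤ N ∧ N ≤ X ∧ Adm N q ∧
      ((q.2.natAbs : ℝ) < N ^ (1 / 2 - δ / 3) ∨ ((ff q).natAbs : ℝ) < N ^ (1 / 2 - δ / 3) ∨
        N ^ (1 / 2 + δ / 3) < 193 * HH q))
    (C * X ^ (3 / 4 - η)) ?_ (fun S hS => h X hX S hS)
  · rw [← mul_assoc] at this
    exact this
  · intro W hN hP q hadm hht hD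
    have hN1 : (1 : ℝ) ≤ (cond W : ℝ) := by
      have : 0 < cond W := prod_pos (fun p hp => (Nat.prime_of_mem_primeFactors hp).pos)
      exact_mod_cast this
    have hN0 : (0 : ℝ) < (cond W : ℝ) := by linarith
    refine ⟨cond W, hN1, hN, hadm, ?_⟩
    rcases hP with hP | hP
    · have e1 : (cond W : ℝ) ^ (3 / 2 - δ) = ((cond W : ℝ) ^ (1 / 2 - δ / 3)) ^ 3 := by
        rw [← Real.rpow_natCast, ← Real.rpow_mul hN0.le]
        congr 1
        push_cast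
        ring
      rw [e1] at hP
      rcases hD _ (by positivity) hP with h1 | h1
      · exact Or.inl h1
      · exact Or.inr (Or.inl h1)
    · right; right
      have e1 : (cond W : ℝ) ^ (3 / 2 + δ) = ((cond W : ℝ) ^ (1 / 2 + δ / 3)) ^ 3 := by
        rw [← Real.rpow_natCast, ← Real.rpow_mul hN0.le]
        congr 1
        push_cast
        ring
      rw [e1] at hP
      have hH0 : (0 : ℝ) ≤ 193 * HH q := by
        have : 0 ≤ HH q := (sq_nonneg q.1).trans (le_max_left _ _)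
        have : (0 : ℝ) ≤ HH q := by exact_mod_cast this
        linarith
      exact lt_of_pow_lt_pow_left₀ 3 hH0 (hP.trans_le hht)

/-- the exceptional set is sparse -/
theorem proportion (κ δ : ℝ) (hκ0 : 3 / 2 < κ) (hκ : κ < 3) (hδ : 0 < δ) : ∃ η C X₀ : ℝ, 0 < η ∧
    0 < C ∧ ∀ X : ℝ, X₀ ≤ X →
    ((Cl κ X (fun W => |(W.Δ : ℝ)| < (cond W : ℝ) ^ (3 / 2 - δ) ∨
      (cond W : ℝ) ^ (3 / 2 + δ) < ((ht W : ℤ) : ℝ))).ncard : ℝ) ≤
      C * X ^ (-η) * ((Cl κ X (fun _ => True)).ncard : ℝ) := by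
  obtain ⟨η, C, hη, hC, h⟩ := exceptional κ δ (by linarith) hκ hδ
  obtain ⟨X₀, hl⟩ := lower κ hκ0
  refine ⟨η, 2000 * C, max X₀ 1, hη, by positivity, fun X hX => ?_⟩
  have hX1 : 1 ≤ X := (le_max_right _ _).trans hX
  have hX0 : 0 < X := by linarith
  have h1 := (h X hX1).2
  have h2 := hl X ((le_max_left _ _).trans hX)
  have h3 : X ^ (3 / 4 - η) = X ^ (-η) * X ^ (3 / 4 : ℝ) := by
    rw [← Real.rpow_add hX0]
    congr 1
    ring
  rw [h3] at h1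
  have h4 : 0 ≤ C * X ^ (-η) := by positivity
  calc _ ≤ C * (X ^ (-η) * X ^ (3 / 4 : ℝ)) := h1
    _ = 2000 * (C * X ^ (-η)) * (1 / 2000 * X ^ (3 / 4 : ℝ)) := by ring
    _ ≤ 2000 * (C * X ^ (-η)) * ((Cl κ X (fun _ => True)).ncard : ℝ) := by gcongr
    _ = _ := by ring

end Pool.Agent.T2h82
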