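import Pool.Agent.T2h82.Rankin

/-!
# The invariants of a semistable curve with a rational point of order two
-/

set_option autoImplicit false

namespace Pool.Agent.T2h82

open Finset
open Pool.Agent.H328R2.ABC (rad rad_pos)

/-- the product of the primes dividing the discriminant -/
def cond (W : WeierstrassCurve ℤ) : ℕ := ∏ p ∈ W.Δ.natAbs.primeFactors, p

/-- a rational point of order two -/
def Two (W : WeierstrassCurve ℤ) : Prop :=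
  ∃ r : ℚ, 4 * r ^ 3 + W.b₂ * r ^ 2 + 2 * W.b₄ * r + W.b₆ = 0

/-- the height -/
def ht (W : WeierstrassCurve ℤ) : ℤ := max (|W.c₄| ^ 3) (W.c₆ ^ 2)

theorem int_root (b c d : ℤ) (r : ℚ) (h : r ^ 3 + b * r ^ 2 + c * r + d = 0) :
    ∃ z : ℤ, (z : ℚ) = r := by
  have hm : (Polynomial.X ^ 3 + Polynomial.C b * Polynomial.X ^ 2 + Polynomial.C c * Polynomial.X
      + Polynomial.C d : Polynomial ℤ).Monic := by
    monicity!
  have := isInteger_of_is_root_of_monic hm (r := r) (by simpa using h)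
  obtain ⟨z, hz⟩ := this
  exact ⟨z, by simpa using hz⟩

theorem inv_AB (W : WeierstrassCurve ℤ) (h : Two W) : ∃ t A B : ℤ,
    t ^ 3 + W.b₂ * t ^ 2 + 8 * W.b₄ * t + 16 * W.b₆ = 0 ∧
    W.c₄ = A ^ 2 - 3 * B ∧ 2 * W.c₆ = A * (9 * B - 2 * A ^ 2) ∧
      256 * W.Δ = B ^ 2 * (A ^ 2 - 4 * B) := by
  obtain ⟨r, hr⟩ := h
  obtain ⟨t, ht⟩ : ∃ z : ℤ, (z : ℚ) = 4 * r := by
    refine int_root W.b₂ (8 * W.b₄) (16 * W.b₆) (4 * r) ?_
    push_cast
    linear_combination 16 * hr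
  have htz : t ^ 3 + W.b₂ * t ^ 2 + 8 * W.b₄ * t + 16 * W.b₆ = 0 := by
    have : (t : ℚ) ^ 3 + W.b₂ * t ^ 2 + 8 * W.b₄ * t + 16 * W.b₆ = 0 := by
      rw [ht]
      linear_combination 16 * hr
    exact_mod_cast this
  refine ⟨t, 3 * t + W.b₂, 3 * t ^ 2 + 2 * W.b₂ * t + 8 * W.b₄, htz, ?_, ?_, ?_⟩
  · unfold WeierstrassCurve.c₄
    ring
  · unfold WeierstrassCurve.c₆
    linear_combination (-27) * htz
  · have h8 := W.b_relation
    have hd : W.Δ = -W.b₂ ^ 2 * W.b₈ - 8 * W.b₄ ^ 3 - 27 * W.b₆ ^ 2 + 9 * W.b₂ * W.b₄ * W.b₆ := rfl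
    have e : 256 * W.Δ = -W.b₂ ^ 2 * (64 * (W.b₂ * W.b₆ - W.b₄ ^ 2)) - 4 * (8 * W.b₄) ^ 3
        - 27 * (16 * W.b₆) ^ 2 + 18 * W.b₂ * (8 * W.b₄) * (16 * W.b₆) := by
      rw [hd]
      linear_combination (-64 * W.b₂ ^ 2) * h8
    have e2 : 64 * (W.b₂ * W.b₆ - W.b₄ ^ 2) = 4 * W.b₂ * (16 * W.b₆) - (8 * W.b₄) ^ 2 := by ring
    have e3 : 16 * W.b₆ = -(t ^ 3 + W.b₂ * t ^ 2 + 8 * W.b₄ * t) := by linarith
    rw [e, e2, e3]
    ring

/-- the first invariant of a semistable curve with a point of order two is odd -/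
theorem c4_odd (W : WeierstrassCurve ℤ) (hc : IsCoprime W.c₄ W.Δ) {t : ℤ}
    (ht : t ^ 3 + W.b₂ * t ^ 2 + 8 * W.b₄ * t + 16 * W.b₆ = 0) : ¬ (2 : ℤ) ∣ W.c₄ := by
  intro h2
  have hD : ¬ (2 : ℤ) ∣ W.Δ := by
    intro h3
    have := hc.isUnit_of_dvd' h2 h3
    rw [Int.isUnit_iff] at this
    omega
  -- a₁ is even
  have ha1 : (2 : ℤ) ∣ W.a₁ := by
    have e1 : W.c₄ = W.a₁ ^ 4 + 2 * (4 * W.a₁ ^ 2 * W.a₂ + 8 * W.a₂ ^ 2 - 12 * W.b₄) := by
      unfold WeierstrassCurve.c₄ WeierstrassCurve.b₂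
      ring
    rw [e1] at h2
    have h3 : (2 : ℤ) ∣ W.a₁ ^ 4 := (Int.dvd_iff_dvd_of_dvd_add h2).2 (dvd_mul_right _ _)
    exact Int.prime_two.dvd_of_dvd_pow h3
  obtain ⟨u, hu⟩ := ha1
  have hb2 : W.b₂ = 4 * (u ^ 2 + W.a₂) := by
    unfold WeierstrassCurve.b₂
    rw [hu]
    ring
  have hb4 : W.b₄ = 2 * (u * W.a₃ + W.a₄) := by
    unfold WeierstrassCurve.b₄
    rw [hu]
    ring
  -- b₆ is odd
  have hb6 : ¬ (2 : ℤ) ∣ W.b₆ := by
    rintro ⟨v, hv⟩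
    apply hD
    have hd : W.Δ = -W.b₂ ^ 2 * W.b₈ - 8 * W.b₄ ^ 3 - 27 * W.b₆ ^ 2 + 9 * W.b₂ * W.b₄ * W.b₆ := rfl
    refine ⟨-8 * (u ^ 2 + W.a₂) ^ 2 * W.b₈ - 4 * W.b₄ ^ 3 - 54 * v ^ 2 +
      18 * (u ^ 2 + W.a₂) * W.b₄ * W.b₆, ?_⟩
    rw [hd, hb2, hv]
    ring
  rw [hb2, hb4] at ht
  have t1 : (2 : ℤ) ∣ t := by
    have : (2 : ℤ) ∣ t ^ 3 := ⟨-(2 * (u ^ 2 + W.a₂) * t ^ 2 + 8 * (u * W.a₃ + W.a₄) * t +
      8 * W.b₆), by linear_combination ht⟩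
    exact Int.prime_two.dvd_of_dvd_pow this
  obtain ⟨t', rfl⟩ := t1
  have t2 : (2 : ℤ) ∣ t' := by
    have : (2 : ℤ) ∣ t' ^ 3 := ⟨-((u ^ 2 + W.a₂) * t' ^ 2 + 2 * (u * W.a₃ + W.a₄) * t' +
      W.b₆), by linarith⟩
    exact Int.prime_two.dvd_of_dvd_pow this
  obtain ⟨t'', rfl⟩ := t2
  apply hb6
  refine ⟨-(2 * t'' ^ 3 + 2 * (u ^ 2 + W.a₂) * t'' ^ 2 + 2 * (u * W.a₃ + W.a₄) * t''), ?_⟩
  linarith

/-- the pair attached to a curve, two types -/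
theorem exists_pair (W : WeierstrassCurve ℤ) (hΔ : W.Δ ≠ 0) (hc : IsCoprime W.c₄ W.Δ)
    (h : Two W) : ∃ q : ℤ × ℤ, Odd q.1 ∧ q.2 ≠ 0 ∧ ff q ≠ 0 ∧ IsCoprime q.1 q.2 ∧
      ((W.c₄ = q.1 ^ 2 - 48 * q.2 ∧ W.c₆ = q.1 * (72 * q.2 - q.1 ^ 2) ∧ W.Δ = q.2 ^ 2 * ff q) ∨
      (W.c₄ = q.1 ^ 2 + 192 * q.2 ∧ W.c₆ = q.1 * (q.1 ^ 2 - 576 * q.2) ∧
        W.Δ = q.2 * ff q ^ 2)) := by
  obtain ⟨t, A, B, ht, e4, e6, eD⟩ := inv_AB W h
  have hodd := c4_odd W hc ht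
  rcases Int.even_or_odd A with hA | hA
  · -- type II
    obtain ⟨a, ha⟩ := hA
    have ha : A = 2 * a := by omega
    subst ha
    have hB : Odd B := by
      rw [← Int.not_even_iff_odd]
      rintro ⟨k, hk⟩
      exact hodd ⟨2 * a ^ 2 - 3 * k, by rw [e4, hk]; ring⟩
    have eD' : 64 * W.Δ = B ^ 2 * (a ^ 2 - B) := by
      have : 4 * (64 * W.Δ) = 4 * (B ^ 2 * (a ^ 2 - B)) := by linear_combination eD
      omega
    have hcop : IsCoprime (64 : ℤ) (B ^ 2) := by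
      have h1 : IsCoprime (2 : ℤ) B := by
        obtain ⟨k, hk⟩ := hB
        exact ⟨-k, 1, by rw [hk]; ring⟩
      have h2 : IsCoprime ((2 : ℤ) ^ 6) (B ^ 2) := IsCoprime.pow h1
      have h3 : (64 : ℤ) = 2 ^ 6 := by norm_num
      rw [h3]
      exact h2
    have hdvd : (64 : ℤ) ∣ a ^ 2 - B := by
      have h1 : (64 : ℤ) ∣ B ^ 2 * (a ^ 2 - B) := ⟨W.Δ, eD'.symm⟩
      exact hcop.dvd_of_dvd_mul_left h1
    obtain ⟨n, hn⟩ := hdvd
    have hBn : B = a ^ 2 - 64 * n := by linarith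
    have hff : ff (a, n) = B := by
      unfold ff
      simp only
      linarith
    have hΔ2 : W.Δ = n * B ^ 2 := by
      rw [hn] at eD'
      have : 64 * W.Δ = 64 * (n * B ^ 2) := by rw [eD']; ring
      omega
    have hn0 : n ≠ 0 := by
      rintro rfl
      exact hΔ (by rw [hΔ2]; ring)
    have hB0 : B ≠ 0 := by
      rintro rfl
      exact absurd hB (by decide)
    have e4' : W.c₄ = a ^ 2 + 192 * n := by
      rw [e4, hBn]
      ring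
    have e6' : W.c₆ = a * (a ^ 2 - 576 * n) := by
      have : 2 * W.c₆ = 2 * (a * (a ^ 2 - 576 * n)) := by
        rw [e6, hBn]
        ring
      omega
    refine ⟨(a, n), ?_, hn0, by rw [hff]; exact hB0, ?_, Or.inr ⟨e4', e6', by rw [hff]; exact hΔ2⟩⟩
    · simp only
      have h1 : Odd (a ^ 2) := by
        have : a ^ 2 = B + 2 * (32 * n) := by linarith
        rw [this]
        exact hB.add_even (even_two_mul _)
      exact (Int.odd_pow' (by norm_num)).1 h1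
    · simp only
      obtain ⟨u, v, huv⟩ := hc
      rw [e4', hΔ2] at huv
      exact ⟨u * a, 192 * u + v * B ^ 2, by linear_combination huv⟩
  · -- type I
    have h256 : (256 : ℤ) ∣ B ^ 2 := by
      have h1 : IsCoprime (256 : ℤ) (A ^ 2 - 4 * B) := by
        have h2 : Odd (A ^ 2 - 4 * B) := by
          have : Even (4 * B) := ⟨2 * B, by ring⟩
          exact (hA.pow).sub_even this
        have h3 : IsCoprime (2 : ℤ) (A ^ 2 - 4 * B) := by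
          obtain ⟨k, hk⟩ := h2
          exact ⟨-k, 1, by rw [hk]; ring⟩
        have h4 : (256 : ℤ) = 2 ^ 8 := by norm_num
        rw [h4]
        exact IsCoprime.pow_left h3
      have h2 : (256 : ℤ) ∣ B ^ 2 * (A ^ 2 - 4 * B) := ⟨W.Δ, eD.symm⟩
      exact h1.dvd_of_dvd_mul_right h2
    have h16 : (16 : ℤ) ∣ B := by
      have h1 : ((16 : ℤ)) ^ 2 ∣ B ^ 2 := by
        have : ((16 : ℤ)) ^ 2 = 256 := by norm_num
        rw [this]
        exact h256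
      exact (Int.pow_dvd_pow_iff (by norm_num)).1 h1
    obtain ⟨n, rfl⟩ := h16
    have hΔ2 : W.Δ = n ^ 2 * (A ^ 2 - 64 * n) := by
      have : 256 * W.Δ = 256 * (n ^ 2 * (A ^ 2 - 64 * n)) := by
        rw [eD]
        ring
      omega
    have e4' : W.c₄ = A ^ 2 - 48 * n := by
      rw [e4]
      ring
    have e6' : W.c₆ = A * (72 * n - A ^ 2) := by
      have : 2 * W.c₆ = 2 * (A * (72 * n - A ^ 2)) := by
        rw [e6]
        ring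
      omega
    refine ⟨(A, n), hA, ?_, ?_, ?_, Or.inl ⟨e4', e6', hΔ2⟩⟩
    · simp only
      rintro rfl
      exact hΔ (by rw [hΔ2]; ring)
    · unfold ff
      simp only
      intro h0
      exact hΔ (by rw [hΔ2, h0, mul_zero])
    · simp only
      obtain ⟨u, v, huv⟩ := hc
      rw [e4', hΔ2] at huv
      exact ⟨u * A, -48 * u + v * (n * (A ^ 2 - 64 * n)), by linear_combination huv⟩

end Pool.Agent.T2h82
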