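import Pool.Agent.T2h82.Alg
import Pool.Agent.T2h82.Pairs2

/-!
# From curves to pairs
-/

set_option autoImplicit false

namespace Pool.Agent.T2h82

open Finset
open Pool.Agent.H328R2.ABC (rad rad_pos)

/-- the invariants of the first kind -/
def g1 (q : ℤ × ℤ) : ℤ × ℤ := (q.1 ^ 2 - 48 * q.2, q.1 * (72 * q.2 - q.1 ^ 2))

/-- the invariants of the second kind -/
def g2 (q : ℤ × ℤ) : ℤ × ℤ := (q.1 ^ 2 + 192 * q.2, q.1 * (q.1 ^ 2 - 576 * q.2))

theorem rad_mul_pow {m n : ℕ} (hm : m ≠ 0) (hn : n ≠ 0) (i j : ℕ) (hi : i ≠ 0) (hj : j ≠ 0)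
    (h : Nat.Coprime m n) : ∏ p ∈ (m ^ i * n ^ j).primeFactors, p = rad m * rad n := by
  unfold rad
  rw [Nat.primeFactors_mul (pow_ne_zero _ hm) (pow_ne_zero _ hn), Nat.primeFactors_pow _ hi,
    Nat.primeFactors_pow _ hj, prod_union h.disjoint_primeFactors]

theorem sq_bound {A c4 c6 Y : ℝ} (hY : 0 ≤ Y) (h4 : |c4| ≤ Y) (h6 : c6 ^ 2 ≤ Y ^ 3)
    (h : 2 * c6 = A ^ 3 - 3 * A * c4) : A ^ 2 ≤ 4 * Y := by
  by_contra hcon
  push Not at hcon
  set B := |A| with hB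
  have hB0 : 0 ≤ B := abs_nonneg A
  have hBA : B ^ 2 = A ^ 2 := sq_abs A
  have hBY : 4 * Y < B ^ 2 := by rw [hBA]; exact hcon
  have hBp : 0 < B := by
    rcases hB0.lt_or_eq with h0 | h0
    · exact h0
    · rw [← h0] at hBY
      nlinarith
  have c1 : 8 * |c6| < B ^ 3 := by
    have e1 : (8 * |c6|) ^ 2 < (B ^ 3) ^ 2 := by
      have e2 : (4 * Y) ^ 3 < (B ^ 2) ^ 3 := pow_lt_pow_left₀ hBY (by positivity) (by norm_num)
      calc (8 * |c6|) ^ 2 = 64 * c6 ^ 2 := by rw [mul_pow, sq_abs]; ring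
        _ ≤ 64 * Y ^ 3 := by linarith
        _ = (4 * Y) ^ 3 := by ring
        _ < (B ^ 2) ^ 3 := e2
        _ = _ := by ring
    exact lt_of_pow_lt_pow_left₀ 2 (by positivity) e1
  have c2 : B ^ 3 ≤ 2 * |c6| + 3 * B * |c4| := by
    have e1 : A ^ 3 = 2 * c6 + 3 * A * c4 := by linarith
    calc B ^ 3 = |A ^ 3| := by rw [abs_pow]
      _ = |2 * c6 + 3 * A * c4| := by rw [e1]
      _ ≤ |2 * c6| + |3 * A * c4| := abs_add_le _ _
      _ = _ := by
          rw [abs_mul, abs_mul, abs_mul, abs_two, abs_of_pos (by norm_num : (0 : ℝ) < 3)]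
  have c3 : 3 * B * |c4| ≤ 3 * B * Y := by gcongr
  have c4' : 3 * B * (4 * Y) ≤ 3 * B * B ^ 2 := by gcongr
  nlinarith

/-- all the facts on a curve -/
theorem curve (W : WeierstrassCurve ℤ) (hΔ : W.Δ ≠ 0) (hc : IsCoprime W.c₄ W.Δ)
    (h : Two W) : ∃ q : ℤ × ℤ, ((W.c₄, W.c₆) = g1 q ∨ (W.c₄, W.c₆) = g2 q) ∧
      Adm (cond W) q ∧
      (∀ Y : ℝ, 0 ≤ Y → ((ht W : ℤ) : ℝ) ≤ Y ^ 3 →
        (q.2.natAbs : ℝ) ≤ Y ∧ ((ff q).natAbs : ℝ) ≤ 11 * Y) ∧
      ((ht W : ℤ) : ℝ) ≤ (193 * HH q) ^ 3 ∧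
      (∀ Y : ℝ, 0 ≤ Y → |(W.Δ : ℝ)| < Y ^ 3 →
        (q.2.natAbs : ℝ) < Y ∨ ((ff q).natAbs : ℝ) < Y) := by
  obtain ⟨q, hodd, hn0, hf0, hcop, hor⟩ := exists_pair W hΔ hc h
  have hadm0 : Adm ((rad q.2.natAbs : ℝ) * rad (ff q).natAbs) q := ⟨hodd, hn0, hf0, hcop, le_rfl⟩
  have hcopn : Nat.Coprime q.2.natAbs (ff q).natAbs := Int.isCoprime_iff_gcd_eq_one.1 hadm0.cop_nf
  have hH1 : q.1 ^ 2 ≤ HH q := le_max_left _ _
  have hH2 : |q.2| ≤ HH q := le_max_right _ _
  have hn1 : 1 ≤ |q.2| := Int.one_le_abs hn0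
  have hH0 : 1 ≤ HH q := hn1.trans hH2
  have hnn : (1 : ℝ) ≤ (q.2.natAbs : ℝ) := by
    exact_mod_cast (by omega : 1 ≤ q.2.natAbs)
  have hfn : (1 : ℝ) ≤ ((ff q).natAbs : ℝ) := by
    exact_mod_cast (by omega : 1 ≤ (ff q).natAbs)
  have hb4 : ∀ Y : ℝ, 0 ≤ Y → ((ht W : ℤ) : ℝ) ≤ Y ^ 3 → |(W.c₄ : ℝ)| ≤ Y ∧ (W.c₆ : ℝ) ^ 2 ≤ Y ^ 3 := by
    intro Y hY hht
    have e1 : |W.c₄| ^ 3 ≤ ht W := le_max_left _ _
    have e2 : W.c₆ ^ 2 ≤ ht W := le_max_right _ _
    have e1' : ((|W.c₄| ^ 3 : ℤ) : ℝ) ≤ ((ht W : ℤ) : ℝ) := by exact_mod_cast e1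
    have e2' : ((W.c₆ ^ 2 : ℤ) : ℝ) ≤ ((ht W : ℤ) : ℝ) := by exact_mod_cast e2
    push_cast at e1' e2'
    constructor
    · exact le_of_pow_le_pow_left₀ (n := 3) (by norm_num) hY (e1'.trans hht)
    · exact e2'.trans hht
  have hff : ((ff q : ℤ) : ℝ) = (q.1 : ℝ) ^ 2 - 64 * q.2 := by
    unfold ff
    push_cast
    ring
  have hnabs : (q.2.natAbs : ℝ) = |(q.2 : ℝ)| := by
    rw [Nat.cast_natAbs]
    push_cast
    rfl
  have hfabs : ((ff q).natAbs : ℝ) = |(q.1 : ℝ) ^ 2 - 64 * q.2| := by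
    rw [Nat.cast_natAbs]
    push_cast
    rw [hff]
  have hH1' : (q.1 : ℝ) ^ 2 ≤ HH q := by exact_mod_cast hH1
  have hH2' : |(q.2 : ℝ)| ≤ HH q := by
    have : ((|q.2| : ℤ) : ℝ) ≤ ((HH q : ℤ) : ℝ) := by exact_mod_cast hH2
    push_cast at this
    exact this
  have hH0' : (1 : ℝ) ≤ HH q := by exact_mod_cast hH0
  set H : ℝ := ((HH q : ℤ) : ℝ) with hH
  set a : ℝ := (q.1 : ℝ) with ha
  set n : ℝ := (q.2 : ℝ) with hn
  have hna := abs_le.1 hH2'
  have ha0 : 0 ≤ a ^ 2 := sq_nonneg a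
  -- the height from above
  have htle : |(W.c₄ : ℝ)| ≤ 193 * H → (W.c₆ : ℝ) ^ 2 ≤ (193 * H) ^ 3 →
      ((ht W : ℤ) : ℝ) ≤ (193 * H) ^ 3 := by
    intro e1 e2
    unfold ht
    push_cast
    refine max_le ?_ e2
    exact pow_le_pow_left₀ (abs_nonneg _) e1 3
  rcases hor with ⟨e4, e6, eD⟩ | ⟨e4, e6, eD⟩
  · have e4' : (W.c₄ : ℝ) = a ^ 2 - 48 * n := by rw [e4]; push_cast; ring
    have e6' : (W.c₆ : ℝ) = a * (72 * n - a ^ 2) := by rw [e6]; push_cast; ring
    have hcond : (cond W : ℝ) = (rad q.2.natAbs : ℝ) * rad (ff q).natAbs := by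
      unfold cond
      rw [eD, Int.natAbs_mul, Int.natAbs_pow]
      have := rad_mul_pow (m := q.2.natAbs) (n := (ff q).natAbs) (by omega) (by omega) 2 1
        (by norm_num) (by norm_num) hcopn
      rw [pow_one] at this
      rw [this]
      push_cast
      rfl
    refine ⟨q, Or.inl (by rw [e4, e6]; rfl), by rw [hcond]; exact hadm0, ?_, ?_, ?_⟩
    · intro Y hY hht
      obtain ⟨k4, k6⟩ := hb4 Y hY hht
      have hsq := sq_bound (A := a) hY k4 k6 (by rw [e4', e6']; ring)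
      rw [e4'] at k4
      have := abs_le.1 k4
      rw [hnabs, hfabs]
      constructor
      · rw [abs_le]
        constructor <;> linarith
      · rw [abs_le]
        constructor <;> linarith
    · refine htle ?_ ?_
      · rw [e4', abs_le]
        constructor <;> linarith
      · have h1 : |72 * n - a ^ 2| ≤ 577 * H := by
          rw [abs_le]
          constructor <;> linarith
        have h2 : (72 * n - a ^ 2) ^ 2 ≤ (577 * H) ^ 2 := sq_le_sq' (abs_le.1 h1).1 (abs_le.1 h1).2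
        rw [e6', mul_pow]
        calc a ^ 2 * (72 * n - a ^ 2) ^ 2 ≤ H * (577 * H) ^ 2 := by gcongr
          _ = 332929 * H ^ 3 := by ring
          _ ≤ 7189057 * H ^ 3 := by
              have : 0 ≤ H ^ 3 := by positivity
              linarith
          _ = _ := by ring
    · intro Y hY hD
      by_contra hcon
      push Not at hcon
      have h1 : |(W.Δ : ℝ)| = (q.2.natAbs : ℝ) ^ 2 * ((ff q).natAbs : ℝ) := by
        rw [eD, hnabs, Nat.cast_natAbs]
        push_cast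
        rw [abs_mul, abs_pow]
      rw [h1] at hD
      have h2 : Y ^ 3 ≤ (q.2.natAbs : ℝ) ^ 2 * ((ff q).natAbs : ℝ) := by
        calc Y ^ 3 = Y ^ 2 * Y := by ring
          _ ≤ _ := by
            apply mul_le_mul
            · exact pow_le_pow_left₀ hY hcon.1 2
            · exact hcon.2
            · exact hY
            · positivity
      linarith
  · have e4' : (W.c₄ : ℝ) = a ^ 2 + 192 * n := by rw [e4]; push_cast; ring
    have e6' : (W.c₆ : ℝ) = a * (a ^ 2 - 576 * n) := by rw [e6]; push_cast; ring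
    have hcond : (cond W : ℝ) = (rad q.2.natAbs : ℝ) * rad (ff q).natAbs := by
      unfold cond
      rw [eD, Int.natAbs_mul, Int.natAbs_pow]
      have := rad_mul_pow (m := q.2.natAbs) (n := (ff q).natAbs) (by omega) (by omega) 1 2
        (by norm_num) (by norm_num) hcopn
      rw [pow_one] at this
      rw [this]
      push_cast
      rfl
    refine ⟨q, Or.inr (by rw [e4, e6]; rfl), by rw [hcond]; exact hadm0, ?_, ?_, ?_⟩
    · intro Y hY hht
      obtain ⟨k4, k6⟩ := hb4 Y hY hht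
      have hsq := sq_bound (A := 2 * a) hY k4 k6 (by rw [e4', e6']; ring)
      rw [e4'] at k4
      have := abs_le.1 k4
      rw [hnabs, hfabs]
      have hsq' : a ^ 2 ≤ Y := by
        have : (2 * a) ^ 2 = 4 * a ^ 2 := by ring
        linarith
      constructor
      · rw [abs_le]
        constructor <;> linarith
      · rw [abs_le]
        constructor <;> linarith
    · refine htle ?_ ?_
      · rw [e4', abs_le]
        constructor <;> linarith
      · have h1 : |a ^ 2 - 576 * n| ≤ 577 * H := by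
          rw [abs_le]
          constructor <;> linarith
        have h2 : (a ^ 2 - 576 * n) ^ 2 ≤ (577 * H) ^ 2 := sq_le_sq' (abs_le.1 h1).1 (abs_le.1 h1).2
        rw [e6', mul_pow]
        calc a ^ 2 * (a ^ 2 - 576 * n) ^ 2 ≤ H * (577 * H) ^ 2 := by gcongr
          _ = 332929 * H ^ 3 := by ring
          _ ≤ 7189057 * H ^ 3 := by
              have : 0 ≤ H ^ 3 := by positivity
              linarith
          _ = _ := by ring
    · intro Y hY hD
      by_contra hcon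
      push Not at hcon
      have h1 : |(W.Δ : ℝ)| = (q.2.natAbs : ℝ) * ((ff q).natAbs : ℝ) ^ 2 := by
        rw [eD, hnabs, Nat.cast_natAbs]
        push_cast
        rw [abs_mul, abs_pow]
      rw [h1] at hD
      have h2 : Y ^ 3 ≤ (q.2.natAbs : ℝ) * ((ff q).natAbs : ℝ) ^ 2 := by
        calc Y ^ 3 = Y * Y ^ 2 := by ring
          _ ≤ _ := by
            apply mul_le_mul
            · exact hcon.1
            · exact pow_le_pow_left₀ hY hcon.2 2
            · positivity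
            · positivity
      linarith

end Pool.Agent.T2h82
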