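import Pool.Agent.R417.BC.Low2
import Pool.Agent.T2h82.Curve

/-!
# The lower bound
-/

set_option autoImplicit false

namespace Pool.Agent.T2h82

open Finset Filter Topology
open Pool.Agent.R417.BC (core2 Cv)

theorem ev_log (a b δ : ℝ) (hδ : 0 < δ) :
    ∀ᶠ X : ℝ in atTop, a + b * Real.log X ≤ X ^ δ := by
  have h1 : (fun X : ℝ => a) =o[atTop] fun X : ℝ => X ^ δ :=
    Asymptotics.isLittleO_const_left.2 (Or.inr (by
      have := tendsto_rpow_atTop hδ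
      exact tendsto_norm_atTop_atTop.comp this))
  have h2 : (fun X : ℝ => b * Real.log X) =o[atTop] fun X : ℝ => X ^ δ :=
    (isLittleO_log_rpow_atTop hδ).const_mul_left b
  have h3 := (h1.add h2).bound (c := 1) one_pos
  filter_upwards [h3, eventually_ge_atTop 0] with X hX hX0
  have h4 : a + b * Real.log X ≤ ‖a + b * Real.log X‖ := Real.le_norm_self _
  rw [one_mul, Real.norm_of_nonneg (Real.rpow_nonneg hX0 _)] at hX
  exact h4.trans hX

theorem ev_T (a : ℝ) : ∃ T₁ : ℝ, 10 ≤ T₁ ∧ ∀ T : ℕ, T₁ ≤ T →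
    16 * (1 + (a + Real.log T)) ≤ T := by
  obtain ⟨x, hx⟩ := eventually_atTop.1 (ev_log (16 * (1 + a)) 16 1 one_pos)
  refine ⟨max x 10, le_max_right _ _, fun T hT => ?_⟩
  have h1 := hx T ((le_max_left _ _).trans hT)
  rw [Real.rpow_one] at h1
  linarith

theorem low2 : ∃ Z₀ : ℝ, ∀ (Z : ℝ) (X : ℕ), Z₀ ≤ Z → Z ≤ ((X : ℝ) / 3) ^ 4 →
    1 / 2000 * Z ^ ((3 : ℝ) / 4) ≤ ((Cv Pool.Agent.R417.BC.Two Z X).ncard : ℝ) := by
  obtain ⟨T₁, hT₁, h⟩ := ev_T (Real.log 12)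
  refine ⟨2304 * (2 * T₁) ^ 4, fun Z X hZ hX => ?_⟩
  have hZ0 : 0 < Z := lt_of_lt_of_le (by positivity) hZ
  set y := (Z / 2304) ^ ((1 : ℝ) / 4) with hy
  have hy0 : 0 ≤ y := by positivity
  have hy4 : y ^ 4 = Z / 2304 := by
    rw [hy, ← Real.rpow_natCast, ← Real.rpow_mul (by positivity)]
    norm_num
  have hyT : 2 * T₁ ≤ y := by
    refine le_of_pow_le_pow_left₀ (n := 4) (by norm_num) hy0 ?_
    rw [hy4, le_div_iff₀ (by norm_num)]
    linarith
  set T := ⌊y⌋₊ with hT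
  have hTy : (T : ℝ) ≤ y := Nat.floor_le hy0
  have hTy2 : y / 2 ≤ T := by
    have := Nat.lt_floor_add_one y
    linarith
  have hTT : T₁ ≤ T := by linarith
  have h10 : 10 ≤ T := by
    have : (10 : ℝ) ≤ T := by linarith
    exact_mod_cast this
  have hT0 : (0 : ℝ) < T := by linarith
  have hlog : 16 * (1 + Real.log ((12 * T : ℕ) : ℝ)) ≤ T := by
    have := h T hTT
    push_cast
    rwa [Real.log_mul (by norm_num) hT0.ne']
  have hyX : 18 * y ≤ X := by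
    refine le_of_pow_le_pow_left₀ (n := 4) (by norm_num) (Nat.cast_nonneg _) ?_
    have e1 : (18 * y) ^ 4 = 104976 * (Z / 2304) := by rw [mul_pow, hy4]; norm_num
    have e2 : ((X : ℝ) / 3) ^ 4 = (X : ℝ) ^ 4 / 81 := by ring
    rw [e1]
    rw [e2] at hX
    have e3 : (0 : ℝ) ≤ (X : ℝ) ^ 4 := by positivity
    linarith
  have hTX : 18 * T ≤ X := by
    have : (18 * T : ℝ) ≤ X := by linarith
    exact_mod_cast this
  have hc := core2 (Z := Z) h10 hlog (by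
    calc 2304 * (T : ℝ) ^ 4 ≤ 2304 * y ^ 4 := by gcongr
      _ = Z := by rw [hy4]; ring) hTX
  refine le_trans ?_ hc
  have e1 : Z ^ ((3 : ℝ) / 4) ≤ 333 * y ^ 3 := by
    refine le_of_pow_le_pow_left₀ (n := 4) (by norm_num) (by positivity) ?_
    have e2 : (Z ^ ((3 : ℝ) / 4)) ^ 4 = Z ^ 3 := by
      rw [← Real.rpow_natCast, ← Real.rpow_mul hZ0.le, ← Real.rpow_natCast Z 3]
      norm_num
    have e3 : Z = 2304 * y ^ 4 := by rw [hy4]; ring
    rw [e2, e3]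
    have e4 : (0 : ℝ) ≤ y ^ 12 := by positivity
    nlinarith
  have e5 : (y / 2) ^ 3 ≤ (T : ℝ) ^ 3 := pow_le_pow_left₀ (by positivity) hTy2 3
  have e6 : (0 : ℝ) ≤ y ^ 3 := by positivity
  nlinarith


end Pool.Agent.T2h82
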