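import Pool.Agent.T2h82.Rankin

/-!
# Counting the pairs with small powerful parts: the dyadic sum
-/

set_option autoImplicit false

namespace Pool.Agent.T2h82

open Finset
open Pool.Agent.H328R2.ABC (rad rad_pos)

theorem mul_rad_eq {n : ℕ} (hn : n ≠ 0) : n * rad (pw n) = rad n * pw n := by
  have h1 := s1_mul_pw hn
  have h2 := s1_mul_rad_pw n
  calc n * rad (pw n) = (s1 n * pw n) * rad (pw n) := by rw [h1]
    _ = (s1 n * rad (pw n)) * pw n := by ring
    _ = _ := by rw [h2]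

theorem dyad (s : ℝ) (hs0 : 0 ≤ s) (hs1 : s < 1) : ∃ C : ℝ, 0 < C ∧ ∀ X T W : ℝ, 0 < X → 1 ≤ T →
    1 ≤ W → ∀ S : Finset (ℤ × ℤ), (∀ q ∈ S, Adm X q ∧ T < HH q ∧ ((HH q : ℤ) : ℝ) ≤ 2 * T ∧
      (pw q.2.natAbs : ℝ) ≤ W ∧ (pw (ff q).natAbs : ℝ) ≤ W) →
    (S.card : ℝ) ≤ C * (X ^ s * T ^ (3 / 2 - 2 * s) + √T * W ^ 2) := by
  classical
  obtain ⟨C, hC, hsum⟩ := sum_gp s hs1
  refine ⟨3 * √2 * (260 * C ^ 2 + 2), by positivity, ?_⟩
  intro X T W hX hT hW S hS
  have hT0 : 0 < T := by linarith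
  set P : Finset ℕ := Icc 1 ⌊W⌋₊ with hP
  have hfib : ∀ p ∈ P ×ˢ P, ((S.filter (fun q => (pw q.2.natAbs, pw (ff q).natAbs) = p)).card : ℝ) ≤
      3 * √(2 * T) * (260 * (T ^ (1 - 2 * s) * X ^ s * (gp s p.1 * gp s p.2)) + 2) := by
    rintro ⟨w, z⟩ hp
    rw [mem_product, hP, mem_Icc, mem_Icc] at hp
    obtain ⟨⟨hw, -⟩, ⟨hz, -⟩⟩ := hp
    rcases (S.filter (fun q => (pw q.2.natAbs, pw (ff q).natAbs) = (w, z))).eq_empty_or_nonempty
      with h0 | ⟨q0, hq0⟩
    · rw [h0, card_empty]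
      have := gp_nonneg s w
      have := gp_nonneg s z
      push_cast
      positivity
    have hw0 : (0 : ℝ) < w := by exact_mod_cast hw
    have hz0 : (0 : ℝ) < z := by exact_mod_cast hz
    have hrw : (0 : ℝ) < rad w := by exact_mod_cast rad_pos w
    have hrz : (0 : ℝ) < rad z := by exact_mod_cast rad_pos z
    set Q : ℝ := X * (w / rad w) * (z / rad z) with hQ
    have hQ0 : 0 < Q := by positivity
    have hb := blk T Q hT s hs0 hs1.le hQ0 w z hw hz
      (S.filter (fun q => (pw q.2.natAbs, pw (ff q).natAbs) = (w, z))) (by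
        intro q hq
        rw [mem_filter, Prod.mk.injEq] at hq
        obtain ⟨hq1, hq2, hq3⟩ := hq
        obtain ⟨ha, h2, h3, -, -⟩ := hS q hq1
        refine ⟨ha.n0, ha.odd_f, ha.cop_nf, hq2, hq3, h2, h3, ?_⟩
        have e1 := mul_rad_eq (n := q.2.natAbs) (by have := ha.n0; omega)
        have e2 := mul_rad_eq (n := (ff q).natAbs) (by have := ha.f0; omega)
        rw [hq2] at e1
        rw [hq3] at e2
        have e1' : (q.2.natAbs : ℝ) * rad w = rad q.2.natAbs * w := by exact_mod_cast e1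
        have e2' : ((ff q).natAbs : ℝ) * rad z = rad (ff q).natAbs * z := by exact_mod_cast e2
        have e3 : (q.2.natAbs : ℝ) = rad q.2.natAbs * (w / rad w) := by
          rw [mul_div_assoc', eq_div_iff hrw.ne']
          exact e1'
        have e4 : ((ff q).natAbs : ℝ) = rad (ff q).natAbs * (z / rad z) := by
          rw [mul_div_assoc', eq_div_iff hrz.ne']
          exact e2'
        calc (q.2.natAbs : ℝ) * (ff q).natAbs
            = (rad q.2.natAbs * rad (ff q).natAbs) * ((w / rad w) * (z / rad z)) := by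
              rw [e4]
              conv_lhs => rw [e3]
              ring
          _ ≤ X * ((w / rad w) * (z / rad z)) := by
              apply mul_le_mul_of_nonneg_right ha.rad_le
              positivity
          _ = Q := by
              rw [hQ]
              ring)
    refine hb.trans (le_of_eq ?_)
    rw [mem_filter, Prod.mk.injEq] at hq0
    obtain ⟨hq1, hq2, hq3⟩ := hq0
    obtain ⟨ha, -⟩ := hS q0 hq1
    have pfw : Pful w := by
      rw [← hq2]
      exact pful_pw (by have := ha.n0; omega)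
    have pfz : Pful z := by
      rw [← hq3]
      exact pful_pw (by have := ha.f0; omega)
    have e5 : Q ^ s / ((w : ℝ) * z) = X ^ s * (gp s w * gp s z) := by
      unfold gp
      rw [if_pos pfw, if_pos pfz, hQ, Real.mul_rpow (by positivity) (by positivity),
        Real.mul_rpow (by positivity) (by positivity), Real.div_rpow hw0.le hrw.le,
        Real.div_rpow hz0.le hrz.le, Real.rpow_sub_one hw0.ne', Real.rpow_sub_one hz0.ne',
        Real.rpow_neg hrw.le, Real.rpow_neg hrz.le]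
      field_simp
    congr 1
    congr 1
    congr 1
    calc T ^ (1 - 2 * s) * Q ^ s / ((w : ℝ) * z) = T ^ (1 - 2 * s) * (Q ^ s / ((w : ℝ) * z)) := by
          ring
      _ = _ := by
          rw [e5]
          ring
  have hmap : ∀ q ∈ S, (pw q.2.natAbs, pw (ff q).natAbs) ∈ P ×ˢ P := by
    intro q hq
    obtain ⟨-, -, -, h4, h5⟩ := hS q hq
    rw [mem_product, hP, mem_Icc, mem_Icc]
    exact ⟨⟨pw_pos _, Nat.le_floor h4⟩, ⟨pw_pos _, Nat.le_floor h5⟩⟩
  have hcard : (S.card : ℝ) =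
      ∑ p ∈ P ×ˢ P, ((S.filter (fun q => (pw q.2.natAbs, pw (ff q).natAbs) = p)).card : ℝ) := by
    exact_mod_cast card_eq_sum_card_fiberwise hmap
  have hPW : (P.card : ℝ) ≤ W := by
    rw [hP, Nat.card_Icc]
    have := Nat.floor_le (by linarith : 0 ≤ W)
    simpa using this
  have hPs := hsum P (by
    intro n hn
    rw [hP, mem_Icc] at hn
    omega)
  have hP0 : 0 ≤ ∑ n ∈ P, gp s n := sum_nonneg (fun n _ => gp_nonneg s n)
  have hTs : √(2 * T) * T ^ (1 - 2 * s) = √2 * T ^ (3 / 2 - 2 * s) := by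
    rw [Real.sqrt_mul (by norm_num), Real.sqrt_eq_rpow T, mul_assoc, ← Real.rpow_add hT0]
    congr 2
    ring
  rw [hcard]
  calc ∑ p ∈ P ×ˢ P, ((S.filter (fun q => (pw q.2.natAbs, pw (ff q).natAbs) = p)).card : ℝ)
      ≤ ∑ p ∈ P ×ˢ P,
        3 * √(2 * T) * (260 * (T ^ (1 - 2 * s) * X ^ s * (gp s p.1 * gp s p.2)) + 2) :=
        sum_le_sum hfib
    _ = 3 * √(2 * T) * (260 * (T ^ (1 - 2 * s) * X ^ s * ((∑ n ∈ P, gp s n) * ∑ n ∈ P, gp s n)) +
          2 * ((P.card : ℝ) * P.card)) := by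
        rw [← mul_sum, sum_add_distrib, ← mul_sum, ← mul_sum, sum_mul_sum, ← sum_product',
          sum_const, card_product, nsmul_eq_mul]
        push_cast
        ring
    _ ≤ 3 * √(2 * T) * (260 * (T ^ (1 - 2 * s) * X ^ s * (C * C)) + 2 * (W * W)) := by
        gcongr
    _ = 780 * C ^ 2 * X ^ s * (√(2 * T) * T ^ (1 - 2 * s)) + 6 * √(2 * T) * W ^ 2 := by ring
    _ = 3 * √2 * (260 * C ^ 2 * (X ^ s * T ^ (3 / 2 - 2 * s)) + 2 * (√T * W ^ 2)) := by
        rw [hTs, Real.sqrt_mul (by norm_num)]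
        ring
    _ ≤ _ := by
        have h1 : 0 ≤ X ^ s * T ^ (3 / 2 - 2 * s) := by positivity
        have h2 : 0 ≤ √T * W ^ 2 := by positivity
        have h3 : 260 * C ^ 2 * (X ^ s * T ^ (3 / 2 - 2 * s)) + 2 * (√T * W ^ 2) ≤
            (260 * C ^ 2 + 2) * (X ^ s * T ^ (3 / 2 - 2 * s) + √T * W ^ 2) := by
          nlinarith [sq_nonneg C, mul_nonneg (sq_nonneg C) h2]
        calc 3 * √2 * (260 * C ^ 2 * (X ^ s * T ^ (3 / 2 - 2 * s)) + 2 * (√T * W ^ 2))
            ≤ 3 * √2 * ((260 * C ^ 2 + 2) * (X ^ s * T ^ (3 / 2 - 2 * s) + √T * W ^ 2)) := by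
              gcongr
          _ = _ := by ring

/-- the pairs with small powerful parts and `T0 < H ≤ T1` -/
theorem rankin (s : ℝ) (hs0 : 3 / 4 < s) (hs1 : s < 1) : ∃ C : ℝ, 0 < C ∧
    ∀ X T0 T1 W : ℝ, 0 < X → 1 ≤ T0 → T0 ≤ T1 →
    1 ≤ W → ∀ S : Finset (ℤ × ℤ), (∀ q ∈ S, Adm X q ∧ T0 < HH q ∧ ((HH q : ℤ) : ℝ) ≤ T1 ∧
      (pw q.2.natAbs : ℝ) ≤ W ∧ (pw (ff q).natAbs : ℝ) ≤ W) →
    (S.card : ℝ) ≤ C * (X ^ s * T0 ^ (3 / 2 - 2 * s) + √T1 * W ^ 2) := by
  classical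
  obtain ⟨C, hC, hd⟩ := dyad s (by linarith) hs1
  set r : ℝ := 2 ^ (3 / 2 - 2 * s) with hr
  have hr0 : 0 < r := by positivity
  have hr1 : r < 1 := Real.rpow_lt_one_of_one_lt_of_neg (by norm_num) (by linarith)
  have hr2 : 0 < 1 - r := by linarith
  set t : ℝ := √2 with ht
  have ht1 : 1 < t := by
    rw [ht, Real.lt_sqrt (by norm_num)]
    norm_num
  have ht2 : 0 < t - 1 := by linarith
  refine ⟨C * ((1 - r)⁻¹ + t * (t - 1)⁻¹), by positivity, ?_⟩
  intro X T0 T1 W hX hT0 hT1 hW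
  have hT00 : 0 < T0 := by linarith
  have key : ∀ J : ℕ, ∀ S : Finset (ℤ × ℤ), (∀ q ∈ S, Adm X q ∧ T0 < HH q ∧
      ((HH q : ℤ) : ℝ) ≤ 2 ^ J * T0 ∧
      (pw q.2.natAbs : ℝ) ≤ W ∧ (pw (ff q).natAbs : ℝ) ≤ W) →
      (S.card : ℝ) ≤ C * (X ^ s * T0 ^ (3 / 2 - 2 * s) * ((1 - r ^ J) * (1 - r)⁻¹) +
        √T0 * W ^ 2 * ((t ^ J - 1) * (t - 1)⁻¹)) := by
    intro J
    induction J with
    | zero =>
      intro S hS
      have h0 : S = ∅ := by
        rw [eq_empty_iff_forall_notMem]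
        intro q hq
        obtain ⟨-, h1, h2, -⟩ := hS q hq
        rw [pow_zero, one_mul] at h2
        linarith
      rw [h0, card_empty]
      simp
    | succ J ih =>
      intro S hS
      have e1 := ih (S.filter (fun q => ((HH q : ℤ) : ℝ) ≤ 2 ^ J * T0)) (by
        intro q hq
        rw [mem_filter] at hq
        obtain ⟨h1, h2, -, h4, h5⟩ := hS q hq.1
        exact ⟨h1, h2, hq.2, h4, h5⟩)
      have e2 := hd X (2 ^ J * T0) W hX (by
        have : (1 : ℝ) ≤ 2 ^ J := one_le_pow₀ (by norm_num)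
        nlinarith) hW (S.filter (fun q => ¬ ((HH q : ℤ) : ℝ) ≤ 2 ^ J * T0)) (by
        intro q hq
        rw [mem_filter, not_le] at hq
        obtain ⟨h1, h2, h3, h4, h5⟩ := hS q hq.1
        refine ⟨h1, hq.2, ?_, h4, h5⟩
        rw [pow_succ] at h3
        linarith)
      have e3 : (S.card : ℝ) = ((S.filter (fun q => ((HH q : ℤ) : ℝ) ≤ 2 ^ J * T0)).card : ℝ) +
          ((S.filter (fun q => ¬ ((HH q : ℤ) : ℝ) ≤ 2 ^ J * T0)).card : ℝ) := by
        exact_mod_cast (card_filter_add_card_filter_not (s := S)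
          (fun q : ℤ × ℤ => ((HH q : ℤ) : ℝ) ≤ 2 ^ J * T0)).symm
      have e4 : ((2 : ℝ) ^ J * T0) ^ (3 / 2 - 2 * s) = r ^ J * T0 ^ (3 / 2 - 2 * s) := by
        rw [Real.mul_rpow (by positivity) hT00.le, hr, ← Real.rpow_natCast (2 : ℝ) J,
          ← Real.rpow_natCast ((2 : ℝ) ^ (3 / 2 - 2 * s)) J, ← Real.rpow_mul (by norm_num),
          ← Real.rpow_mul (by norm_num), mul_comm (J : ℝ)]
      have e5 : √((2 : ℝ) ^ J * T0) = t ^ J * √T0 := by
        rw [Real.sqrt_mul (by positivity), ht]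
        congr 1
        rw [Real.sqrt_eq_iff_mul_self_eq (by positivity) (by positivity), ← mul_pow,
          Real.mul_self_sqrt (by norm_num)]
      rw [e4, e5] at e2
      rw [e3]
      refine (add_le_add e1 e2).trans (le_of_eq ?_)
      have f1 : (1 - r ^ (J + 1)) * (1 - r)⁻¹ = (1 - r ^ J) * (1 - r)⁻¹ + r ^ J := by
        field_simp
        ring
      have f2 : (t ^ (J + 1) - 1) * (t - 1)⁻¹ = (t ^ J - 1) * (t - 1)⁻¹ + t ^ J := by
        field_simp
        ring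
      rw [f1, f2]
      ring
  intro S hS
  -- choose J
  have hex : ∃ J : ℕ, T1 ≤ 2 ^ J * T0 := by
    obtain ⟨J, hJ⟩ := pow_unbounded_of_one_lt (T1 / T0) (by norm_num : (1 : ℝ) < 2)
    refine ⟨J, ?_⟩
    rw [div_lt_iff₀ hT00] at hJ
    exact hJ.le
  obtain ⟨J, hJ, hJm⟩ : ∃ J : ℕ, T1 ≤ 2 ^ J * T0 ∧ 2 ^ J * T0 ≤ 2 * T1 := by
    classical
    refine ⟨Nat.find hex, Nat.find_spec hex, ?_⟩
    rcases Nat.eq_zero_or_pos (Nat.find hex) with h0 | h0
    · rw [h0, pow_zero, one_mul]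
      linarith
    · have := Nat.find_min hex (m := Nat.find hex - 1) (by omega)
      push Not at this
      have h1 : Nat.find hex = (Nat.find hex - 1) + 1 := by omega
      rw [h1, pow_succ]
      linarith
  have hk := key J S (fun q hq => by
    obtain ⟨h1, h2, h3, h4, h5⟩ := hS q hq
    exact ⟨h1, h2, h3.trans hJ, h4, h5⟩)
  refine hk.trans ?_
  have g1 : (1 - r ^ J) * (1 - r)⁻¹ ≤ (1 - r)⁻¹ := by
    have : 0 ≤ (1 - r)⁻¹ := by positivity
    have h2 : 0 < r ^ J := by positivity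
    nlinarith
  have g2 : √T0 * ((t ^ J - 1) * (t - 1)⁻¹) ≤ √T1 * (t * (t - 1)⁻¹) := by
    have h1 : √T0 * t ^ J ≤ t * √T1 := by
      have : √T0 * t ^ J = √(2 ^ J * T0) := by
        rw [Real.sqrt_mul (by positivity), ht, mul_comm]
        congr 1
        symm
        rw [Real.sqrt_eq_iff_mul_self_eq (by positivity) (by positivity), ← mul_pow,
          Real.mul_self_sqrt (by norm_num)]
      rw [this, ht, ← Real.sqrt_mul (by norm_num)]
      exact Real.sqrt_le_sqrt hJm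
    have h2 : 0 ≤ √T0 := Real.sqrt_nonneg _
    have h3 : 0 < (t - 1)⁻¹ := by positivity
    calc √T0 * ((t ^ J - 1) * (t - 1)⁻¹) = (√T0 * t ^ J - √T0) * (t - 1)⁻¹ := by ring
      _ ≤ (t * √T1) * (t - 1)⁻¹ := by
          apply mul_le_mul_of_nonneg_right _ h3.le
          linarith
      _ = _ := by ring
  have p1 : 0 ≤ X ^ s * T0 ^ (3 / 2 - 2 * s) := by positivity
  have p2 : 0 ≤ √T1 * W ^ 2 := by positivity
  have p3 : 0 ≤ (1 - r)⁻¹ := by positivity
  have p4 : 0 ≤ t * (t - 1)⁻¹ := by positivity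
  calc C * (X ^ s * T0 ^ (3 / 2 - 2 * s) * ((1 - r ^ J) * (1 - r)⁻¹) +
        √T0 * W ^ 2 * ((t ^ J - 1) * (t - 1)⁻¹))
      = C * (X ^ s * T0 ^ (3 / 2 - 2 * s) * ((1 - r ^ J) * (1 - r)⁻¹) +
        (√T0 * ((t ^ J - 1) * (t - 1)⁻¹)) * W ^ 2) := by ring
    _ ≤ C * (X ^ s * T0 ^ (3 / 2 - 2 * s) * (1 - r)⁻¹ + (√T1 * (t * (t - 1)⁻¹)) * W ^ 2) := by
        gcongr
    _ = C * ((X ^ s * T0 ^ (3 / 2 - 2 * s)) * (1 - r)⁻¹ + (√T1 * W ^ 2) * (t * (t - 1)⁻¹)) := by
        ring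
    _ ≤ C * ((X ^ s * T0 ^ (3 / 2 - 2 * s)) * ((1 - r)⁻¹ + t * (t - 1)⁻¹) +
          (√T1 * W ^ 2) * ((1 - r)⁻¹ + t * (t - 1)⁻¹)) := by
        gcongr
        · linarith
        · linarith
    _ = _ := by ring

end Pool.Agent.T2h82
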