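import Pool.Agent.T2h82.Key

/-!
# The two counts
-/

set_option autoImplicit false

namespace Pool.Agent.T2h82

open Finset
open Pool.Agent.H328R2.ABC (rad rad_pos)

/-- the integers `± m` with `1 ≤ m ≤ M`, `rad m ≤ R` -/
def radSet (M : ℕ) (R : ℝ) [DecidablePred fun m : ℕ => (rad m : ℝ) ≤ R] : Finset ℤ :=
  ((Icc 1 M).filter (fun m => (rad m : ℝ) ≤ R)).image (fun m : ℕ => (m : ℤ)) ∪
    ((Icc 1 M).filter (fun m => (rad m : ℝ) ≤ R)).image (fun m : ℕ => -(m : ℤ))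

theorem mem_radSet {M : ℕ} {R : ℝ} [DecidablePred fun m : ℕ => (rad m : ℝ) ≤ R] {v : ℤ}
    (h0 : v ≠ 0) (hM : v.natAbs ≤ M) (hR : (rad v.natAbs : ℝ) ≤ R) : v ∈ radSet M R := by
  unfold radSet
  have h1 : v.natAbs ∈ (Icc 1 M).filter (fun m => (rad m : ℝ) ≤ R) := by
    rw [mem_filter, mem_Icc]
    exact ⟨⟨by omega, hM⟩, hR⟩
  rw [mem_union, mem_image, mem_image]
  rcases Int.natAbs_eq v with h | h
  · exact Or.inl ⟨_, h1, h.symm⟩
  · exact Or.inr ⟨_, h1, h.symm⟩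

theorem card_radSet (M : ℕ) (R : ℝ) [DecidablePred fun m : ℕ => (rad m : ℝ) ≤ R] :
    (radSet M R).card ≤ 2 * ((Icc 1 M).filter (fun m => (rad m : ℝ) ≤ R)).card := by
  unfold radSet
  refine (card_union_le _ _).trans ?_
  have h1 := card_image_le (s := (Icc 1 M).filter (fun m => (rad m : ℝ) ≤ R)) (f := fun m : ℕ => (m : ℤ))
  have h2 := card_image_le (s := (Icc 1 M).filter (fun m => (rad m : ℝ) ≤ R)) (f := fun m : ℕ => -(m : ℤ))
  omega

theorem card_le_mul_card_image_real {τ σ : Type} [DecidableEq σ] (F : Finset τ) (f : τ → σ) (B : ℝ)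
    (h : ∀ ρ ∈ F.image f, ((F.filter (fun t => f t = ρ)).card : ℝ) ≤ B) :
    (F.card : ℝ) ≤ B * ((F.image f).card : ℝ) := by
  have h1 : F.card = ∑ ρ ∈ F.image f, (F.filter (fun t => f t = ρ)).card :=
    card_eq_sum_card_fiberwise (fun t ht => by
      rw [mem_coe]
      exact mem_image_of_mem f ht)
  rw [h1]
  push_cast
  calc ∑ ρ ∈ F.image f, ((F.filter (fun t => f t = ρ)).card : ℝ) ≤ ∑ ρ ∈ F.image f, B :=
        sum_le_sum h
    _ = _ := by rw [sum_const, nsmul_eq_mul]; ring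

theorem countA (ε : ℝ) (hε : 0 < ε) : ∃ C : ℝ, 0 < C ∧ ∀ M : ℕ, 1 ≤ M → ∀ μ ν : ℤ,
    0 < μ → μ ≤ 64 → 0 < ν → ∀ R P ub wl A2 : ℝ, 0 ≤ R → 0 ≤ P → 0 < ub → 0 < wl →
    0 < A2 → ∀ T : Finset (ℤ × ℤ × ℤ), (∀ t ∈ T, Sol μ ν M t ∧ (rad t.2.2.natAbs : ℝ) ≤ R ∧
      (rad (pw t.2.1.natAbs) : ℝ) ≤ P ∧ (t.2.1.natAbs : ℝ) ≤ ub ∧ wl ≤ pw t.2.1.natAbs ∧
      A2 ≤ max (t.2.1.natAbs : ℝ) t.2.2.natAbs) →
    (T.card : ℝ) ≤ C * (M : ℝ) ^ ε * (R * P) * (ub / (√A2 * wl) + 1) := by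
  classical
  obtain ⟨C1, hC1, hrad⟩ := card_rad_le (ε / 3) (by positivity)
  obtain ⟨C2, hC2, hroots⟩ := card_image_roots (τ := ℤ × ℤ × ℤ) (ε / 3) (by positivity)
  refine ⟨2 * C1 * C1 * C2 * 256, by positivity, ?_⟩
  intro M hM μ ν hμ hμ64 hν R P ub wl A2 hR hP hub hwl hA2 T hT
  have hM0 : (0 : ℝ) < M := by exact_mod_cast hM
  have hμR : (0 : ℝ) < μ := by exact_mod_cast hμ
  have hμR64 : (μ : ℝ) ≤ 64 := by exact_mod_cast hμ64
  set Lb := radSet M R with hLb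
  set Wb := (Icc 1 M).filter (fun m => (rad m : ℝ) ≤ P) with hWb
  set B : ℝ := 2 * (2 * (64 * ub) / √A2 / wl + 1) with hB
  have hB0 : 0 ≤ B := by positivity
  have main := count_two T (fun t => t.2.2) (fun t => pw t.2.1.natAbs) Lb Wb
    (C2 * (M : ℝ) ^ (ε / 3) * B) (fun t ht => ?_) (fun t ht => ?_) (fun l hl w0 hw0 => ?_)
  · refine main.trans ?_
    have c1 : (Lb.card : ℝ) ≤ 2 * (C1 * R * (M : ℝ) ^ (ε / 3)) := by
      have := card_radSet M R
      have h2 := hrad M hM R hR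
      have h3 : (Lb.card : ℝ) ≤ 2 * (((Icc 1 M).filter (fun m => (rad m : ℝ) ≤ R)).card : ℝ) := by
        exact_mod_cast this
      linarith
    have c2 : (Wb.card : ℝ) ≤ C1 * P * (M : ℝ) ^ (ε / 3) := hrad M hM P hP
    have hε3 : (M : ℝ) ^ (ε / 3) * (M : ℝ) ^ (ε / 3) * (M : ℝ) ^ (ε / 3) = (M : ℝ) ^ ε := by
      rw [← Real.rpow_add hM0, ← Real.rpow_add hM0]
      congr 1
      ring
    calc (Lb.card : ℝ) * Wb.card * (C2 * (M : ℝ) ^ (ε / 3) * B)
        ≤ (2 * (C1 * R * (M : ℝ) ^ (ε / 3))) * (C1 * P * (M : ℝ) ^ (ε / 3)) *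
          (C2 * (M : ℝ) ^ (ε / 3) * B) := by gcongr
      _ = 2 * C1 * C1 * C2 * ((M : ℝ) ^ (ε / 3) * (M : ℝ) ^ (ε / 3) * (M : ℝ) ^ (ε / 3)) *
          (R * P) * B := by ring
      _ = 2 * C1 * C1 * C2 * (M : ℝ) ^ ε * (R * P) * B := by rw [hε3]
      _ ≤ 2 * C1 * C1 * C2 * (M : ℝ) ^ ε * (R * P) * (256 * (ub / (√A2 * wl) + 1)) := by
          gcongr
          rw [hB]
          have : 2 * (64 * ub) / √A2 / wl = 128 * (ub / (√A2 * wl)) := by
            rw [div_div]; ring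
          rw [this]
          have h0 : 0 ≤ ub / (√A2 * wl) := by positivity
          linarith
      _ = _ := by ring
  · obtain ⟨⟨-, -, h3, -, -, h6⟩, h7, -⟩ := hT t ht
    exact mem_radSet h3 h6 h7
  · obtain ⟨⟨-, h2, h3, -, h5, h6⟩, -, h8, -⟩ := hT t ht
    rw [hWb, mem_filter, mem_Icc]
    have hn0 : t.2.1.natAbs ≠ 0 := Int.natAbs_ne_zero.2 h2
    exact ⟨⟨pw_pos _, (Nat.le_of_dvd (by omega) (pw_dvd hn0)).trans h5⟩, h8⟩
  · set F := T.filter (fun t => t.2.2 = l ∧ pw t.2.1.natAbs = w0) with hF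
    rw [hWb, mem_filter, mem_Icc] at hw0
    by_cases hne : F = ∅
    · rw [hne, card_empty, Nat.cast_zero]
      positivity
    obtain ⟨t0, ht0⟩ := nonempty_iff_ne_empty.2 hne
    rw [hF, mem_filter] at ht0
    have hFm : ∀ t ∈ F, t ∈ T ∧ t.2.2 = l ∧ pw t.2.1.natAbs = w0 := fun t ht => by
      rwa [hF, mem_filter] at ht
    have hdvd : ∀ t ∈ F, (w0 : ℤ) ∣ t.1 ^ 2 - ν * l := by
      intro t ht
      obtain ⟨h1, h2, h3⟩ := hFm t ht
      obtain ⟨⟨e1, e2, -⟩, -⟩ := hT t h1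
      have h4 : (w0 : ℤ) ∣ t.2.1 := by
        rw [← h3, Int.natCast_dvd]
        exact pw_dvd (Int.natAbs_ne_zero.2 e2)
      rw [e1, h2]
      have : μ * t.2.1 + ν * l - ν * l = μ * t.2.1 := by ring
      rw [this]
      exact h4.mul_left _
    have hunit : IsUnit ((ν * l : ℤ) : ZMod w0) := by
      refine unit_of_cop ?_
      obtain ⟨⟨-, -, -, e4, -⟩, -⟩ := hT t0 ht0.1
      rw [← ht0.2.1, ← ht0.2.2]
      exact e4
    have himg := hroots M w0 hw0.1.1 hw0.1.2 _ hunit F (fun t => (t.1 : ZMod w0))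
      (fun t ht => modEq_sq_unit (hdvd t ht))
    have hfib : ∀ ρ ∈ F.image (fun t => (t.1 : ZMod w0)),
        ((F.filter (fun t => (t.1 : ZMod w0) = ρ)).card : ℝ) ≤ B := by
      intro ρ _
      have hwl0 : wl ≤ w0 := by
        obtain ⟨-, -, -, -, h, -⟩ := hT t0 ht0.1
        rwa [ht0.2.2] at h
      have hmub : 0 < (μ : ℝ) * ub := by positivity
      have h1 := fib (F.filter (fun t => (t.1 : ZMod w0) = ρ)) (fun _ => 1) (ν * l) (μ * ub) wl
        hmub hwl (fun _ _ => one_pos) ?_ ?_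
      · refine h1.trans ?_
        rw [hB]
        have hA : A2 ≤ max |(ν : ℝ) * l| (μ * ub) := by
          obtain ⟨-, -, -, h8, -, h10⟩ := hT t0 ht0.1
          have hν1 : (1 : ℝ) ≤ ν := by exact_mod_cast hν
          have hμ1 : (1 : ℝ) ≤ μ := by exact_mod_cast hμ
          refine h10.trans (max_le ?_ ?_)
          · refine le_max_of_le_right (h8.trans ?_)
            nlinarith
          · refine le_max_of_le_left ?_
            rw [ht0.2.1, Nat.cast_natAbs, Int.cast_abs, abs_mul, abs_of_pos (by linarith : (0 : ℝ) < ν)]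
            nlinarith [abs_nonneg (l : ℝ)]
        have hs : √A2 ≤ √(max |(ν : ℝ) * l| (μ * ub)) := Real.sqrt_le_sqrt hA
        have hsA : 0 < √A2 := Real.sqrt_pos.2 hA2
        gcongr
      · intro t ht
        rw [mem_filter] at ht
        obtain ⟨g1, g2, g3⟩ := hFm t ht.1
        obtain ⟨⟨e1, e2, -⟩, -, -, e8, -⟩ := hT t g1
        rw [div_one, sq_abs]
        have : ((t.1 : ℝ)) ^ 2 - (ν : ℝ) * l = μ * t.2.1 := by
          have h9 : ((t.1 : ℝ)) ^ 2 = μ * t.2.1 + ν * t.2.2 := by exact_mod_cast e1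
          rw [h9, g2]
          ring
        rw [this, abs_mul, abs_of_pos hμR]
        have h10 : |(t.2.1 : ℝ)| ≤ ub := by
          rwa [Nat.cast_natAbs, Int.cast_abs] at e8
        gcongr
      · intro t ht t' ht' hne' hsgn
        rw [mem_filter] at ht ht'
        obtain ⟨g1, g2, g3⟩ := hFm t ht.1
        obtain ⟨g1', g2', g3'⟩ := hFm t' ht'.1
        obtain ⟨⟨e1, -⟩, -⟩ := hT t g1
        obtain ⟨⟨e1', -⟩, -⟩ := hT t' g1'
        have hane : t.1 ≠ t'.1 := by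
          intro h
          apply hne'
          have hu : t.2.1 = t'.2.1 := by
            have : μ * t.2.1 = μ * t'.2.1 := by
              have h9 : t.1 ^ 2 = t'.1 ^ 2 := by rw [h]
              rw [e1, e1', g2, g2'] at h9
              linarith
            exact mul_left_cancel₀ hμ.ne' this
          exact Prod.ext h (Prod.ext hu (g2.trans g2'.symm))
        have hd : (w0 : ℤ) ∣ t.1 - t'.1 := by
          rw [← ZMod.intCast_zmod_eq_zero_iff_dvd]
          push_cast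
          rw [ht.2, ht'.2, sub_self]
        have h3 : (w0 : ℤ) ≤ |t.1 - t'.1| :=
          Int.le_of_dvd (abs_pos.2 (sub_ne_zero.2 hane)) ((dvd_abs _ _).2 hd)
        have h4 : (w0 : ℝ) ≤ |(t.1 : ℝ) - t'.1| := by exact_mod_cast h3
        have h5 : |(|(t.1 : ℝ)| / 1) - (|(t'.1 : ℝ)| / 1)| = |(t.1 : ℝ) - t'.1| := by
          rw [div_one, div_one]
          by_cases hs : 0 ≤ t.1
          · have hs' := hsgn.1 hs
            have q1 : (0 : ℝ) ≤ t.1 := by exact_mod_cast hs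
            have q2 : (0 : ℝ) ≤ t'.1 := by exact_mod_cast hs'
            rw [abs_of_nonneg q1, abs_of_nonneg q2]
          · have hs' : ¬ 0 ≤ t'.1 := fun h => hs (hsgn.2 h)
            have q1 : (t.1 : ℝ) ≤ 0 := by exact_mod_cast (not_le.1 hs).le
            have q2 : (t'.1 : ℝ) ≤ 0 := by exact_mod_cast (not_le.1 hs').le
            rw [abs_of_nonpos q1, abs_of_nonpos q2, ← abs_neg]
            congr 1
            ring
        rw [h5]
        linarith
    have h7 := card_le_mul_card_image_real F (fun t => (t.1 : ZMod w0)) B hfib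
    calc (F.card : ℝ) ≤ B * ((F.image (fun t => (t.1 : ZMod w0))).card : ℝ) := h7
      _ ≤ B * (C2 * (M : ℝ) ^ (ε / 3)) := by gcongr
      _ = _ := by ring

/-- the signed kernels -/
theorem sign_ker {v : ℤ} (hv : v ≠ 0) :
    v.sign * (ker v.natAbs : ℤ) * (sr v.natAbs : ℤ) ^ 2 = v := by
  have h1 := ker_mul_sq (Int.natAbs_ne_zero.2 hv)
  have h2 : ((ker v.natAbs : ℤ)) * (sr v.natAbs : ℤ) ^ 2 = (v.natAbs : ℤ) := by exact_mod_cast h1
  rw [mul_assoc, h2]
  exact Int.sign_mul_natAbs v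

theorem countB (ε : ℝ) (hε : 0 < ε) : ∃ C : ℝ, 0 < C ∧ ∀ M : ℕ, 1 ≤ M → ∀ μ ν : ℤ,
    0 < μ → μ ≤ 64 → 0 < ν → ∀ K P ub wl kl sl lam : ℝ, 0 ≤ K → 0 ≤ P → 0 < ub → 0 < wl →
    0 < kl → 0 < sl → 0 < lam → ∀ T : Finset (ℤ × ℤ × ℤ), (∀ t ∈ T, Sol μ ν M t ∧
      IsCoprime t.1 t.2.2 ∧ (ker t.2.2.natAbs : ℝ) ≤ K ∧
      (rad (pw t.2.1.natAbs) : ℝ) ≤ P ∧ (t.2.1.natAbs : ℝ) ≤ ub ∧ wl ≤ pw t.2.1.natAbs ∧
      kl ≤ ker t.2.2.natAbs ∧ sl ≤ sr t.2.2.natAbs ∧ (sr t.2.2.natAbs : ℝ) ≤ lam * sl) →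
    (T.card : ℝ) ≤ C * (M : ℝ) ^ ε * (K * P) * (ub * lam ^ 2 / (√kl * wl) + 1) := by
  classical
  obtain ⟨C1, hC1, hrad⟩ := card_rad_le (ε / 2) (by positivity)
  obtain ⟨C2, hC2, hroots⟩ := card_image_roots (τ := ℤ × ℤ × ℤ) (ε / 2) (by positivity)
  refine ⟨2 * C1 * C2 * 256, by positivity, ?_⟩
  intro M hM μ ν hμ hμ64 hν K P ub wl kl sl lam hK hP hub hwl hkl hsl hlam T hT
  have hM0 : (0 : ℝ) < M := by exact_mod_cast hM
  have hμR : (0 : ℝ) < μ := by exact_mod_cast hμ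
  have hμR64 : (μ : ℝ) ≤ 64 := by exact_mod_cast hμ64
  have hν1 : (1 : ℝ) ≤ ν := by exact_mod_cast hν
  set Lb : Finset ℤ := (Icc 1 ⌊K⌋₊).image (fun m : ℕ => (m : ℤ)) ∪
    (Icc 1 ⌊K⌋₊).image (fun m : ℕ => -(m : ℤ)) with hLb
  set Wb := (Icc 1 M).filter (fun m => (rad m : ℝ) ≤ P) with hWb
  set B : ℝ := 2 * (2 * (64 * ub / sl ^ 2) / √kl / (wl / (lam * sl) ^ 2) + 1) with hB
  have hB0 : 0 ≤ B := by positivity
  have main := count_two T (fun t => t.2.2.sign * (ker t.2.2.natAbs : ℤ))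
    (fun t => pw t.2.1.natAbs) Lb Wb
    (C2 * (M : ℝ) ^ (ε / 2) * B) (fun t ht => ?_) (fun t ht => ?_) (fun l hl w0 hw0 => ?_)
  · refine main.trans ?_
    have c1 : (Lb.card : ℝ) ≤ 2 * K := by
      have g1 := card_image_le (s := Icc 1 ⌊K⌋₊) (f := fun m : ℕ => (m : ℤ))
      have g2 := card_image_le (s := Icc 1 ⌊K⌋₊) (f := fun m : ℕ => -(m : ℤ))
      have g3 : Lb.card ≤ _ + _ := card_union_le _ _
      rw [Nat.card_Icc] at g1 g2
      have g4 : Lb.card ≤ 2 * ⌊K⌋₊ := by omega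
      calc (Lb.card : ℝ) ≤ 2 * (⌊K⌋₊ : ℝ) := by exact_mod_cast g4
        _ ≤ 2 * K := by gcongr; exact Nat.floor_le hK
    have c2 : (Wb.card : ℝ) ≤ C1 * P * (M : ℝ) ^ (ε / 2) := hrad M hM P hP
    have hε3 : (M : ℝ) ^ (ε / 2) * (M : ℝ) ^ (ε / 2) = (M : ℝ) ^ ε := by
      rw [← Real.rpow_add hM0]
      congr 1
      ring
    calc (Lb.card : ℝ) * Wb.card * (C2 * (M : ℝ) ^ (ε / 2) * B)
        ≤ (2 * K) * (C1 * P * (M : ℝ) ^ (ε / 2)) * (C2 * (M : ℝ) ^ (ε / 2) * B) := by gcongr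
      _ = 2 * C1 * C2 * ((M : ℝ) ^ (ε / 2) * (M : ℝ) ^ (ε / 2)) * (K * P) * B := by ring
      _ = 2 * C1 * C2 * (M : ℝ) ^ ε * (K * P) * B := by rw [hε3]
      _ ≤ 2 * C1 * C2 * (M : ℝ) ^ ε * (K * P) * (256 * (ub * lam ^ 2 / (√kl * wl) + 1)) := by
          gcongr
          rw [hB]
          have : 2 * (64 * ub / sl ^ 2) / √kl / (wl / (lam * sl) ^ 2) =
              128 * (ub * lam ^ 2 / (√kl * wl)) := by
            have : √kl ≠ 0 := (Real.sqrt_pos.2 hkl).ne'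
            field_simp
            ring
          rw [this]
          have h0 : 0 ≤ ub * lam ^ 2 / (√kl * wl) := by positivity
          linarith
      _ = _ := by ring
  · obtain ⟨⟨-, -, h3, -, -, h6⟩, -, h7, -⟩ := hT t ht
    have hk1 : 1 ≤ ker t.2.2.natAbs := ker_pos _
    have hk2 : ker t.2.2.natAbs ≤ ⌊K⌋₊ := Nat.le_floor h7
    rw [hLb, mem_union, mem_image, mem_image]
    rcases lt_or_gt_of_ne h3 with h | h
    · right
      refine ⟨ker t.2.2.natAbs, mem_Icc.2 ⟨hk1, hk2⟩, ?_⟩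
      rw [Int.sign_eq_neg_one_of_neg h, neg_one_mul]
    · left
      refine ⟨ker t.2.2.natAbs, mem_Icc.2 ⟨hk1, hk2⟩, ?_⟩
      rw [Int.sign_eq_one_of_pos h, one_mul]
  · obtain ⟨⟨-, h2, h3, -, h5, h6⟩, -, -, h8, -⟩ := hT t ht
    rw [hWb, mem_filter, mem_Icc]
    have hn0 : t.2.1.natAbs ≠ 0 := Int.natAbs_ne_zero.2 h2
    exact ⟨⟨pw_pos _, (Nat.le_of_dvd (by omega) (pw_dvd hn0)).trans h5⟩, h8⟩
  · set F := T.filter (fun t => t.2.2.sign * (ker t.2.2.natAbs : ℤ) = l ∧ pw t.2.1.natAbs = w0)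
      with hF
    rw [hWb, mem_filter, mem_Icc] at hw0
    by_cases hne : F = ∅
    · rw [hne, card_empty, Nat.cast_zero]
      positivity
    obtain ⟨t0, ht0⟩ := nonempty_iff_ne_empty.2 hne
    have hFm : ∀ t ∈ F, t ∈ T ∧ t.2.2.sign * (ker t.2.2.natAbs : ℤ) = l ∧
        pw t.2.1.natAbs = w0 := fun t ht => by
      rwa [hF, mem_filter] at ht
    have hv : ∀ t ∈ F, t.2.2 = l * (sr t.2.2.natAbs : ℤ) ^ 2 := by
      intro t ht
      obtain ⟨h1, h2, h3⟩ := hFm t ht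
      obtain ⟨⟨-, -, e3, -⟩, -⟩ := hT t h1
      rw [← h2]
      exact (sign_ker e3).symm
    have hcopl : ∀ t ∈ F, IsCoprime (ν * l) (w0 : ℤ) := by
      intro t ht
      obtain ⟨h1, h2, h3⟩ := hFm t ht
      obtain ⟨⟨-, -, -, e4, -⟩, -⟩ := hT t h1
      rw [h3] at e4
      rw [hv t ht, ← mul_assoc] at e4
      exact e4.of_mul_left_left
    have hcops : ∀ t ∈ F, IsCoprime (sr t.2.2.natAbs : ℤ) (w0 : ℤ) := by
      intro t ht
      obtain ⟨h1, h2, h3⟩ := hFm t ht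
      obtain ⟨⟨-, -, -, e4, -⟩, -⟩ := hT t h1
      rw [h3] at e4
      rw [hv t ht, ← mul_assoc] at e4
      exact IsCoprime.of_mul_left_left (by
        have := e4.of_mul_left_right
        rwa [pow_two] at this)
    have hinv : ∀ t ∈ F, ((sr t.2.2.natAbs : ℤ) : ZMod w0) * ((sr t.2.2.natAbs : ℤ) : ZMod w0)⁻¹ = 1 := by
      intro t ht
      exact ZMod.mul_inv_of_unit _ (unit_of_cop (hcops t ht))
    have hdvd : ∀ t ∈ F, ((t.1 : ZMod w0)) ^ 2 =
        ((ν * l : ℤ) : ZMod w0) * ((sr t.2.2.natAbs : ℤ) : ZMod w0) ^ 2 := by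
      intro t ht
      obtain ⟨h1, h2, h3⟩ := hFm t ht
      obtain ⟨⟨e1, e2, -⟩, -⟩ := hT t h1
      have h4 : (w0 : ℤ) ∣ t.2.1 := by
        rw [← h3, Int.natCast_dvd]
        exact pw_dvd (Int.natAbs_ne_zero.2 e2)
      have h5 : (w0 : ℤ) ∣ t.1 ^ 2 - ν * l * (sr t.2.2.natAbs : ℤ) ^ 2 := by
        have : t.1 ^ 2 - ν * l * (sr t.2.2.natAbs : ℤ) ^ 2 = μ * t.2.1 := by
          rw [e1]
          have := hv t ht
          linear_combination ν * this
        rw [this]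
        exact h4.mul_left _
      have h6 := modEq_sq_unit h5
      rw [h6]
      push_cast
      ring
    have himg := hroots M w0 hw0.1.1 hw0.1.2 _ (unit_of_cop (hcopl t0 ht0)) F
      (fun t => (t.1 : ZMod w0) * ((sr t.2.2.natAbs : ℤ) : ZMod w0)⁻¹)
      (fun t ht => by
        rw [mul_pow, hdvd t ht, mul_assoc, ← mul_pow, hinv t ht, one_pow, mul_one])
    have hfib : ∀ ρ ∈ F.image (fun t => (t.1 : ZMod w0) * ((sr t.2.2.natAbs : ℤ) : ZMod w0)⁻¹),
        ((F.filter (fun t => (t.1 : ZMod w0) * ((sr t.2.2.natAbs : ℤ) : ZMod w0)⁻¹ = ρ)).card : ℝ)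
          ≤ B := by
      intro ρ _
      have ht0T := (hFm t0 ht0).1
      have hwl0 : wl ≤ w0 := by
        obtain ⟨-, -, -, -, -, h, -⟩ := hT t0 ht0T
        rwa [(hFm t0 ht0).2.2] at h
      have hmub : 0 < (μ : ℝ) * ub / sl ^ 2 := by positivity
      have hg : 0 < wl / (lam * sl) ^ 2 := by positivity
      have h1 := fib (F.filter (fun t => (t.1 : ZMod w0) * ((sr t.2.2.natAbs : ℤ) : ZMod w0)⁻¹ = ρ))
        (fun t => (sr t.2.2.natAbs : ℝ)) (ν * l) (μ * ub / sl ^ 2) (wl / (lam * sl) ^ 2)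
        hmub hg (fun t _ => by exact_mod_cast sr_pos _) ?_ ?_
      · refine h1.trans ?_
        rw [hB]
        have hA : kl ≤ max |(ν : ℝ) * l| (μ * ub / sl ^ 2) := by
          obtain ⟨-, -, -, -, -, -, h8, -⟩ := hT t0 ht0T
          refine le_max_of_le_left ?_
          have h9 : (ker t0.2.2.natAbs : ℝ) ≤ |(l : ℝ)| := by
            rw [← (hFm t0 ht0).2.1]
            push_cast
            rw [abs_mul, ← Int.cast_abs, Int.abs_sign_of_ne_zero (hT t0 ht0T).1.2.2.1]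
            simp
          rw [abs_mul, abs_of_pos (by linarith : (0 : ℝ) < ν)]
          nlinarith [abs_nonneg (l : ℝ)]
        have hs : √kl ≤ √(max |(ν : ℝ) * l| (μ * ub / sl ^ 2)) := Real.sqrt_le_sqrt hA
        have hsA : 0 < √kl := Real.sqrt_pos.2 hkl
        gcongr
      · intro t ht
        rw [mem_filter] at ht
        obtain ⟨g1, g2, g3⟩ := hFm t ht.1
        obtain ⟨⟨e1, e2, -⟩, -, -, -, e8, -, -, e9, -⟩ := hT t g1
        have hs0 : (0 : ℝ) < sr t.2.2.natAbs := by exact_mod_cast sr_pos _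
        have : (|(t.1 : ℝ)| / (sr t.2.2.natAbs : ℝ)) ^ 2 - (ν : ℝ) * l =
            μ * t.2.1 / (sr t.2.2.natAbs : ℝ) ^ 2 := by
          have h9 : ((t.1 : ℝ)) ^ 2 = μ * t.2.1 + ν * t.2.2 := by exact_mod_cast e1
          have h10 : (t.2.2 : ℝ) = l * (sr t.2.2.natAbs : ℝ) ^ 2 := by exact_mod_cast hv t ht.1
          rw [div_pow, sq_abs, h9]
          field_simp
          rw [h10]
          ring
        rw [this, abs_div, abs_mul, abs_of_pos hμR, abs_of_pos (by positivity : (0 : ℝ) < (sr t.2.2.natAbs : ℝ) ^ 2)]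
        have h10 : |(t.2.1 : ℝ)| ≤ ub := by
          rwa [Nat.cast_natAbs, Int.cast_abs] at e8
        gcongr
      · intro t ht t' ht' hne' hsgn
        rw [mem_filter] at ht ht'
        obtain ⟨g1, g2, g3⟩ := hFm t ht.1
        obtain ⟨g1', g2', g3'⟩ := hFm t' ht'.1
        obtain ⟨⟨e1, -⟩, ec, -, -, -, -, -, -, e9⟩ := hT t g1
        obtain ⟨⟨e1', -⟩, ec', -, -, -, -, -, -, e9'⟩ := hT t' g1'
        set s := sr t.2.2.natAbs with hs
        set s' := sr t'.2.2.natAbs with hs'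
        have hs0 : 0 < s := sr_pos _
        have hs0' : 0 < s' := sr_pos _
        have hsR : (0 : ℝ) < s := by exact_mod_cast hs0
        have hsR' : (0 : ℝ) < s' := by exact_mod_cast hs0'
        have hvt := hv t ht.1
        have hvt' := hv t' ht'.1
        have hcs : IsCoprime t.1 (s : ℤ) := by
          rw [hvt] at ec
          have := ec.of_mul_right_right
          rw [pow_two] at this
          exact this.of_mul_right_left
        have hcs' : IsCoprime t'.1 (s' : ℤ) := by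
          rw [hvt'] at ec'
          have := ec'.of_mul_right_right
          rw [pow_two] at this
          exact this.of_mul_right_left
        have hdne : t.1 * s' - t'.1 * s ≠ 0 := by
          intro h
          have h0 : t.1 * s' = t'.1 * s := sub_eq_zero.1 h
          have hd1 : (s : ℤ) ∣ s' := by
            have : (s : ℤ) ∣ t.1 * s' := by rw [h0]; exact dvd_mul_left _ _
            exact (hcs.symm).dvd_of_dvd_mul_left this
          have hd2 : (s' : ℤ) ∣ s := by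
            have : (s' : ℤ) ∣ t'.1 * s := by rw [← h0]; exact dvd_mul_left _ _
            exact (hcs'.symm).dvd_of_dvd_mul_left this
          have hss : s = s' := Nat.dvd_antisymm (Int.natCast_dvd_natCast.1 hd1)
            (Int.natCast_dvd_natCast.1 hd2)
          have hss0 : (s' : ℤ) ≠ 0 := by exact_mod_cast hs0'.ne'
          rw [hss] at h0
          have ha : t.1 = t'.1 := mul_right_cancel₀ hss0 h0
          have hvv : t.2.2 = t'.2.2 := by rw [hvt, hvt', ← hs, ← hs', hss]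
          apply hne'
          have hu : t.2.1 = t'.2.1 := by
            have : μ * t.2.1 = μ * t'.2.1 := by
              have h9 : t.1 ^ 2 = t'.1 ^ 2 := by rw [ha]
              rw [e1, e1', hvv] at h9
              linarith
            exact mul_left_cancel₀ hμ.ne' this
          exact Prod.ext ha (Prod.ext hu hvv)
        have hd : (w0 : ℤ) ∣ t.1 * s' - t'.1 * s := by
          rw [← ZMod.intCast_zmod_eq_zero_iff_dvd]
          push_cast
          have i1 := hinv t ht.1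
          have i2 := hinv t' ht'.1
          have j1 := ht.2
          have j2 := ht'.2
          rw [← hs] at i1
          rw [← hs'] at i2
          push_cast at i1 i2 j1 j2
          have k1 : (t.1 : ZMod w0) = ρ * s := by
            rw [← j1, mul_assoc, mul_comm ((s : ZMod w0)⁻¹), i1, mul_one]
          have k2 : (t'.1 : ZMod w0) = ρ * s' := by
            rw [← j2, mul_assoc, mul_comm ((s' : ZMod w0)⁻¹), i2, mul_one]
          rw [k1, k2]
          ring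
        have h3 : (w0 : ℤ) ≤ |t.1 * s' - t'.1 * s| :=
          Int.le_of_dvd (abs_pos.2 hdne) ((dvd_abs _ _).2 hd)
        have h4 : (w0 : ℝ) ≤ |(t.1 : ℝ) * s' - t'.1 * s| := by exact_mod_cast h3
        have h5 : |(|(t.1 : ℝ)| / (s : ℝ)) - (|(t'.1 : ℝ)| / (s' : ℝ))| =
            |(t.1 : ℝ) * s' - t'.1 * s| / ((s : ℝ) * s') := by
          rw [div_sub_div _ _ hsR.ne' hsR'.ne', abs_div, abs_of_pos (by positivity : (0 : ℝ) < (s : ℝ) * s')]
          congr 1
          by_cases hsg : 0 ≤ t.1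
          · have hsg' := hsgn.1 hsg
            have q1 : (0 : ℝ) ≤ t.1 := by exact_mod_cast hsg
            have q2 : (0 : ℝ) ≤ t'.1 := by exact_mod_cast hsg'
            rw [abs_of_nonneg q1, abs_of_nonneg q2, mul_comm (s : ℝ)]
          · have hsg' : ¬ 0 ≤ t'.1 := fun h => hsg (hsgn.2 h)
            have q1 : (t.1 : ℝ) ≤ 0 := by exact_mod_cast (not_le.1 hsg).le
            have q2 : (t'.1 : ℝ) ≤ 0 := by exact_mod_cast (not_le.1 hsg').le
            rw [abs_of_nonpos q1, abs_of_nonpos q2, ← abs_neg]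
            congr 1
            ring
        rw [h5, div_le_div_iff₀ (by positivity) (by positivity)]
        have h6 : (s : ℝ) * s' ≤ (lam * sl) ^ 2 := by
          rw [pow_two]
          gcongr
        have h7 : wl ≤ |(t.1 : ℝ) * s' - t'.1 * s| := by linarith
        gcongr
    have h7 := card_le_mul_card_image_real F
      (fun t => (t.1 : ZMod w0) * ((sr t.2.2.natAbs : ℤ) : ZMod w0)⁻¹) B hfib
    calc (F.card : ℝ) ≤ B * ((F.image (fun t => (t.1 : ZMod w0) *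
          ((sr t.2.2.natAbs : ℤ) : ZMod w0)⁻¹)).card : ℝ) := h7
      _ ≤ B * (C2 * (M : ℝ) ^ (ε / 2)) := by gcongr
      _ = _ := by ring

end Pool.Agent.T2h82
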