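import Mathlib

/-!
# Separated sets and fibres
-/

set_option autoImplicit false

namespace Pool.Agent.T2h82

open Finset

/-- a set of real numbers in an interval of length `L` with gaps at least `g` -/
theorem card_sep (F : Finset ℝ) (g L x : ℝ) (hg : 0 < g) (hL : 0 ≤ L)
    (h : ∀ y ∈ F, x ≤ y ∧ y ≤ x + L) (hsep : ∀ y ∈ F, ∀ z ∈ F, y ≠ z → g ≤ |y - z|) :
    (F.card : ℝ) ≤ L / g + 1 := by
  have h0 : 0 ≤ L / g := by positivity
  have hcard : F.card ≤ (range (⌊L / g⌋₊ + 1)).card := by
    refine card_le_card_of_injOn (fun y => ⌊(y - x) / g⌋₊) (fun y hy => ?_) (fun y hy z hz hyz => ?_)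
    · rw [mem_coe, mem_range, Nat.lt_succ_iff]
      refine Nat.floor_le_floor ?_
      have := h y hy
      gcongr
      linarith [this.2]
    · by_contra hne
      have h1 := hsep y hy z hz hne
      have hy1 := (h y hy).1
      have hz1 := (h z hz).1
      have ey : 0 ≤ (y - x) / g := by
        have : 0 ≤ y - x := by linarith
        positivity
      have ez : 0 ≤ (z - x) / g := by
        have : 0 ≤ z - x := by linarith
        positivity
      have e1 := Nat.floor_le ey
      have e2 := Nat.lt_floor_add_one ((y - x) / g)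
      have e3 := Nat.floor_le ez
      have e4 := Nat.lt_floor_add_one ((z - x) / g)
      simp only at hyz
      rw [hyz] at e1 e2
      have h5 : |(y - x) / g - (z - x) / g| < 1 := by
        rw [abs_lt]
        constructor <;> linarith
      have h6 : (y - x) / g - (z - x) / g = (y - z) / g := by ring
      rw [h6, abs_div, abs_of_pos hg, div_lt_one hg] at h5
      linarith
  rw [card_range] at hcard
  calc (F.card : ℝ) ≤ ((⌊L / g⌋₊ + 1 : ℕ) : ℝ) := by exact_mod_cast hcard
    _ ≤ L / g + 1 := by
      push_cast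
      linarith [Nat.floor_le h0]

/-- the interval containing `|x|` if `x ^ 2 = c + e` with `|e| ≤ M`, `|c| ≥ k` -/
theorem sqrt_window {k M : ℝ} (hk : 0 < k) (hM : 0 ≤ M) (c : ℝ) (hc : k ≤ |c|) :
    ∃ x0 : ℝ, ∀ x : ℝ, 0 ≤ x → |x ^ 2 - c| ≤ M → x0 ≤ x ∧ x ≤ x0 + 2 * M / √k := by
  have hsk : 0 < √k := Real.sqrt_pos.2 hk
  rcases le_total 0 c with h0 | h0
  · rw [abs_of_nonneg h0] at hc
    have hsc : √k ≤ √c := Real.sqrt_le_sqrt hc
    refine ⟨√c - M / √k, fun x hx h => ?_⟩
    have h1 : |x - √c| * (x + √c) ≤ M := by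
      rw [← abs_of_nonneg (by positivity : 0 ≤ x + √c), ← abs_mul]
      have : (x - √c) * (x + √c) = x ^ 2 - c := by
        have := Real.sq_sqrt h0
        nlinarith
      rwa [this]
    have h2 : |x - √c| * √k ≤ M := by
      refine le_trans ?_ h1
      gcongr
      linarith
    have h3 : |x - √c| ≤ M / √k := by rwa [le_div_iff₀ hsk]
    rw [abs_le] at h3
    have h4 : 2 * M / √k = M / √k + M / √k := by ring
    constructor
    · linarith [h3.1]
    · rw [h4]; linarith [h3.2]
  · rw [abs_of_nonpos h0] at hc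
    refine ⟨0, fun x hx h => ⟨hx, ?_⟩⟩
    rw [abs_of_nonneg (by nlinarith)] at h
    have h1 : x ^ 2 ≤ M := by linarith
    have h2 : k ≤ M := by nlinarith
    rw [zero_add]
    have hM0 : 0 < M := by linarith
    have h3 : x ≤ √M := Real.le_sqrt_of_sq_le h1
    have h4 : √M ≤ M / √k := by
      rw [le_div_iff₀ hsk]
      calc √M * √k ≤ √M * √M := by gcongr
        _ = M := Real.mul_self_sqrt hM
    have h5 : M / √k ≤ 2 * M / √k := by
      gcongr
      linarith
    linarith

end Pool.Agent.T2h82
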