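import Pool.Agent.T2h82.Par
import Pool.Agent.T2h82.Sep
import Pool.Agent.H328R2.ABC.Roots

/-!
# Counting the solutions of `a ^ 2 = μ u + ν v` by the powerful part of `u` and by `v`
-/

set_option autoImplicit false

namespace Pool.Agent.T2h82

open Finset
open Pool.Agent.H328R2.ABC (rad rad_pos sum_inv_rad roots)

theorem window (c M : ℝ) (hM : 0 < M) :
    ∃ x0 : ℝ, ∀ x : ℝ, 0 ≤ x → |x ^ 2 - c| ≤ M → x0 ≤ x ∧ x ≤ x0 + 2 * M / √(max |c| M) := by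
  have hk : 0 < max |c| M := lt_max_of_lt_right hM
  rcases le_total M |c| with h | h
  · rw [max_eq_left h]
    exact sqrt_window (lt_of_lt_of_le hM h) hM.le c le_rfl
  · rw [max_eq_right h]
    refine ⟨0, fun x hx hxc => ⟨hx, ?_⟩⟩
    rw [zero_add]
    have h1 : x ^ 2 ≤ 2 * M := by
      have h3 := (abs_le.1 hxc).2
      have h4 := le_abs_self c
      linarith
    have h2 : 2 * M / √M = 2 * √M := by
      rw [div_eq_iff (Real.sqrt_pos.2 hM).ne', mul_assoc, Real.mul_self_sqrt hM.le]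
    rw [h2]
    refine le_of_sq_le_sq' ?_ (by positivity)
    rw [mul_pow, Real.sq_sqrt hM.le]
    linarith
where
  le_of_sq_le_sq' {a b : ℝ} (h : a ^ 2 ≤ b ^ 2) (hb : 0 ≤ b) : a ≤ b :=
    le_of_not_gt (fun hlt => absurd h (not_le.2 (by nlinarith)))

theorem card_rad_le (ε : ℝ) (hε : 0 < ε) : ∃ C : ℝ, 0 < C ∧ ∀ M : ℕ, 1 ≤ M → ∀ Y : ℝ, 0 ≤ Y →
    (((Icc 1 M).filter (fun m => (rad m : ℝ) ≤ Y)).card : ℝ) ≤ C * Y * (M : ℝ) ^ ε := by
  obtain ⟨C, hC, h⟩ := sum_inv_rad ε hε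
  refine ⟨C, hC, fun M hM Y hY => ?_⟩
  have h1 : (((Icc 1 M).filter (fun m => (rad m : ℝ) ≤ Y)).card : ℝ) =
      ∑ m ∈ (Icc 1 M).filter (fun m => (rad m : ℝ) ≤ Y), (1 : ℝ) := by simp
  calc (((Icc 1 M).filter (fun m => (rad m : ℝ) ≤ Y)).card : ℝ)
      = ∑ m ∈ (Icc 1 M).filter (fun m => (rad m : ℝ) ≤ Y), (1 : ℝ) := h1
    _ ≤ ∑ m ∈ (Icc 1 M).filter (fun m => (rad m : ℝ) ≤ Y), Y * (1 / (rad m : ℝ)) := by
        apply sum_le_sum
        intro m hm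
        rw [mem_filter] at hm
        have : (0 : ℝ) < rad m := by exact_mod_cast rad_pos m
        rw [mul_one_div, le_div_iff₀ this]
        linarith [hm.2]
    _ ≤ ∑ m ∈ Icc 1 M, Y * (1 / (rad m : ℝ)) := by
        apply sum_le_sum_of_subset_of_nonneg (filter_subset _ _)
        intro m _ _
        positivity
    _ = Y * ∑ m ∈ Icc 1 M, (1 / (rad m : ℝ)) := by rw [mul_sum]
    _ ≤ Y * (C * (M : ℝ) ^ ε) := by gcongr; exact h M hM
    _ = _ := by ring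

theorem count_two {τ : Type} [DecidableEq τ] (T : Finset τ) (lab : τ → ℤ) (w : τ → ℕ)
    (Lb : Finset ℤ) (Wb : Finset ℕ) (B : ℝ) (h1 : ∀ t ∈ T, lab t ∈ Lb)
    (h2 : ∀ t ∈ T, w t ∈ Wb)
    (h3 : ∀ l ∈ Lb, ∀ w0 ∈ Wb, ((T.filter (fun t => lab t = l ∧ w t = w0)).card : ℝ) ≤ B) :
    (T.card : ℝ) ≤ Lb.card * Wb.card * B := by
  have h : T.card = ∑ k ∈ Lb ×ˢ Wb, (T.filter (fun t => (lab t, w t) = k)).card :=
    card_eq_sum_card_fiberwise (fun t ht => by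
      rw [mem_coe, mem_product]
      exact ⟨h1 t ht, h2 t ht⟩)
  rw [h]
  push_cast
  calc ∑ k ∈ Lb ×ˢ Wb, ((T.filter (fun t => (lab t, w t) = k)).card : ℝ)
      ≤ ∑ k ∈ Lb ×ˢ Wb, B := by
        refine sum_le_sum (fun k hk => ?_)
        rw [mem_product] at hk
        have := h3 k.1 hk.1 k.2 hk.2
        have e : T.filter (fun t => (lab t, w t) = k) = T.filter (fun t => lab t = k.1 ∧ w t = k.2) := by
          refine filter_congr (fun t _ => ?_)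
          rw [Prod.ext_iff]
        rw [e]
        exact this
    _ = _ := by
        rw [sum_const, card_product, nsmul_eq_mul]
        push_cast
        ring

/-- the fibre bound -/
theorem fib (G : Finset (ℤ × ℤ × ℤ)) (s : ℤ × ℤ × ℤ → ℝ) (c M g : ℝ) (hM : 0 < M) (hg : 0 < g)
    (hs : ∀ t ∈ G, 0 < s t) (hw : ∀ t ∈ G, |(|(t.1 : ℝ)| / s t) ^ 2 - c| ≤ M)
    (hsep : ∀ t ∈ G, ∀ t' ∈ G, t ≠ t' → (0 ≤ t.1 ↔ 0 ≤ t'.1) →
      g ≤ |(|(t.1 : ℝ)| / s t) - (|(t'.1 : ℝ)| / s t')|) :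
    (G.card : ℝ) ≤ 2 * ((2 * M / √(max |c| M)) / g + 1) := by
  classical
  obtain ⟨x0, hx0⟩ := window c M hM
  have key : ∀ (P : ℤ × ℤ × ℤ → Prop) [DecidablePred P],
      (∀ t t', P t → P t' → (0 ≤ t.1 ↔ 0 ≤ t'.1)) →
      ((G.filter P).card : ℝ) ≤ (2 * M / √(max |c| M)) / g + 1 := by
    intro P _ hP
    have hinj : Set.InjOn (fun t : ℤ × ℤ × ℤ => |(t.1 : ℝ)| / s t) (G.filter P : Finset _) := by
      intro t ht t' ht' h
      by_contra hne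
      rw [mem_coe, mem_filter] at ht ht'
      have := hsep t ht.1 t' ht'.1 hne (hP t t' ht.2 ht'.2)
      simp only at h
      rw [h, sub_self, abs_zero] at this
      linarith
    rw [← card_image_of_injOn hinj]
    refine card_sep _ g _ x0 hg (by positivity) (fun y hy => ?_) (fun y hy z hz hyz => ?_)
    · obtain ⟨t, ht, rfl⟩ := mem_image.1 hy
      rw [mem_filter] at ht
      refine hx0 _ ?_ (hw t ht.1)
      have := hs t ht.1
      positivity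
    · obtain ⟨t, ht, rfl⟩ := mem_image.1 hy
      obtain ⟨t', ht', rfl⟩ := mem_image.1 hz
      rw [mem_filter] at ht ht'
      exact hsep t ht.1 t' ht'.1 (fun h => hyz (by rw [h])) (hP t t' ht.2 ht'.2)
  have h1 := key (fun t => 0 ≤ t.1) (fun t t' h h' => ⟨fun _ => h', fun _ => h⟩)
  have h2 := key (fun t => ¬ 0 ≤ t.1) (fun t t' h h' => ⟨fun hh => absurd hh h, fun hh => absurd hh h'⟩)
  have h3 := card_filter_add_card_filter_not (s := G) (fun t : ℤ × ℤ × ℤ => 0 ≤ t.1)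
  have h4 : (G.card : ℝ) = (G.filter (fun t => 0 ≤ t.1)).card + (G.filter (fun t => ¬ 0 ≤ t.1)).card := by
    exact_mod_cast h3.symm
  rw [h4]
  linarith

/-- the equation, with the coprimality used -/
def Sol (μ ν : ℤ) (M : ℕ) (t : ℤ × ℤ × ℤ) : Prop :=
  t.1 ^ 2 = μ * t.2.1 + ν * t.2.2 ∧ t.2.1 ≠ 0 ∧ t.2.2 ≠ 0 ∧
    IsCoprime (ν * t.2.2) (pw t.2.1.natAbs : ℤ) ∧ t.2.1.natAbs ≤ M ∧ t.2.2.natAbs ≤ M

theorem modEq_sq_unit {w : ℕ} {c a : ℤ} (h : ((w : ℤ)) ∣ a ^ 2 - c) :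
    ((a : ZMod w)) ^ 2 = (c : ZMod w) := by
  have h1 : ((a ^ 2 - c : ℤ) : ZMod w) = 0 := (ZMod.intCast_zmod_eq_zero_iff_dvd _ _).2 h
  push_cast at h1
  exact sub_eq_zero.1 h1

theorem unit_of_cop {w : ℕ} {c : ℤ} (h : IsCoprime c (w : ℤ)) : IsUnit (c : ZMod w) := by
  obtain ⟨x, y, hxy⟩ := h
  refine IsUnit.of_mul_eq_one (x : ZMod w) ?_
  have h1 : ((x * c + y * (w : ℤ) : ℤ) : ZMod w) = 1 := by rw [hxy]; simp
  push_cast at h1
  rw [ZMod.natCast_self, mul_zero, add_zero] at h1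
  rw [mul_comm]
  exact h1

/-- the number of values of a map into the square roots of a unit -/
theorem card_image_roots {τ : Type} (ε : ℝ) (hε : 0 < ε) : ∃ C : ℝ, 0 < C ∧ ∀ (M w : ℕ), 1 ≤ w →
    w ≤ M → ∀ u : ZMod w, IsUnit u → ∀ (F : Finset τ) (f : τ → ZMod w) [DecidableEq (ZMod w)],
      (∀ t ∈ F, f t ^ 2 = u) → ((F.image f).card : ℝ) ≤ C * (M : ℝ) ^ ε := by
  obtain ⟨C, hC, h⟩ := roots 2 (by norm_num) ε hε
  refine ⟨C, hC, fun M w hw hM u hu F f _ hF => ?_⟩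
  have : NeZero w := ⟨by omega⟩
  refine le_trans ?_ ((h w hw u hu).trans ?_)
  · have h1 : ((F.image f : Finset (ZMod w)) : Set (ZMod w)) ⊆ {t : ZMod w | t ^ 2 = u} := by
      intro x hx
      rw [coe_image] at hx
      obtain ⟨t, ht, rfl⟩ := hx
      exact hF t ht
    have h2 := Set.ncard_le_ncard h1 (Set.toFinite _)
    rw [Set.ncard_coe_finset] at h2
    exact_mod_cast h2
  · have : (w : ℝ) ≤ M := by exact_mod_cast hM
    gcongr

end Pool.Agent.T2h82
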