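import Mathlib

/-!
# The linear inequalities between the exponents
-/

set_option autoImplicit false

namespace Pool.Agent.T2h82

/-- one of the four bounds is good -/
theorem lp {η η0 δ b1 kb rb hb d1 kd rd hd : ℝ} (hη : 0 < η) (h20 : 20 * η ≤ η0)
    (h20' : 20 * η ≤ δ) (hn : rb + rd ≤ 1) (hb3 : 2 * rb + kb ≤ hb + 2 * b1 + 3 * η)
    (hd3 : 2 * rd + kd ≤ hd + 2 * d1 + 3 * η) (hkb : kb ≤ rb) (hkd : kd ≤ rd)
    (hbδ : hb ≤ 1 - 2 * δ) (hdδ : hd ≤ 1 - 2 * δ) (hm : 1 / 2 + 2 * η0 ≤ max hb hd + η) :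
    (rd + rb - b1 + 3 * η + max 0 (b1 - max hb hd / 2 + 2 * η) ≤ 3 / 4 - η) ∨
    (rb + rd - d1 + 3 * η + max 0 (d1 - max hb hd / 2 + 2 * η) ≤ 3 / 4 - η) ∨
    (kd + rb - b1 + 3 * η + max 0 (b1 - kd / 2 + 4 * η) ≤ 3 / 4 - η) ∨
    (kb + rd - d1 + 3 * η + max 0 (d1 - kb / 2 + 4 * η) ≤ 3 / 4 - η) := by
  by_contra hcon
  push Not at hcon
  obtain ⟨c1, c2, c3, c4⟩ := hcon
  set m := max hb hd with hmd
  have e1 : b1 < rb + rd - 3 / 4 + 4 * η := by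
    rcases max_cases 0 (b1 - m / 2 + 2 * η) with ⟨h, -⟩ | ⟨h, -⟩ <;> rw [h] at c1 <;> linarith
  have e2 : d1 < rb + rd - 3 / 4 + 4 * η := by
    rcases max_cases 0 (d1 - m / 2 + 2 * η) with ⟨h, -⟩ | ⟨h, -⟩ <;> rw [h] at c2 <;> linarith
  rcases max_cases 0 (b1 - kd / 2 + 4 * η) with ⟨h, -⟩ | ⟨h, -⟩ <;> rw [h] at c3 <;>
  rcases max_cases 0 (d1 - kb / 2 + 4 * η) with ⟨h', -⟩ | ⟨h', -⟩ <;> rw [h'] at c4 <;> linarith

/-- the index of a positive number in the grid -/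
noncomputable def gi (η X t : ℝ) : ℕ := ⌊Real.log t / (η * Real.log X)⌋₊

theorem gi_spec {η X t : ℝ} (hη : 0 < η) (hX : 1 < X) (ht : 1 ≤ t) :
    X ^ ((gi η X t : ℝ) * η) ≤ t ∧ t ≤ X ^ ((gi η X t : ℝ) * η + η) := by
  have hl : 0 < Real.log X := Real.log_pos hX
  have hlt : 0 ≤ Real.log t := Real.log_nonneg ht
  have hd : 0 < η * Real.log X := by positivity
  have h1 := Nat.floor_le (div_nonneg hlt hd.le)
  have h2 := (Nat.lt_floor_add_one (Real.log t / (η * Real.log X))).le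
  change ((gi η X t : ℕ) : ℝ) ≤ _ at h1
  change _ ≤ ((gi η X t : ℕ) : ℝ) + 1 at h2
  rw [le_div_iff₀ hd] at h1
  rw [div_le_iff₀ hd] at h2
  have ht0 : 0 < t := by linarith
  have hX0 : 0 < X := by linarith
  constructor
  · rw [← Real.log_le_log_iff (by positivity) ht0, Real.log_rpow hX0]
    linarith
  · rw [← Real.log_le_log_iff ht0 (by positivity), Real.log_rpow hX0]
    nlinarith

theorem gi_mono {η X t t' : ℝ} (hη : 0 < η) (hX : 1 < X) (ht : 1 ≤ t) (h : t ≤ t') :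
    gi η X t ≤ gi η X t' := by
  unfold gi
  refine Nat.floor_le_floor ?_
  have hl : 0 < Real.log X := Real.log_pos hX
  gcongr

theorem gi_le {η X t : ℝ} (hη : 0 < η) (hX : 1 < X) (ht : 1 ≤ t) (h : t ≤ X) :
    gi η X t < ⌊1 / η⌋₊ + 1 := by
  rw [Nat.lt_succ_iff]
  unfold gi
  refine Nat.floor_le_floor ?_
  have hl : 0 < Real.log X := Real.log_pos hX
  have h1 : Real.log t ≤ Real.log X := Real.log_le_log (by linarith) h
  rw [div_le_div_iff₀ (by positivity) hη]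
  nlinarith

/-- comparison of exponents -/
theorem exp_le {X x y : ℝ} (hX : 1 < X) (h : X ^ x ≤ X ^ y) : x ≤ y :=
  (Real.rpow_le_rpow_left_iff hX).1 h

end Pool.Agent.T2h82
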