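import Pool.Agent.T2h82.Par

/-!
# A convergent sum over the powerful numbers
-/

set_option autoImplicit false

namespace Pool.Agent.T2h82

open Finset
open Pool.Agent.H328R2.ABC (rad rad_pos)
open Pool.Agent.H328R2.ABC.RadSumAux (rad_mul_cop rad_pp)

/-- `n` is powerful: no prime has exponent one -/
def Pful (n : ℕ) : Prop := ∀ p, n.factorization p ≠ 1

open Classical in
/-- the weight `n ^ (s - 1) * rad n ^ (-s)` on the powerful numbers -/
noncomputable def gp (s : ℝ) (n : ℕ) : ℝ :=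
  if Pful n then (n : ℝ) ^ (s - 1) * (rad n : ℝ) ^ (-s) else 0

theorem pful_pw {n : ℕ} (hn : n ≠ 0) : Pful (pw n) := by
  intro p hp
  have h1 : p ∈ (pw n).primeFactors := by
    rw [← Nat.support_factorization, Finsupp.mem_support_iff, hp]
    exact one_ne_zero
  have h2 := h1
  rw [pw_primeFactors, mem_filter] at h2
  have hpp := Nat.prime_of_mem_primeFactors h1
  have h3 : (s1 n).factorization p = 0 := by
    rw [Nat.factorization_eq_zero_iff]
    right
    left
    intro hd
    unfold s1 at hd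
    rw [Prime.dvd_finsetProd_iff hpp.prime] at hd
    obtain ⟨q, hq, hpq⟩ := hd
    rw [mem_filter] at hq
    have : p = q := (Nat.prime_dvd_prime_iff_eq hpp (Nat.prime_of_mem_primeFactors hq.1)).1 hpq
    rw [← this] at hq
    exact h2.2 hq.2
  have h4 : n.factorization p = (s1 n).factorization p + (pw n).factorization p := by
    conv_lhs => rw [← s1_mul_pw hn]
    rw [Nat.factorization_mul (s1_pos n).ne' (pw_pos n).ne', Finsupp.add_apply]
  rw [h3, hp] at h4
  exact h2.2 (by omega)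

theorem gp_nonneg (s : ℝ) (n : ℕ) : 0 ≤ gp s n := by
  unfold gp
  split_ifs
  · positivity
  · exact le_refl _

theorem gp_one (s : ℝ) : gp s 1 = 1 := by
  unfold gp
  rw [if_pos (by intro p; simp)]
  simp [rad]

theorem pful_mul {m n : ℕ} (h : Nat.Coprime m n) : Pful (m * n) ↔ Pful m ∧ Pful n := by
  unfold Pful
  constructor
  · intro H
    constructor
    · intro p hp
      have h1 : p ∣ m := Nat.dvd_of_factorization_pos (by rw [hp]; exact one_ne_zero)
      have h2 : n.factorization p = 0 := by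
        rw [Nat.factorization_eq_zero_iff]
        by_contra hc
        push Not at hc
        have := Nat.Prime.one_lt hc.1
        have h3 := Nat.dvd_gcd h1 hc.2.1
        rw [h] at h3
        have := Nat.le_of_dvd one_pos h3
        omega
      refine H p ?_
      rw [Nat.factorization_mul_of_coprime h, Finsupp.add_apply, hp, h2]
    · intro p hp
      have h1 : p ∣ n := Nat.dvd_of_factorization_pos (by rw [hp]; exact one_ne_zero)
      have h2 : m.factorization p = 0 := by
        rw [Nat.factorization_eq_zero_iff]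
        by_contra hc
        push Not at hc
        have := Nat.Prime.one_lt hc.1
        have h3 := Nat.dvd_gcd hc.2.1 h1
        rw [h] at h3
        have := Nat.le_of_dvd one_pos h3
        omega
      refine H p ?_
      rw [Nat.factorization_mul_of_coprime h, Finsupp.add_apply, hp, h2]
  · rintro ⟨hm, hn⟩ p hp
    rw [Nat.factorization_mul_of_coprime h, Finsupp.add_apply] at hp
    have := hm p
    have := hn p
    have h3 : (m.factorization p = 0 ∧ n.factorization p = 1) ∨
      (m.factorization p = 1 ∧ n.factorization p = 0) := by omega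
    omega

theorem gp_mul (s : ℝ) {m n : ℕ} (h : Nat.Coprime m n) : gp s (m * n) = gp s m * gp s n := by
  unfold gp
  by_cases hm : Pful m
  · by_cases hn : Pful n
    · rw [if_pos ((pful_mul h).2 ⟨hm, hn⟩), if_pos hm, if_pos hn, rad_mul_cop h]
      push_cast
      rw [Real.mul_rpow (by positivity) (by positivity),
        Real.mul_rpow (by positivity) (by positivity)]
      ring
    · rw [if_neg (fun H => hn ((pful_mul h).1 H).2), if_neg hn, mul_zero]
  · rw [if_neg (fun H => hm ((pful_mul h).1 H).1), if_neg hm, zero_mul]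

theorem gp_pp (s : ℝ) {p : ℕ} (hp : p.Prime) (k : ℕ) :
    gp s (p ^ k) = (p : ℝ) ^ (-s) * ((p : ℝ) ^ (s - 1)) ^ k +
      ((if k = 0 then 1 - (p : ℝ) ^ (-s) else 0) +
      (if k = 1 then - ((p : ℝ) ^ (-s) * (p : ℝ) ^ (s - 1)) else 0)) := by
  have hp0 : (0 : ℝ) < p := by exact_mod_cast hp.pos
  rcases Nat.eq_zero_or_pos k with h | h
  · subst h
    simp [gp_one]
  · rcases Nat.lt_or_ge 1 k with h2 | h2
    · rw [if_neg (by omega), if_neg (by omega)]
      unfold gp
      rw [if_pos, rad_pp hp (by omega)]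
      · push_cast
        rw [← Real.rpow_natCast ((p : ℝ) ^ (s - 1)) k, ← Real.rpow_natCast (p : ℝ) k,
          ← Real.rpow_mul hp0.le, ← Real.rpow_mul hp0.le, mul_comm (k : ℝ) (s - 1)]
        ring
      · intro q
        rw [hp.factorization_pow]
        rcases eq_or_ne q p with h3 | h3
        · rw [h3]
          simp
          omega
        · rw [Finsupp.single_apply, if_neg h3.symm]
          exact zero_ne_one
    · have h3 : k = 1 := by omega
      subst h3
      rw [if_neg one_ne_zero, if_pos rfl, pow_one, pow_one]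
      unfold gp
      rw [if_neg]
      · ring
      · intro H
        apply H p
        rw [hp.factorization_self]

theorem hasSum_gp (s : ℝ) (hs : s < 1) {p : ℕ} (hp : p.Prime) :
    HasSum (fun k : ℕ => gp s (p ^ k))
      ((p : ℝ) ^ (-s) * (1 - (p : ℝ) ^ (s - 1))⁻¹ + ((1 - (p : ℝ) ^ (-s)) +
        (- ((p : ℝ) ^ (-s) * (p : ℝ) ^ (s - 1))))) := by
  have hx0 : 0 ≤ (p : ℝ) ^ (s - 1) := by positivity
  have hp1 : (1 : ℝ) < p := by exact_mod_cast hp.one_lt
  have hx1 : (p : ℝ) ^ (s - 1) < 1 := Real.rpow_lt_one_of_one_lt_of_neg hp1 (by linarith)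
  have h1 := (hasSum_geometric_of_lt_one hx0 hx1).mul_left ((p : ℝ) ^ (-s))
  have h2 : HasSum (fun k : ℕ => if k = 0 then 1 - (p : ℝ) ^ (-s) else 0)
      (1 - (p : ℝ) ^ (-s)) := by
    have := hasSum_ite_eq (0 : ℕ) (1 - (p : ℝ) ^ (-s))
    simpa using this
  have h2' : HasSum (fun k : ℕ => if k = 1 then - ((p : ℝ) ^ (-s) * (p : ℝ) ^ (s - 1)) else 0)
      (- ((p : ℝ) ^ (-s) * (p : ℝ) ^ (s - 1))) := by
    have := hasSum_ite_eq (1 : ℕ) (- ((p : ℝ) ^ (-s) * (p : ℝ) ^ (s - 1)))
    simpa using this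
  have h3 := h1.add (h2.add h2')
  refine h3.congr_fun ?_
  intro k
  exact gp_pp s hp k

theorem local_gp (s : ℝ) (hs : s < 1) {p : ℕ} (hp : p.Prime) :
    ∑' k : ℕ, gp s (p ^ k) ≤
      Real.exp ((1 - (2 : ℝ) ^ (s - 1))⁻¹ * (p : ℝ) ^ (-(2 - s))) := by
  rw [(hasSum_gp s hs hp).tsum_eq]
  have hp2 : (2 : ℝ) ≤ p := by exact_mod_cast hp.two_le
  have hp0 : (0 : ℝ) < p := by linarith
  have hp1 : (1 : ℝ) < p := by linarith
  have hx0 : 0 < (p : ℝ) ^ (s - 1) := by positivity
  have hy1 : (2 : ℝ) ^ (s - 1) < 1 := Real.rpow_lt_one_of_one_lt_of_neg (by norm_num) (by linarith)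
  have hxy : (p : ℝ) ^ (s - 1) ≤ (2 : ℝ) ^ (s - 1) :=
    Real.rpow_le_rpow_of_nonpos (by norm_num) hp2 (by linarith)
  have hsplit : (p : ℝ) ^ (-(2 - s)) = (p : ℝ) ^ (-s) * ((p : ℝ) ^ (s - 1)) ^ 2 := by
    rw [← Real.rpow_natCast ((p : ℝ) ^ (s - 1)) 2, ← Real.rpow_mul hp0.le, ← Real.rpow_add hp0]
    congr 1
    push_cast
    ring
  rw [hsplit]
  set x := (p : ℝ) ^ (s - 1) with hx
  set y := (2 : ℝ) ^ (s - 1) with hy
  set u := (p : ℝ) ^ (-s) with hu
  have hu0 : 0 < u := by positivity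
  have h1 : (1 - x)⁻¹ ≤ (1 - y)⁻¹ := inv_anti₀ (by linarith) (by linarith)
  have h2 : u * (1 - x)⁻¹ + (1 - u + -(u * x)) = 1 + u * (x ^ 2 * (1 - x)⁻¹) := by
    have : (1 - x) ≠ 0 := by linarith
    field_simp
    ring
  rw [h2]
  have h3 : 1 + u * (x ^ 2 * (1 - x)⁻¹) ≤ 1 + (1 - y)⁻¹ * (u * x ^ 2) := by
    have h4 : u * (x ^ 2 * (1 - x)⁻¹) ≤ u * (x ^ 2 * (1 - y)⁻¹) := by gcongr
    linarith
  refine h3.trans ?_
  rw [add_comm]
  exact Real.add_one_le_exp _

/-- the sum of `n ^ (s - 1) * rad n ^ (-s)` over the powerful numbers converges for `s < 1` -/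
theorem sum_gp (s : ℝ) (hs : s < 1) :
    ∃ C : ℝ, 0 < C ∧ ∀ P : Finset ℕ, (∀ n ∈ P, n ≠ 0) → ∑ n ∈ P, gp s n ≤ C := by
  have hsum : Summable (fun n : ℕ => (n : ℝ) ^ (-(2 - s))) :=
    Real.summable_nat_rpow.2 (by linarith)
  have hy1 : (2 : ℝ) ^ (s - 1) < 1 := Real.rpow_lt_one_of_one_lt_of_neg (by norm_num) (by linarith)
  have hy2 : 0 ≤ (1 - (2 : ℝ) ^ (s - 1))⁻¹ := inv_nonneg.2 (by linarith)
  refine ⟨Real.exp ((1 - (2 : ℝ) ^ (s - 1))⁻¹ * ∑' n : ℕ, (n : ℝ) ^ (-(2 - s))),
    Real.exp_pos _, ?_⟩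
  intro P hP
  set X : ℕ := P.sup id with hX
  have h1 := (EulerProduct.summable_and_hasSum_smoothNumbers_prod_primesBelow_tsum
    (f := gp s) (gp_one s) (fun h => gp_mul s h) (by
      intro p hp
      have := (hasSum_gp s hs hp).summable
      simpa [Real.norm_of_nonneg (gp_nonneg s _)] using this) (X + 1)).2
  have h2 : HasSum ((Nat.smoothNumbers (X + 1)).indicator (gp s))
      (∏ p ∈ (X + 1).primesBelow, ∑' n : ℕ, gp s (p ^ n)) := by
    rw [← hasSum_subtype_iff_indicator]
    exact h1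
  have h3 := sum_le_hasSum P (fun n _ => by
    apply Set.indicator_nonneg
    intro n _
    exact gp_nonneg s n) h2
  have h4 : ∀ V ∈ P, gp s V ≤ (Nat.smoothNumbers (X + 1)).indicator (gp s) V := by
    intro V hV
    have hV0 := hP V hV
    have hVX : V ≤ X := Finset.le_sup (f := id) hV
    have hmem : V ∈ Nat.smoothNumbers (X + 1) := by
      rw [Nat.mem_smoothNumbers']
      intro p _ hpV
      have := Nat.le_of_dvd (by omega) hpV
      omega
    rw [Set.indicator_of_mem hmem]
  have h5 : ∏ p ∈ (X + 1).primesBelow, ∑' n : ℕ, gp s (p ^ n) ≤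
      Real.exp ((1 - (2 : ℝ) ^ (s - 1))⁻¹ * ∑' n : ℕ, (n : ℝ) ^ (-(2 - s))) := by
    calc ∏ p ∈ (X + 1).primesBelow, ∑' n : ℕ, gp s (p ^ n)
        ≤ ∏ p ∈ (X + 1).primesBelow,
            Real.exp ((1 - (2 : ℝ) ^ (s - 1))⁻¹ * (p : ℝ) ^ (-(2 - s))) := by
          apply Finset.prod_le_prod
          · intro p _
            exact tsum_nonneg fun n => gp_nonneg s _
          · intro p hp
            exact local_gp s hs (Nat.prime_of_mem_primesBelow hp)
      _ = Real.exp (∑ p ∈ (X + 1).primesBelow,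
            (1 - (2 : ℝ) ^ (s - 1))⁻¹ * (p : ℝ) ^ (-(2 - s))) := by
          rw [Real.exp_sum]
      _ ≤ _ := by
          apply Real.exp_le_exp.2
          rw [← Finset.mul_sum]
          apply mul_le_mul_of_nonneg_left _ hy2
          exact hsum.sum_le_tsum _ (fun n _ => by positivity)
  exact (sum_le_sum h4).trans (h3.trans h5)

end Pool.Agent.T2h82
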