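import Pool.Agent.T2h82.Rankin

/-!
# The elementary counts of pairs
-/

set_option autoImplicit false

namespace Pool.Agent.T2h82

open Finset
open Pool.Agent.H328R2.ABC (rad rad_pos prod_pow_fact fact_pos)

theorem pw_le_sr (n : ℕ) : pw n ≤ sr n ^ 3 := by
  unfold pw sr
  rw [← prod_pow, prod_filter]
  refine prod_le_prod' (fun p hp => ?_)
  have hp0 := (Nat.prime_of_mem_primeFactors hp).pos
  split_ifs with h
  · exact Nat.one_le_pow _ _ (pow_pos hp0 _)
  · rw [← pow_mul]
    refine Nat.pow_le_pow_right hp0 ?_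
    have := fact_pos hp
    omega

/-- few integers have a large square divisor -/
theorem card_sr (M : ℕ) (D : ℝ) (hD : 0 < D) :
    (((Icc 1 M).filter (fun v => D < (sr v : ℝ))).card : ℝ) ≤ 2 * M / D := by
  classical
  set k := ⌊D⌋₊ with hk
  have hsub : (Icc 1 M).filter (fun v => D < (sr v : ℝ)) ⊆
      (Ioo k (M + 1)).biUnion (fun d => (Ioc 0 M).filter (fun v => d ^ 2 ∣ v)) := by
    intro v hv
    rw [mem_filter, mem_Icc] at hv
    obtain ⟨⟨h1, h2⟩, h3⟩ := hv
    have h4 := sr_sq_dvd (n := v) (by omega)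
    have h5 := sr_pos v
    have h6 : sr v ≤ v := by
      have := Nat.le_of_dvd (by omega) h4
      nlinarith
    rw [mem_biUnion]
    refine ⟨sr v, ?_, ?_⟩
    · rw [mem_Ioo]
      refine ⟨?_, by omega⟩
      rw [hk]
      exact (Nat.floor_lt' (by omega)).2 h3
    · rw [mem_filter, mem_Ioc]
      exact ⟨⟨by omega, h2⟩, h4⟩
  have h1 : (((Icc 1 M).filter (fun v => D < (sr v : ℝ))).card : ℝ) ≤
      ∑ d ∈ Ioo k (M + 1), (M : ℝ) * ((d : ℝ) ^ 2)⁻¹ := by
    have e1 := (card_le_card hsub).trans card_biUnion_le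
    have e2 : (((Icc 1 M).filter (fun v => D < (sr v : ℝ))).card : ℝ) ≤
        ∑ d ∈ Ioo k (M + 1), ((((Ioc 0 M).filter (fun v => d ^ 2 ∣ v)).card : ℕ) : ℝ) := by
      exact_mod_cast e1
    refine e2.trans (sum_le_sum (fun d _ => ?_))
    rw [Nat.Ioc_filter_dvd_card_eq_div, ← div_eq_mul_inv]
    refine Nat.cast_div_le.trans ?_
    push_cast
    exact le_refl _
  refine h1.trans ?_
  rw [← mul_sum]
  have h2 := sum_Ioo_inv_sq_le (α := ℝ) k (M + 1)
  have h3 : D ≤ (k : ℝ) + 1 := (Nat.lt_floor_add_one D).le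
  calc (M : ℝ) * ∑ i ∈ Ioo k (M + 1), ((i : ℝ) ^ 2)⁻¹ ≤ M * (2 / ((k : ℝ) + 1)) := by
        gcongr
    _ ≤ M * (2 / D) := by gcongr
    _ = _ := by ring

theorem card_natAbs (F : Finset ℤ) : F.card ≤ 2 * (F.image Int.natAbs).card := by
  classical
  refine card_le_mul_card_image F 2 (fun m _ => ?_)
  refine (card_le_card (t := {(m : ℤ), -(m : ℤ)}) ?_).trans card_le_two
  intro x hx
  rw [mem_filter] at hx
  rw [mem_insert, mem_singleton]
  have := hx.2
  omega

theorem card_rows (S : Finset (ℤ × ℤ)) (T B : ℝ) (hT : 1 ≤ T) (hB : 0 ≤ B)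
    (h : ∀ q ∈ S, ((HH q : ℤ) : ℝ) ≤ T)
    (hr : ∀ a : ℤ, (((S.filter (fun q => q.1 = a)).image Prod.snd).card : ℝ) ≤ B) :
    (S.card : ℝ) ≤ 3 * √T * B := by
  classical
  have himg : ((S.image Prod.fst).card : ℝ) ≤ 3 * √T := by
    refine card_sq_le _ T hT ?_
    intro a ha
    rw [mem_image] at ha
    obtain ⟨q, hq, rfl⟩ := ha
    have h7 := h q hq
    have e2 : q.1 ^ 2 ≤ HH q := le_max_left _ _
    have e2' : ((q.1 ^ 2 : ℤ) : ℝ) ≤ ((HH q : ℤ) : ℝ) := by exact_mod_cast e2
    push_cast at e2'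
    linarith
  have hcard : (S.card : ℝ) = ∑ a ∈ S.image Prod.fst, ((S.filter (fun q => q.1 = a)).card : ℝ) := by
    rw [card_eq_sum_card_image Prod.fst S]
    push_cast
    rfl
  rw [hcard]
  calc ∑ a ∈ S.image Prod.fst, ((S.filter (fun q => q.1 = a)).card : ℝ)
      ≤ ∑ a ∈ S.image Prod.fst, B := by
        refine sum_le_sum (fun a _ => ?_)
        refine le_trans (le_of_eq ?_) (hr a)
        rw [card_image_of_injOn]
        intro q hq q' hq' hqq
        rw [mem_coe, mem_filter] at hq hq'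
        exact Prod.ext (hq.2.trans hq'.2.symm) hqq
    _ = ((S.image Prod.fst).card : ℝ) * B := by
        rw [sum_const, nsmul_eq_mul]
    _ ≤ _ := mul_le_mul_of_nonneg_right himg hB

/-- pairs with a small entry -/
theorem small (S : Finset (ℤ × ℤ)) (T Y : ℝ) (hT : 1 ≤ T) (hY : 0 ≤ Y)
    (h : ∀ q ∈ S, ((HH q : ℤ) : ℝ) ≤ T ∧ ((q.2.natAbs : ℝ) ≤ Y ∨ ((ff q).natAbs : ℝ) ≤ Y)) :
    (S.card : ℝ) ≤ 3 * √T * (4 * Y + 2) := by
  classical
  refine card_rows S T _ hT (by positivity) (fun q hq => (h q hq).1) (fun a => ?_)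
  have := row a 1 1 one_pos one_pos (by simp) odd_one Y hY
    ((S.filter (fun q => q.1 = a)).image Prod.snd) (by
      intro n hn
      rw [mem_image] at hn
      obtain ⟨q, hq, rfl⟩ := hn
      rw [mem_filter] at hq
      have eq : (a, q.2) = q := Prod.ext hq.2.symm rfl
      refine ⟨by simp, by simp, ?_⟩
      rw [eq]
      exact (h q hq.1).2)
  simpa using this

/-- pairs of small size -/
theorem triv (S : Finset (ℤ × ℤ)) (T : ℝ) (hT : 1 ≤ T)
    (h : ∀ q ∈ S, ((HH q : ℤ) : ℝ) ≤ T) : (S.card : ℝ) ≤ 18 * T ^ (3 / 2 : ℝ) := by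
  have hT0 : 0 < T := by linarith
  have h1 := small S T T hT (by linarith) (fun q hq => ⟨h q hq, Or.inl (by
    have e2 : |q.2| ≤ HH q := le_max_right _ _
    have e2' : ((|q.2| : ℤ) : ℝ) ≤ ((HH q : ℤ) : ℝ) := by exact_mod_cast e2
    rw [Nat.cast_natAbs]
    exact e2'.trans (h q hq))⟩)
  have h2 : T ^ (3 / 2 : ℝ) = √T * T := by
    rw [Real.sqrt_eq_rpow, ← Real.rpow_add_one hT0.ne']
    norm_num
  rw [h2]
  refine h1.trans ?_
  have : 0 ≤ √T := Real.sqrt_nonneg T
  nlinarith

/-- pairs with a large powerful part -/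
theorem bigpw (S : Finset (ℤ × ℤ)) (T D W : ℝ) (hT : 1 ≤ T) (hD : 0 < D) (hW : D ^ 3 ≤ W)
    (h : ∀ q ∈ S, q.2 ≠ 0 ∧ ff q ≠ 0 ∧ ((HH q : ℤ) : ℝ) ≤ T ∧
      (W < (pw q.2.natAbs : ℝ) ∨ W < (pw (ff q).natAbs : ℝ))) :
    (S.card : ℝ) ≤ 1560 * T ^ (3 / 2 : ℝ) / D := by
  classical
  have hT0 : 0 < T := by linarith
  set M : ℕ := ⌊65 * T⌋₊ with hM
  have hsr : ∀ n : ℕ, W < (pw n : ℝ) → D < (sr n : ℝ) := by
    intro n hn
    have h1 : ((pw n : ℕ) : ℝ) ≤ (sr n : ℝ) ^ 3 := by exact_mod_cast pw_le_sr n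
    have h2 : D ^ 3 < (sr n : ℝ) ^ 3 := by linarith
    exact lt_of_pow_lt_pow_left₀ 3 (by positivity) h2
  have hB := card_sr M D hD
  set Bs := (Icc 1 M).filter (fun v => D < (sr v : ℝ)) with hBs
  have hMT : (M : ℝ) ≤ 65 * T := Nat.floor_le (by positivity)
  have hB2 : (Bs.card : ℝ) ≤ 130 * T / D := by
    exact hB.trans (div_le_div_of_nonneg_right (by linarith) hD.le)
  have hrow := card_rows S T (4 * (130 * T / D)) hT (by positivity) (fun q hq => (h q hq).2.2.1)
    (fun a => by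
      set R := (S.filter (fun q => q.1 = a)).image Prod.snd with hR
      have hmem : ∀ n ∈ R, n ≠ 0 ∧ ff (a, n) ≠ 0 ∧ (n.natAbs : ℝ) ≤ 65 * T ∧
          ((ff (a, n)).natAbs : ℝ) ≤ 65 * T ∧
          (W < (pw n.natAbs : ℝ) ∨ W < (pw (ff (a, n)).natAbs : ℝ)) := by
        intro n hn
        rw [hR, mem_image] at hn
        obtain ⟨q, hq, rfl⟩ := hn
        rw [mem_filter] at hq
        have eq : (a, q.2) = q := Prod.ext hq.2.symm rfl
        obtain ⟨h1, h2, h3, h4⟩ := h q hq.1
        rw [eq]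
        have e2 : |q.2| ≤ HH q := le_max_right _ _
        have e2' : ((|q.2| : ℤ) : ℝ) ≤ ((HH q : ℤ) : ℝ) := by exact_mod_cast e2
        have e3 : |ff q| ≤ 65 * HH q := by
          have e4 : q.1 ^ 2 ≤ HH q := le_max_left _ _
          have e5 := abs_le.1 e2
          unfold ff
          have e6 := sq_nonneg q.1
          rw [abs_le]
          constructor <;> linarith [e5.1, e5.2]
        have e3' : ((|ff q| : ℤ) : ℝ) ≤ ((65 * HH q : ℤ) : ℝ) := by exact_mod_cast e3
        refine ⟨h1, h2, ?_, ?_, h4⟩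
        · rw [Nat.cast_natAbs]
          linarith
        · rw [Nat.cast_natAbs]
          push_cast at e3' ⊢
          linarith
      have e1 : ((R.filter (fun n => W < (pw n.natAbs : ℝ))).card : ℝ) ≤ 2 * (130 * T / D) := by
        have g1 := card_natAbs (R.filter (fun n => W < (pw n.natAbs : ℝ)))
        have g2 : (R.filter (fun n => W < (pw n.natAbs : ℝ))).image Int.natAbs ⊆ Bs := by
          intro v hv
          rw [mem_image] at hv
          obtain ⟨n, hn, rfl⟩ := hv
          rw [mem_filter] at hn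
          obtain ⟨h1, h2, h3, h4, h5⟩ := hmem n hn.1
          rw [hBs, mem_filter, mem_Icc]
          exact ⟨⟨by omega, Nat.le_floor h3⟩, hsr _ hn.2⟩
        have g3 := card_le_card g2
        have g4 : ((R.filter (fun n => W < (pw n.natAbs : ℝ))).card : ℝ) ≤ 2 * (Bs.card : ℝ) := by
          exact_mod_cast g1.trans (by omega)
        linarith
      have e2 : ((R.filter (fun n => ¬ W < (pw n.natAbs : ℝ))).card : ℝ) ≤ 2 * (130 * T / D) := by
        have g0 : (R.filter (fun n => ¬ W < (pw n.natAbs : ℝ))).card =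
            ((R.filter (fun n => ¬ W < (pw n.natAbs : ℝ))).image (fun n => ff (a, n))).card := by
          rw [card_image_of_injective]
          intro n n' hnn
          unfold ff at hnn
          simp only at hnn
          omega
        have g1 := card_natAbs
          ((R.filter (fun n => ¬ W < (pw n.natAbs : ℝ))).image (fun n => ff (a, n)))
        have g2 : ((R.filter (fun n => ¬ W < (pw n.natAbs : ℝ))).image
            (fun n => ff (a, n))).image Int.natAbs ⊆ Bs := by
          intro v hv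
          rw [mem_image] at hv
          obtain ⟨m, hm, rfl⟩ := hv
          rw [mem_image] at hm
          obtain ⟨n, hn, rfl⟩ := hm
          rw [mem_filter] at hn
          obtain ⟨h1, h2, h3, h4, h5⟩ := hmem n hn.1
          rw [hBs, mem_filter, mem_Icc]
          refine ⟨⟨by omega, Nat.le_floor h4⟩, hsr _ ?_⟩
          rcases h5 with h5 | h5
          · exact absurd h5 hn.2
          · exact h5
        have g3 := card_le_card g2
        have g4 : ((R.filter (fun n => ¬ W < (pw n.natAbs : ℝ))).card : ℝ) ≤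
            2 * (Bs.card : ℝ) := by
          rw [g0]
          exact_mod_cast g1.trans (by omega)
        linarith
      have e3 : (R.card : ℝ) = ((R.filter (fun n => W < (pw n.natAbs : ℝ))).card : ℝ) +
          ((R.filter (fun n => ¬ W < (pw n.natAbs : ℝ))).card : ℝ) := by
        exact_mod_cast (card_filter_add_card_filter_not (s := R)
          (fun n : ℤ => W < (pw n.natAbs : ℝ))).symm
      rw [e3]
      linarith)
  refine hrow.trans (le_of_eq ?_)
  have h2 : T ^ (3 / 2 : ℝ) = √T * T := by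
    rw [Real.sqrt_eq_rpow, ← Real.rpow_add_one hT0.ne']
    norm_num
  rw [h2]
  ring

end Pool.Agent.T2h82
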