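import Pool.Agent.H328R2.ABC.RadSum
import Pool.Agent.H328R2.ABC.Parts

/-!
# The parts of an integer used in the counts
-/

set_option autoImplicit false

namespace Pool.Agent.T2h82

open Finset
open Pool.Agent.H328R2.ABC (rad rad_pos prod_pow_fact fact_pos)

/-- the product of the primes with exponent one -/
def s1 (n : ℕ) : ℕ := ∏ p ∈ n.primeFactors.filter (fun p => n.factorization p = 1), p

/-- the product of the primes with odd exponent -/
def ker (n : ℕ) : ℕ := ∏ p ∈ n.primeFactors.filter (fun p => Odd (n.factorization p)), p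

/-- the powerful part -/
def pw (n : ℕ) : ℕ :=
  ∏ p ∈ n.primeFactors.filter (fun p => ¬ n.factorization p = 1), p ^ n.factorization p

/-- `n = ker n * (sr n) ^ 2` -/
def sr (n : ℕ) : ℕ := ∏ p ∈ n.primeFactors, p ^ (n.factorization p / 2)

theorem s1_pos (n : ℕ) : 0 < s1 n :=
  prod_pos (fun _ hp => (Nat.prime_of_mem_primeFactors (mem_filter.1 hp).1).pos)

theorem ker_pos (n : ℕ) : 0 < ker n :=
  prod_pos (fun _ hp => (Nat.prime_of_mem_primeFactors (mem_filter.1 hp).1).pos)

theorem pw_pos (n : ℕ) : 0 < pw n :=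
  prod_pos (fun _ hp => pow_pos (Nat.prime_of_mem_primeFactors (mem_filter.1 hp).1).pos _)

theorem sr_pos (n : ℕ) : 0 < sr n :=
  prod_pos (fun _ hp => pow_pos (Nat.prime_of_mem_primeFactors hp).pos _)

theorem s1_mul_pw {n : ℕ} (hn : n ≠ 0) : s1 n * pw n = n := by
  conv_rhs => rw [← prod_pow_fact hn]
  rw [← prod_filter_mul_prod_filter_not n.primeFactors (fun p => n.factorization p = 1)
    (fun p => p ^ n.factorization p)]
  unfold s1 pw
  congr 1
  refine prod_congr rfl (fun p hp => ?_)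
  rw [(mem_filter.1 hp).2, pow_one]

theorem pw_primeFactors (n : ℕ) :
    (pw n).primeFactors = n.primeFactors.filter (fun p => ¬ n.factorization p = 1) := by
  unfold pw
  refine Pool.Agent.H328R2.ABC.primeFactors_prod_pow' (fun p hp => ?_) (fun p hp => ?_)
  · exact Nat.prime_of_mem_primeFactors (mem_filter.1 hp).1
  · have := fact_pos (mem_filter.1 hp).1
    omega

theorem s1_mul_rad_pw (n : ℕ) : s1 n * rad (pw n) = rad n := by
  unfold rad
  rw [pw_primeFactors, ← prod_filter_mul_prod_filter_not n.primeFactors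
    (fun p => n.factorization p = 1) (fun p => p)]
  rfl

theorem ker_mul_sq {n : ℕ} (hn : n ≠ 0) : ker n * sr n ^ 2 = n := by
  conv_rhs => rw [← prod_pow_fact hn]
  unfold ker sr
  rw [prod_filter, ← prod_pow, ← prod_mul_distrib]
  refine prod_congr rfl (fun p hp => ?_)
  split_ifs with h
  · obtain ⟨k, hk⟩ := h
    rw [hk, ← pow_mul]
    have : (2 * k + 1) / 2 = k := by omega
    rw [this]
    ring
  · rw [Nat.not_odd_iff_even] at h
    obtain ⟨k, hk⟩ := h
    rw [hk, ← pow_mul, one_mul]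
    congr 1
    omega

theorem rad_sq_ker_le {n : ℕ} (hn : n ≠ 0) : rad n ^ 2 * ker n ≤ n * s1 n ^ 2 := by
  suffices h : rad n ^ 2 * ker n ≤ (∏ p ∈ n.primeFactors, p ^ n.factorization p) * s1 n ^ 2 by
    rwa [prod_pow_fact hn] at h
  unfold ker s1 rad
  rw [prod_filter, prod_filter, ← prod_pow, ← prod_pow, ← prod_mul_distrib, ← prod_mul_distrib]
  refine prod_le_prod' (fun p hp => ?_)
  have hp0 := (Nat.prime_of_mem_primeFactors hp).pos
  have h1 := fact_pos hp
  rcases Nat.lt_or_ge 1 (n.factorization p) with h2 | h2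
  · rw [if_neg (by omega : ¬ n.factorization p = 1), one_pow, mul_one]
    split_ifs with h
    · have h3 : 3 ≤ n.factorization p := by
        obtain ⟨k, hk⟩ := h
        omega
      calc p ^ 2 * p = p ^ 3 := by ring
        _ ≤ _ := Nat.pow_le_pow_right hp0 h3
    · rw [mul_one]
      exact Nat.pow_le_pow_right hp0 h2
  · have h3 : n.factorization p = 1 := by omega
    rw [h3, if_pos (by decide), if_pos rfl]
    ring_nf
    exact le_refl _

theorem s1_le_ker (n : ℕ) : s1 n ≤ ker n := by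
  unfold s1 ker
  refine Nat.le_of_dvd (ker_pos n) ?_
  refine prod_dvd_prod_of_subset _ _ _ (fun p hp => ?_)
  rw [mem_filter] at hp ⊢
  exact ⟨hp.1, by rw [hp.2]; decide⟩

theorem ker_le_rad (n : ℕ) : ker n ≤ rad n := by
  unfold ker rad
  exact Nat.le_of_dvd (prod_pos (fun _ hp => (Nat.prime_of_mem_primeFactors hp).pos))
    (prod_dvd_prod_of_subset _ _ _ (filter_subset _ _))

theorem rad_le' {n : ℕ} (hn : n ≠ 0) : rad n ≤ n := Pool.Agent.H328R2.ABC.rad_le hn

theorem s1_dvd {n : ℕ} (hn : n ≠ 0) : s1 n ∣ n := ⟨pw n, (s1_mul_pw hn).symm⟩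

theorem pw_dvd {n : ℕ} (hn : n ≠ 0) : pw n ∣ n := ⟨s1 n, by rw [mul_comm, s1_mul_pw hn]⟩

theorem sr_sq_dvd {n : ℕ} (hn : n ≠ 0) : sr n ^ 2 ∣ n := ⟨ker n, by rw [mul_comm, ker_mul_sq hn]⟩

end Pool.Agent.T2h82
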