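import Pool.Agent.T2h82.CountA
import Pool.Agent.T2h82.LP

/-!
# Large heights: a power saving
-/

set_option autoImplicit false

namespace Pool.Agent.T2h82

open Finset
open Pool.Agent.H328R2.ABC (rad rad_pos)

/-- the other parameter -/
def ff (q : ℤ × ℤ) : ℤ := q.1 ^ 2 - 64 * q.2

/-- the pairs counted -/
structure Adm (X : ℝ) (q : ℤ × ℤ) : Prop where
  odd : Odd q.1
  n0 : q.2 ≠ 0
  f0 : ff q ≠ 0
  cop : IsCoprime q.1 q.2
  rad_le : (rad q.2.natAbs : ℝ) * rad (ff q).natAbs ≤ X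

/-- the sizes of the parts of `N` -/
structure Par (η X b k r h : ℝ) (N : ℕ) : Prop where
  s1l : X ^ b ≤ s1 N
  s1u : (s1 N : ℝ) ≤ X ^ (b + η)
  kl : X ^ k ≤ ker N
  ku : (ker N : ℝ) ≤ X ^ (k + η)
  rl : X ^ r ≤ rad N
  ru : (rad N : ℝ) ≤ X ^ (r + η)
  hl : X ^ h ≤ N
  hu : (N : ℝ) ≤ X ^ (h + η)

theorem Par.of {η X : ℝ} (hη : 0 < η) (hX : 1 < X) {N : ℕ} (hN : N ≠ 0) :
    Par η X (gi η X (s1 N) * η) (gi η X (ker N) * η) (gi η X (rad N) * η) (gi η X N * η) N := by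
  have h1 : (1 : ℝ) ≤ s1 N := by exact_mod_cast s1_pos N
  have h2 : (1 : ℝ) ≤ ker N := by exact_mod_cast ker_pos N
  have h3 : (1 : ℝ) ≤ rad N := by exact_mod_cast rad_pos N
  have h4 : (1 : ℝ) ≤ N := by exact_mod_cast Nat.pos_of_ne_zero hN
  exact ⟨(gi_spec hη hX h1).1, (gi_spec hη hX h1).2, (gi_spec hη hX h2).1, (gi_spec hη hX h2).2,
    (gi_spec hη hX h3).1, (gi_spec hη hX h3).2, (gi_spec hη hX h4).1, (gi_spec hη hX h4).2⟩

section
variable {η X b k r h : ℝ} {N : ℕ}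

theorem Par.pw_ge (hX : 1 < X) (hN : N ≠ 0) (p : Par η X b k r h N) :
    X ^ (h - b - η) ≤ pw N := by
  have hX0 : 0 < X := by linarith
  have h1 : (s1 N : ℝ) * pw N = N := by exact_mod_cast s1_mul_pw hN
  have h2 : (0 : ℝ) < pw N := by exact_mod_cast pw_pos N
  have h3 : X ^ h ≤ X ^ (b + η) * pw N := by
    refine p.hl.trans ?_
    rw [← h1]
    exact mul_le_mul_of_nonneg_right p.s1u h2.le
  have h4 : X ^ (h - b - η) = X ^ h / X ^ (b + η) := by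
    rw [← Real.rpow_sub hX0]
    congr 1
    ring
  rw [h4, div_le_iff₀ (by positivity)]
  linarith

theorem Par.radpw_le (hX : 1 < X) (p : Par η X b k r h N) :
    (rad (pw N) : ℝ) ≤ X ^ (r + η - b) := by
  have hX0 : 0 < X := by linarith
  have h1 : (s1 N : ℝ) * rad (pw N) = rad N := by exact_mod_cast s1_mul_rad_pw N
  have h2 : (0 : ℝ) < rad (pw N) := by exact_mod_cast rad_pos _
  have h3 : X ^ b * rad (pw N) ≤ X ^ (r + η) := by
    refine le_trans ?_ p.ru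
    rw [← h1]
    exact mul_le_mul_of_nonneg_right p.s1l h2.le
  rw [Real.rpow_sub hX0, le_div_iff₀ (by positivity)]
  linarith

theorem Par.sr_ge (hX : 1 < X) (hN : N ≠ 0) (p : Par η X b k r h N) :
    X ^ ((h - k - η) / 2) ≤ sr N := by
  have hX0 : 0 < X := by linarith
  have h1 : (ker N : ℝ) * (sr N : ℝ) ^ 2 = N := by exact_mod_cast ker_mul_sq hN
  have h2 : (0 : ℝ) < sr N := by exact_mod_cast sr_pos N
  have h3 : X ^ h ≤ X ^ (k + η) * (sr N : ℝ) ^ 2 := by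
    refine p.hl.trans ?_
    rw [← h1]
    exact mul_le_mul_of_nonneg_right p.ku (by positivity)
  have h4 : X ^ (h - k - η) ≤ (sr N : ℝ) ^ 2 := by
    have h5 : X ^ (h - k - η) = X ^ h / X ^ (k + η) := by
      rw [← Real.rpow_sub hX0]
      congr 1
      ring
    rw [h5, div_le_iff₀ (by positivity)]
    linarith
  have h6 : (X ^ ((h - k - η) / 2)) ^ 2 = X ^ (h - k - η) := by
    rw [← Real.rpow_natCast, ← Real.rpow_mul hX0.le]
    congr 1
    push_cast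
    ring
  rw [← h6] at h4
  exact le_of_sq_le_sq' h4 h2.le
where
  le_of_sq_le_sq' {a b : ℝ} (h : a ^ 2 ≤ b ^ 2) (hb : 0 ≤ b) : a ≤ b :=
    le_of_not_gt (fun hlt => absurd h (not_le.2 (by nlinarith)))

theorem Par.sr_le (hX : 1 < X) (hN : N ≠ 0) (p : Par η X b k r h N) :
    (sr N : ℝ) ≤ X ^ η * X ^ ((h - k - η) / 2) := by
  have hX0 : 0 < X := by linarith
  have h1 : (ker N : ℝ) * (sr N : ℝ) ^ 2 = N := by exact_mod_cast ker_mul_sq hN
  have h2 : (0 : ℝ) < sr N := by exact_mod_cast sr_pos N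
  have h3 : X ^ k * (sr N : ℝ) ^ 2 ≤ X ^ (h + η) := by
    refine le_trans ?_ p.hu
    rw [← h1]
    exact mul_le_mul_of_nonneg_right p.kl (by positivity)
  have h4 : (sr N : ℝ) ^ 2 ≤ X ^ (h + η - k) := by
    rw [Real.rpow_sub hX0, le_div_iff₀ (by positivity)]
    linarith
  have h6 : (X ^ η * X ^ ((h - k - η) / 2)) ^ 2 = X ^ (h + η - k) := by
    rw [← Real.rpow_add hX0, ← Real.rpow_natCast, ← Real.rpow_mul hX0.le]
    congr 1
    push_cast
    ring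
  rw [← h6] at h4
  exact Par.sr_ge.le_of_sq_le_sq' h4 (by positivity)

theorem Par.three (hX : 1 < X) (hN : N ≠ 0) (p : Par η X b k r h N) :
    2 * r + k ≤ h + 2 * b + 3 * η := by
  have hX0 : 0 < X := by linarith
  refine exp_le hX ?_
  have h1 : (rad N : ℝ) ^ 2 * ker N ≤ N * (s1 N : ℝ) ^ 2 := by exact_mod_cast rad_sq_ker_le hN
  calc X ^ (2 * r + k) = (X ^ r) ^ 2 * X ^ k := by
        rw [← Real.rpow_natCast, ← Real.rpow_mul hX0.le, ← Real.rpow_add hX0]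
        congr 1
        push_cast
        ring
    _ ≤ (rad N : ℝ) ^ 2 * ker N := by
        have := p.rl
        have := p.kl
        gcongr
    _ ≤ N * (s1 N : ℝ) ^ 2 := h1
    _ ≤ X ^ (h + η) * (X ^ (b + η)) ^ 2 := by
        have := p.hu
        have := p.s1u
        gcongr
    _ = X ^ (h + 2 * b + 3 * η) := by
        rw [← Real.rpow_natCast, ← Real.rpow_mul hX0.le, ← Real.rpow_add hX0]
        congr 1
        push_cast
        ring

end

theorem add_one_le_two {X x : ℝ} (hX : 1 < X) : X ^ x + 1 ≤ 2 * X ^ (max 0 x) := by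
  have h1 : X ^ x ≤ X ^ (max 0 x) := Real.rpow_le_rpow_of_exponent_le hX.le (le_max_right _ _)
  have h2 : 1 ≤ X ^ (max 0 x) := Real.one_le_rpow hX.le (le_max_left _ _)
  linarith

/-- the first bound in terms of exponents -/
theorem boundA (η : ℝ) (hη : 0 < η) : ∃ C : ℝ, 0 < C ∧ ∀ X : ℝ, 1 < X → ∀ μ ν : ℤ,
    0 < μ → μ ≤ 64 → 0 < ν → ∀ b1 kb rb hb d1 kd rd hd : ℝ, ∀ T : Finset (ℤ × ℤ × ℤ),
    (∀ t ∈ T, Sol μ ν ⌊X⌋₊ t ∧ Par η X b1 kb rb hb t.2.1.natAbs ∧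
      Par η X d1 kd rd hd t.2.2.natAbs) →
    (T.card : ℝ) ≤ C * X ^ (rd + rb - b1 + 3 * η + max 0 (b1 - max hb hd / 2 + 2 * η)) := by
  obtain ⟨C, hC, h⟩ := countA η hη
  refine ⟨2 * C, by positivity, ?_⟩
  intro X hX μ ν hμ hμ64 hν b1 kb rb hb d1 kd rd hd T hT
  have hX0 : 0 < X := by linarith
  have hM : 1 ≤ ⌊X⌋₊ := Nat.le_floor (by exact_mod_cast hX.le)
  have key := h ⌊X⌋₊ hM μ ν hμ hμ64 hν (X ^ (rd + η)) (X ^ (rb + η - b1)) (X ^ (hb + η))
    (X ^ (hb - b1 - η)) (X ^ (max hb hd)) (by positivity) (by positivity) (by positivity)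
    (by positivity) (by positivity) T (fun t ht => ?_)
  · refine key.trans ?_
    have h1 : X ^ (hb + η) / (√(X ^ (max hb hd)) * X ^ (hb - b1 - η)) =
        X ^ (b1 - max hb hd / 2 + 2 * η) := by
      rw [Real.sqrt_eq_rpow, ← Real.rpow_mul hX0.le, ← Real.rpow_add hX0, ← Real.rpow_sub hX0]
      congr 1
      ring
    rw [h1]
    have h2 := add_one_le_two (x := b1 - max hb hd / 2 + 2 * η) hX
    have h3 : ((⌊X⌋₊ : ℝ)) ^ η ≤ X ^ η :=
      Real.rpow_le_rpow (by positivity) (Nat.floor_le hX0.le) hη.le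
    calc C * (⌊X⌋₊ : ℝ) ^ η * (X ^ (rd + η) * X ^ (rb + η - b1)) *
          (X ^ (b1 - max hb hd / 2 + 2 * η) + 1)
        ≤ C * X ^ η * (X ^ (rd + η) * X ^ (rb + η - b1)) *
          (2 * X ^ (max 0 (b1 - max hb hd / 2 + 2 * η))) := by gcongr
      _ = 2 * C * (X ^ η * X ^ (rd + η) * X ^ (rb + η - b1) *
          X ^ (max 0 (b1 - max hb hd / 2 + 2 * η))) := by ring
      _ = _ := by
        rw [← Real.rpow_add hX0, ← Real.rpow_add hX0, ← Real.rpow_add hX0]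
        congr 2
        ring
  · obtain ⟨h1, h2, h3⟩ := hT t ht
    have hu0 : t.2.1.natAbs ≠ 0 := Int.natAbs_ne_zero.2 h1.2.1
    refine ⟨h1, h3.ru, h2.radpw_le hX, h2.hu, h2.pw_ge hX hu0, ?_⟩
    rcases max_cases hb hd with ⟨h, -⟩ | ⟨h, -⟩ <;> rw [h]
    · exact le_max_of_le_left h2.hl
    · exact le_max_of_le_right h3.hl

/-- the second bound in terms of exponents -/
theorem boundB (η : ℝ) (hη : 0 < η) : ∃ C : ℝ, 0 < C ∧ ∀ X : ℝ, 1 < X → ∀ μ ν : ℤ,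
    0 < μ → μ ≤ 64 → 0 < ν → ∀ b1 kb rb hb d1 kd rd hd : ℝ, ∀ T : Finset (ℤ × ℤ × ℤ),
    (∀ t ∈ T, Sol μ ν ⌊X⌋₊ t ∧ IsCoprime t.1 t.2.2 ∧ Par η X b1 kb rb hb t.2.1.natAbs ∧
      Par η X d1 kd rd hd t.2.2.natAbs) →
    (T.card : ℝ) ≤ C * X ^ (kd + rb - b1 + 3 * η + max 0 (b1 - kd / 2 + 4 * η)) := by
  obtain ⟨C, hC, h⟩ := countB η hη
  refine ⟨2 * C, by positivity, ?_⟩
  intro X hX μ ν hμ hμ64 hν b1 kb rb hb d1 kd rd hd T hT
  have hX0 : 0 < X := by linarith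
  have hM : 1 ≤ ⌊X⌋₊ := Nat.le_floor (by exact_mod_cast hX.le)
  have key := h ⌊X⌋₊ hM μ ν hμ hμ64 hν (X ^ (kd + η)) (X ^ (rb + η - b1)) (X ^ (hb + η))
    (X ^ (hb - b1 - η)) (X ^ kd) (X ^ ((hd - kd - η) / 2)) (X ^ η) (by positivity)
    (by positivity) (by positivity) (by positivity) (by positivity) (by positivity)
    (by positivity) T (fun t ht => ?_)
  · refine key.trans ?_
    have h1 : X ^ (hb + η) * (X ^ η) ^ 2 / (√(X ^ kd) * X ^ (hb - b1 - η)) =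
        X ^ (b1 - kd / 2 + 4 * η) := by
      rw [Real.sqrt_eq_rpow, ← Real.rpow_mul hX0.le, ← Real.rpow_natCast (X ^ η),
        ← Real.rpow_mul hX0.le, ← Real.rpow_add hX0, ← Real.rpow_add hX0, ← Real.rpow_sub hX0]
      congr 1
      push_cast
      ring
    rw [h1]
    have h2 := add_one_le_two (x := b1 - kd / 2 + 4 * η) hX
    have h3 : ((⌊X⌋₊ : ℝ)) ^ η ≤ X ^ η :=
      Real.rpow_le_rpow (by positivity) (Nat.floor_le hX0.le) hη.le
    calc C * (⌊X⌋₊ : ℝ) ^ η * (X ^ (kd + η) * X ^ (rb + η - b1)) *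
          (X ^ (b1 - kd / 2 + 4 * η) + 1)
        ≤ C * X ^ η * (X ^ (kd + η) * X ^ (rb + η - b1)) *
          (2 * X ^ (max 0 (b1 - kd / 2 + 4 * η))) := by gcongr
      _ = 2 * C * (X ^ η * X ^ (kd + η) * X ^ (rb + η - b1) *
          X ^ (max 0 (b1 - kd / 2 + 4 * η))) := by ring
      _ = _ := by
        rw [← Real.rpow_add hX0, ← Real.rpow_add hX0, ← Real.rpow_add hX0]
        congr 2
        ring
  · obtain ⟨h1, hc, h2, h3⟩ := hT t ht
    have hu0 : t.2.1.natAbs ≠ 0 := Int.natAbs_ne_zero.2 h1.2.1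
    have hv0 : t.2.2.natAbs ≠ 0 := Int.natAbs_ne_zero.2 h1.2.2.1
    exact ⟨h1, hc, h3.ku, h2.radpw_le hX, h2.hu, h2.pw_ge hX hu0, h3.kl, h3.sr_ge hX hv0,
      h3.sr_le hX hv0⟩

end Pool.Agent.T2h82
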