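import Pool.Agent.T2h82.Power

/-!
# Large heights: a power saving, continued
-/

set_option autoImplicit false

namespace Pool.Agent.T2h82

open Finset
open Pool.Agent.H328R2.ABC (rad rad_pos)

theorem Adm.odd_f {X : ℝ} {q : ℤ × ℤ} (h : Adm X q) : Odd (ff q) := by
  unfold ff
  have h1 : Odd (q.1 ^ 2) := h.odd.pow
  have h2 : Even (64 * q.2) := ⟨32 * q.2, by ring⟩
  exact h1.sub_even h2

theorem Adm.cop_nf {X : ℝ} {q : ℤ × ℤ} (h : Adm X q) : IsCoprime q.2 (ff q) := by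
  unfold ff
  have h1 : IsCoprime q.2 (q.1 ^ 2) := (h.cop.symm).pow_right
  have : q.1 ^ 2 - 64 * q.2 = q.1 ^ 2 + q.2 * (-64) := by ring
  rw [this]
  exact h1.add_mul_left_right _

theorem cop_two_pow {a : ℤ} (h : Odd a) : IsCoprime (64 : ℤ) a := by
  have h2 : IsCoprime (2 : ℤ) a := by
    obtain ⟨k, hk⟩ := h
    exact ⟨-k, 1, by rw [hk]; ring⟩
  have : (64 : ℤ) = 2 ^ 6 := by norm_num
  rw [this]
  exact h2.pow_left

theorem Adm.cop_af {X : ℝ} {q : ℤ × ℤ} (h : Adm X q) : IsCoprime q.1 (ff q) := by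
  have h1 : IsCoprime q.1 (64 * q.2) :=
    IsCoprime.mul_right (cop_two_pow h.odd).symm h.cop
  unfold ff
  have : q.1 ^ 2 - 64 * q.2 = -(64 * q.2) + q.1 * q.1 := by ring
  rw [this]
  exact (IsCoprime.neg_right h1).add_mul_left_right _

theorem cast_pw_dvd {m : ℤ} (hm : m ≠ 0) : ((pw m.natAbs : ℕ) : ℤ) ∣ m := by
  rw [Int.natCast_dvd]
  exact pw_dvd (Int.natAbs_ne_zero.2 hm)

theorem Adm.sol1 {X Y : ℝ} {q : ℤ × ℤ} (h : Adm X q) (h1 : (q.2.natAbs : ℝ) ≤ Y)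
    (h2 : ((ff q).natAbs : ℝ) ≤ Y) : Sol 64 1 ⌊Y⌋₊ (q.1, q.2, ff q) := by
  refine ⟨?_, h.n0, h.f0, ?_, Nat.le_floor h1, Nat.le_floor h2⟩
  · change q.1 ^ 2 = 64 * q.2 + 1 * ff q
    unfold ff
    ring
  · change IsCoprime (1 * ff q) ((pw q.2.natAbs : ℕ) : ℤ)
    rw [one_mul]
    exact (h.cop_nf.symm).of_isCoprime_of_dvd_right (cast_pw_dvd h.n0)

theorem Adm.sol2 {X Y : ℝ} {q : ℤ × ℤ} (h : Adm X q) (h1 : (q.2.natAbs : ℝ) ≤ Y)
    (h2 : ((ff q).natAbs : ℝ) ≤ Y) : Sol 1 64 ⌊Y⌋₊ (q.1, ff q, q.2) := by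
  refine ⟨?_, h.f0, h.n0, ?_, Nat.le_floor h2, Nat.le_floor h1⟩
  · change q.1 ^ 2 = 1 * ff q + 64 * q.2
    unfold ff
    ring
  · change IsCoprime (64 * q.2) ((pw (ff q).natAbs : ℕ) : ℤ)
    exact (IsCoprime.mul_left (cop_two_pow h.odd_f) h.cop_nf).of_isCoprime_of_dvd_right
      (cast_pw_dvd h.f0)

/-- the class of a pair -/
noncomputable def cls (η X : ℝ) (q : ℤ × ℤ) : Fin 8 → ℕ :=
  ![gi η X (s1 q.2.natAbs), gi η X (ker q.2.natAbs), gi η X (rad q.2.natAbs), gi η X q.2.natAbs,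
    gi η X (s1 (ff q).natAbs), gi η X (ker (ff q).natAbs), gi η X (rad (ff q).natAbs),
    gi η X (ff q).natAbs]

theorem gi_small {η X : ℝ} (hη : 0 < η) (hX : 1 < X) {N : ℕ} (hN : N ≠ 0) (hNX : (N : ℝ) ≤ X) :
    gi η X (s1 N) < ⌊1 / η⌋₊ + 1 ∧ gi η X (ker N) < ⌊1 / η⌋₊ + 1 ∧
      gi η X (rad N) < ⌊1 / η⌋₊ + 1 ∧ gi η X N < ⌊1 / η⌋₊ + 1 := by
  have h1 : (1 : ℝ) ≤ s1 N := by exact_mod_cast s1_pos N
  have h2 : (1 : ℝ) ≤ ker N := by exact_mod_cast ker_pos N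
  have h3 : (1 : ℝ) ≤ rad N := by exact_mod_cast rad_pos N
  have h4 : (1 : ℝ) ≤ N := by exact_mod_cast Nat.pos_of_ne_zero hN
  have e1 : (s1 N : ℝ) ≤ ker N := by exact_mod_cast s1_le_ker N
  have e2 : (ker N : ℝ) ≤ rad N := by exact_mod_cast ker_le_rad N
  have e3 : (rad N : ℝ) ≤ N := by exact_mod_cast rad_le' hN
  exact ⟨gi_le hη hX h1 (by linarith), gi_le hη hX h2 (by linarith), gi_le hη hX h3 (by linarith),
    gi_le hη hX h4 hNX⟩

theorem power (η0 δ : ℝ) (h0 : 0 < η0) (hδ : 0 < δ) : ∃ η C : ℝ, 0 < η ∧ 0 < C ∧ ∀ X : ℝ,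
    1 < X → ∀ S : Finset (ℤ × ℤ), (∀ q ∈ S, Adm X q ∧
      X ^ (1 / 2 + 2 * η0) ≤ max (q.2.natAbs : ℝ) (ff q).natAbs ∧
      (q.2.natAbs : ℝ) ≤ X ^ (1 - 2 * δ) ∧ ((ff q).natAbs : ℝ) ≤ X ^ (1 - 2 * δ)) →
    (S.card : ℝ) ≤ C * X ^ (3 / 4 - η) := by
  classical
  set η := min η0 δ / 20 with hηd
  have hη : 0 < η := by
    have : 0 < min η0 δ := lt_min h0 hδ
    positivity
  have h20 : 20 * η ≤ η0 := by
    have := min_le_left η0 δ
    rw [hηd]; linarith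
  have h20' : 20 * η ≤ δ := by
    have := min_le_right η0 δ
    rw [hηd]; linarith
  obtain ⟨C1, hC1, hA⟩ := boundA η hη
  obtain ⟨C2, hC2, hB⟩ := boundB η hη
  refine ⟨η, (C1 + C2) * ((⌊1 / η⌋₊ + 1 : ℕ) : ℝ) ^ 8, hη, by positivity, ?_⟩
  intro X hX S hS
  have hX0 : 0 < X := by linarith
  have hle : X ^ (1 - 2 * δ) ≤ X := by
    calc X ^ (1 - 2 * δ) ≤ X ^ (1 : ℝ) :=
          Real.rpow_le_rpow_of_exponent_le hX.le (by linarith)
      _ = X := Real.rpow_one X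
  have hfib : ∀ ρ ∈ S.image (cls η X), ((S.filter (fun q => cls η X q = ρ)).card : ℝ) ≤
      (C1 + C2) * X ^ (3 / 4 - η) := by
    intro ρ hρ
    obtain ⟨q0, hq0, rfl⟩ := mem_image.1 hρ
    set G := S.filter (fun q => cls η X q = cls η X q0) with hG
    have hGm : ∀ q ∈ G, q ∈ S ∧ cls η X q = cls η X q0 := fun q hq => by
      rwa [hG, mem_filter] at hq
    set b1 := (gi η X (s1 q0.2.natAbs) : ℝ) * η with hb1
    set kb := (gi η X (ker q0.2.natAbs) : ℝ) * η with hkb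
    set rb := (gi η X (rad q0.2.natAbs) : ℝ) * η with hrb
    set hb := (gi η X q0.2.natAbs : ℝ) * η with hhb
    set d1 := (gi η X (s1 (ff q0).natAbs) : ℝ) * η with hd1
    set kd := (gi η X (ker (ff q0).natAbs) : ℝ) * η with hkd
    set rd := (gi η X (rad (ff q0).natAbs) : ℝ) * η with hrd
    set hd := (gi η X (ff q0).natAbs : ℝ) * η with hhd
    have hpar : ∀ q ∈ G, Par η X b1 kb rb hb q.2.natAbs ∧ Par η X d1 kd rd hd (ff q).natAbs := by
      intro q hq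
      obtain ⟨h1, h2⟩ := hGm q hq
      obtain ⟨adm, -, -, -⟩ := hS q h1
      have e := fun i => congrFun h2 i
      have e0 := e 0
      have e1 := e 1
      have e2 := e 2
      have e3 := e 3
      have e4 := e 4
      have e5 := e 5
      have e6 := e 6
      have e7 := e 7
      simp only [cls, Matrix.cons_val] at e0 e1 e2 e3 e4 e5 e6 e7
      have p1 := Par.of hη hX (Int.natAbs_ne_zero.2 adm.n0)
      have p2 := Par.of hη hX (Int.natAbs_ne_zero.2 adm.f0)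
      rw [e0, e1, e2, e3] at p1
      rw [e4, e5, e6, e7] at p2
      exact ⟨p1, p2⟩
    obtain ⟨a0, m0, n0, f0⟩ := hS q0 hq0
    have hq0G : q0 ∈ G := by rw [hG, mem_filter]; exact ⟨hq0, rfl⟩
    obtain ⟨p1, p2⟩ := hpar q0 hq0G
    have hN0 : q0.2.natAbs ≠ 0 := Int.natAbs_ne_zero.2 a0.n0
    have hF0 : (ff q0).natAbs ≠ 0 := Int.natAbs_ne_zero.2 a0.f0
    have l1 : rb + rd ≤ 1 := by
      refine exp_le hX ?_
      rw [Real.rpow_add hX0, Real.rpow_one]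
      refine le_trans ?_ a0.rad_le
      have := p1.rl
      have := p2.rl
      gcongr
    have l4 : kb ≤ rb := by
      rw [hkb, hrb]
      have := gi_mono (η := η) (X := X) hη hX (t := (ker q0.2.natAbs : ℝ))
        (t' := (rad q0.2.natAbs : ℝ)) (by exact_mod_cast ker_pos _) (by exact_mod_cast ker_le_rad _)
      gcongr
    have l5 : kd ≤ rd := by
      rw [hkd, hrd]
      have := gi_mono (η := η) (X := X) hη hX (t := (ker (ff q0).natAbs : ℝ))
        (t' := (rad (ff q0).natAbs : ℝ)) (by exact_mod_cast ker_pos _) (by exact_mod_cast ker_le_rad _)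
      gcongr
    have l6 : hb ≤ 1 - 2 * δ := exp_le hX (p1.hl.trans n0)
    have l7 : hd ≤ 1 - 2 * δ := exp_le hX (p2.hl.trans f0)
    have l8 : 1 / 2 + 2 * η0 ≤ max hb hd + η := by
      refine exp_le hX (m0.trans ?_)
      refine max_le (p1.hu.trans ?_) (p2.hu.trans ?_)
      · exact Real.rpow_le_rpow_of_exponent_le hX.le (by linarith [le_max_left hb hd])
      · exact Real.rpow_le_rpow_of_exponent_le hX.le (by linarith [le_max_right hb hd])
    have hc0 : 0 ≤ X ^ (3 / 4 - η) := by positivity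
    have inj1 : Set.InjOn (fun q : ℤ × ℤ => ((q.1, q.2, ff q) : ℤ × ℤ × ℤ)) G := by
      intro x _ y _ h
      simp only [Prod.mk.injEq] at h
      exact Prod.ext h.1 h.2.1
    have inj2 : Set.InjOn (fun q : ℤ × ℤ => ((q.1, ff q, q.2) : ℤ × ℤ × ℤ)) G := by
      intro x _ y _ h
      simp only [Prod.mk.injEq] at h
      exact Prod.ext h.1 h.2.2
    have hfin : ∀ {C' e : ℝ} {T : Finset (ℤ × ℤ × ℤ)}, C' ≤ C1 + C2 → 0 < C' → T.card = G.card →
        e ≤ 3 / 4 - η → (T.card : ℝ) ≤ C' * X ^ e → (G.card : ℝ) ≤ (C1 + C2) * X ^ (3 / 4 - η) := by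
      intro C' e T hC' hC0 hT he hb
      rw [hT] at hb
      refine hb.trans ?_
      have := Real.rpow_le_rpow_of_exponent_le hX.le he
      gcongr
    have hcl1 : C1 ≤ C1 + C2 := by linarith
    have hcl2 : C2 ≤ C1 + C2 := by linarith
    rcases lp hη h20 h20' l1 (p1.three hX hN0) (p2.three hX hF0) l4 l5 l6 l7 l8 with
      h | h | h | h
    · refine hfin hcl1 hC1 (card_image_of_injOn inj1) h (hA X hX 64 1 (by norm_num) (by norm_num)
        (by norm_num) b1 kb rb hb d1 kd rd hd _ (fun t ht => ?_))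
      obtain ⟨q, hq, rfl⟩ := mem_image.1 ht
      obtain ⟨a, -, n1, f1⟩ := hS q (hGm q hq).1
      exact ⟨a.sol1 (n1.trans hle) (f1.trans hle), (hpar q hq).1, (hpar q hq).2⟩
    · refine hfin hcl1 hC1 (card_image_of_injOn inj2) ?_ (hA X hX 1 64 (by norm_num) (by norm_num)
        (by norm_num) d1 kd rd hd b1 kb rb hb _ (fun t ht => ?_))
      · rw [max_comm hd hb]
        exact h
      · obtain ⟨q, hq, rfl⟩ := mem_image.1 ht
        obtain ⟨a, -, n1, f1⟩ := hS q (hGm q hq).1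
        exact ⟨a.sol2 (n1.trans hle) (f1.trans hle), (hpar q hq).2, (hpar q hq).1⟩
    · refine hfin hcl2 hC2 (card_image_of_injOn inj1) h (hB X hX 64 1 (by norm_num) (by norm_num)
        (by norm_num) b1 kb rb hb d1 kd rd hd _ (fun t ht => ?_))
      obtain ⟨q, hq, rfl⟩ := mem_image.1 ht
      obtain ⟨a, -, n1, f1⟩ := hS q (hGm q hq).1
      exact ⟨a.sol1 (n1.trans hle) (f1.trans hle), a.cop_af, (hpar q hq).1, (hpar q hq).2⟩
    · refine hfin hcl2 hC2 (card_image_of_injOn inj2) h (hB X hX 1 64 (by norm_num) (by norm_num)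
        (by norm_num) d1 kd rd hd b1 kb rb hb _ (fun t ht => ?_))
      obtain ⟨q, hq, rfl⟩ := mem_image.1 ht
      obtain ⟨a, -, n1, f1⟩ := hS q (hGm q hq).1
      exact ⟨a.sol2 (n1.trans hle) (f1.trans hle), a.cop, (hpar q hq).2, (hpar q hq).1⟩
  have himg : (S.image (cls η X)).card ≤ (⌊1 / η⌋₊ + 1) ^ 8 := by
    have h1 : S.image (cls η X) ⊆ Fintype.piFinset (fun _ : Fin 8 => range (⌊1 / η⌋₊ + 1)) := by
      intro c hc
      obtain ⟨q, hq, rfl⟩ := mem_image.1 hc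
      obtain ⟨a, -, n1, f1⟩ := hS q hq
      obtain ⟨g1, g2, g3, g4⟩ := gi_small hη hX (Int.natAbs_ne_zero.2 a.n0) (n1.trans hle)
      obtain ⟨g5, g6, g7, g8⟩ := gi_small hη hX (Int.natAbs_ne_zero.2 a.f0) (f1.trans hle)
      rw [Fintype.mem_piFinset]
      intro i
      rw [mem_range]
      fin_cases i
      · exact g1
      · exact g2
      · exact g3
      · exact g4
      · exact g5
      · exact g6
      · exact g7
      · exact g8
    refine (card_le_card h1).trans ?_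
    rw [Fintype.card_piFinset]
    simp
  have h9 := card_le_mul_card_image_real S (cls η X) _ hfib
  refine h9.trans ?_
  have h10 : ((S.image (cls η X)).card : ℝ) ≤ ((⌊1 / η⌋₊ + 1 : ℕ) : ℝ) ^ 8 := by
    exact_mod_cast himg
  calc (C1 + C2) * X ^ (3 / 4 - η) * ((S.image (cls η X)).card : ℝ)
      ≤ (C1 + C2) * X ^ (3 / 4 - η) * ((⌊1 / η⌋₊ + 1 : ℕ) : ℝ) ^ 8 := by gcongr
    _ = _ := by ring

end Pool.Agent.T2h82
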