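import Pool.Agent.T2h82.PowSum
import Pool.Agent.T2h82.Power2

/-!
# Counting the pairs with small powerful parts
-/

set_option autoImplicit false

namespace Pool.Agent.T2h82

open Finset
open Pool.Agent.H328R2.ABC (rad rad_pos)

/-- the size of a pair -/
def HH (q : ℤ × ℤ) : ℤ := max (q.1 ^ 2) |q.2|

/-- integers of one class in an interval -/
theorem card_class (F : Finset ℤ) (m : ℕ) (hm : 0 < m) (x L : ℝ) (hL : 0 ≤ L)
    (h : ∀ y ∈ F, x ≤ (y : ℝ) ∧ (y : ℝ) ≤ x + L)
    (hc : ∀ y ∈ F, ∀ z ∈ F, ((m : ℤ)) ∣ y - z) : (F.card : ℝ) ≤ L / m + 1 := by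
  have hinj : Function.Injective (fun n : ℤ => (n : ℝ)) := Int.cast_injective
  rw [← card_image_of_injective F hinj]
  refine card_sep _ m L x (by exact_mod_cast hm) hL ?_ ?_
  · intro y hy
    rw [mem_image] at hy
    obtain ⟨n, hn, rfl⟩ := hy
    exact h n hn
  · intro y hy z hz hyz
    rw [mem_image] at hy hz
    obtain ⟨n, hn, rfl⟩ := hy
    obtain ⟨k, hk, rfl⟩ := hz
    have hne : n - k ≠ 0 := by
      intro h0
      apply hyz
      have : n = k := by omega
      rw [this]
    have h1 := Int.le_of_dvd (abs_pos.2 hne) ((dvd_abs _ _).2 (hc n hn k hk))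
    have h2 : ((m : ℤ) : ℝ) ≤ ((|n - k| : ℤ) : ℝ) := by exact_mod_cast h1
    push_cast at h2
    exact h2

/-- the number of integers with square at most `T` -/
theorem card_sq_le (F : Finset ℤ) (T : ℝ) (hT : 1 ≤ T) (h : ∀ a ∈ F, ((a : ℝ)) ^ 2 ≤ T) :
    (F.card : ℝ) ≤ 3 * √T := by
  have h1 : 1 ≤ √T := by
    rw [Real.one_le_sqrt]
    exact hT
  have h2 := card_class F 1 one_pos (-√T) (2 * √T) (by positivity) (fun y hy => by
    have := Real.abs_le_sqrt (h y hy)
    rw [abs_le] at this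
    constructor
    · exact this.1
    · linarith [this.2]) (fun y _ z _ => by simp)
  push_cast at h2
  linarith

/-- one row -/
theorem row (a : ℤ) (w z : ℕ) (hw : 0 < w) (hz : 0 < z) (hc : Nat.Coprime w z) (hz2 : Odd z)
    (Y : ℝ) (hY : 0 ≤ Y) (S : Finset ℤ)
    (h : ∀ n ∈ S, (w : ℤ) ∣ n ∧ (z : ℤ) ∣ ff (a, n) ∧
      ((n.natAbs : ℝ) ≤ Y ∨ ((ff (a, n)).natAbs : ℝ) ≤ Y)) :
    (S.card : ℝ) ≤ 4 * (Y / ((w : ℝ) * z)) + 2 := by
  classical
  have hcl : ∀ y ∈ S, ∀ y' ∈ S, (((w * z : ℕ) : ℤ)) ∣ y - y' := by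
    intro y hy y' hy'
    obtain ⟨h1, h2, -⟩ := h y hy
    obtain ⟨h1', h2', -⟩ := h y' hy'
    have h3 : (z : ℤ) ∣ 64 * (y - y') := by
      have : 64 * (y - y') = ff (a, y') - ff (a, y) := by
        unfold ff
        ring
      rw [this]
      exact dvd_sub h2' h2
    have h4 : IsCoprime (z : ℤ) 64 := by
      rw [Int.isCoprime_iff_gcd_eq_one]
      have : Nat.Coprime z 64 := by
        have : (64 : ℕ) = 2 ^ 6 := by norm_num
        rw [this]
        exact Nat.Coprime.pow_right 6 (Nat.coprime_two_right.2 hz2)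
      exact_mod_cast this
    have h5 : (z : ℤ) ∣ y - y' := h4.dvd_of_dvd_mul_left h3
    push_cast
    refine IsCoprime.mul_dvd ?_ (dvd_sub h1 h1') h5
    exact Nat.isCoprime_iff_coprime.2 hc
  have e1 := card_class (S.filter (fun n => ((n.natAbs : ℕ) : ℝ) ≤ Y)) (w * z)
    (Nat.mul_pos hw hz) (-Y) (2 * Y) (by positivity) (fun y hy => by
      have h6 := (mem_filter.1 hy).2
      rw [Nat.cast_natAbs] at h6
      push_cast at h6
      rw [abs_le] at h6
      constructor <;> linarith [h6.1, h6.2])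
    (fun y hy y' hy' => hcl y (mem_filter.1 hy).1 y' (mem_filter.1 hy').1)
  have e2 := card_class (S.filter (fun n => ¬ ((n.natAbs : ℕ) : ℝ) ≤ Y)) (w * z)
    (Nat.mul_pos hw hz) (((a : ℝ) ^ 2 - Y) / 64) (2 * Y) (by positivity) (fun y hy => by
      have h6 := (mem_filter.1 hy)
      have h7 := (h y h6.1).2.2
      rcases h7 with h7 | h7
      · exact absurd h7 h6.2
      · rw [Nat.cast_natAbs] at h7
        unfold ff at h7
        push_cast at h7
        rw [abs_le] at h7
        constructor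
        · linarith [h7.1, h7.2]
        · linarith [h7.1, h7.2])
    (fun y hy y' hy' => hcl y (mem_filter.1 hy).1 y' (mem_filter.1 hy').1)
  have e3 : (S.card : ℝ) = ((S.filter (fun n => ((n.natAbs : ℕ) : ℝ) ≤ Y)).card : ℝ) +
      ((S.filter (fun n => ¬ ((n.natAbs : ℕ) : ℝ) ≤ Y)).card : ℝ) := by
    exact_mod_cast (card_filter_add_card_filter_not (s := S)
      (fun n : ℤ => ((n.natAbs : ℕ) : ℝ) ≤ Y)).symm
  push_cast at e1 e2
  rw [e3]
  have : 2 * Y / ((w : ℝ) * z) = 2 * (Y / ((w : ℝ) * z)) := by ring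
  rw [this] at e1 e2
  linarith

theorem HH_le {q : ℤ × ℤ} : HH q ≤ 65 * max |q.2| |ff q| := by
  have h1 : q.1 ^ 2 = ff q + 64 * q.2 := by
    unfold ff
    ring
  have h2 := le_max_left |q.2| |ff q|
  have h3 := le_max_right |q.2| |ff q|
  have h4 := le_abs_self q.2
  have h5 := le_abs_self (ff q)
  have h6 := abs_nonneg q.2
  unfold HH
  refine max_le ?_ ?_
  · rw [h1]
    linarith
  · linarith

/-- one block with given powerful parts -/
theorem blk (T Q : ℝ) (hT : 1 ≤ T) (s : ℝ) (hs0 : 0 ≤ s) (hs1 : s ≤ 1) (hQ : 0 < Q) (w z : ℕ)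
    (hw : 0 < w) (hz : 0 < z)
    (S : Finset (ℤ × ℤ)) (h : ∀ q ∈ S, q.2 ≠ 0 ∧ Odd (ff q) ∧ IsCoprime q.2 (ff q) ∧
      pw q.2.natAbs = w ∧ pw (ff q).natAbs = z ∧ T < HH q ∧ ((HH q : ℤ) : ℝ) ≤ 2 * T ∧
      (q.2.natAbs : ℝ) * (ff q).natAbs ≤ Q) :
    (S.card : ℝ) ≤ 3 * √(2 * T) * (260 * (T ^ (1 - 2 * s) * Q ^ s / ((w : ℝ) * z)) + 2) := by
  classical
  have hT0 : 0 < T := by linarith
  rcases S.eq_empty_or_nonempty with h0 | ⟨q0, hq0⟩
  · rw [h0, card_empty]
    push_cast
    positivity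
  obtain ⟨g1, g2, g3, g4, g5, -, -, -⟩ := h q0 hq0
  have gf : ff q0 ≠ 0 := by
    intro h1
    rw [h1] at g2
    exact absurd g2 (by decide)
  have hdw : w ∣ q0.2.natAbs := by
    rw [← g4]
    exact pw_dvd (by omega)
  have hdz : z ∣ (ff q0).natAbs := by
    rw [← g5]
    exact pw_dvd (by omega)
  have hcop : Nat.Coprime w z := by
    have : Nat.Coprime q0.2.natAbs (ff q0).natAbs := Int.isCoprime_iff_gcd_eq_one.1 g3
    exact Nat.Coprime.of_dvd hdw hdz this
  have hzo : Odd z := (Int.natAbs_odd.2 g2).of_dvd_nat hdz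
  set Y : ℝ := 65 * (T ^ (1 - 2 * s) * Q ^ s) with hY
  have hY0 : 0 < Y := by positivity
  have hmin : ∀ q ∈ S, (q.2.natAbs : ℝ) ≤ Y ∨ ((ff q).natAbs : ℝ) ≤ Y := by
    intro q hq
    obtain ⟨h1, h2, h3, -, -, h6, h7, h8⟩ := h q hq
    have hf0 : ff q ≠ 0 := by
      intro h1
      rw [h1] at h2
      exact absurd h2 (by decide)
    have e1 : (T : ℝ) < 65 * max (q.2.natAbs : ℝ) ((ff q).natAbs : ℝ) := by
      have e2 : ((HH q : ℤ) : ℝ) ≤ ((65 * max |q.2| |ff q| : ℤ) : ℝ) := by
        exact_mod_cast HH_le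
      push_cast at e2
      rw [Nat.cast_natAbs, Nat.cast_natAbs]
      push_cast
      linarith
    have e3 : ((q.2.natAbs : ℕ) : ℝ) ≤ 2 * T := by
      have e2 : |q.2| ≤ HH q := le_max_right _ _
      have e2' : ((|q.2| : ℤ) : ℝ) ≤ ((HH q : ℤ) : ℝ) := by exact_mod_cast e2
      rw [Nat.cast_natAbs]
      linarith
    have hn1 : (0 : ℝ) < q.2.natAbs := by exact_mod_cast (by omega : 0 < q.2.natAbs)
    have hf1 : (0 : ℝ) < (ff q).natAbs := by exact_mod_cast (by omega : 0 < (ff q).natAbs)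
    set u : ℝ := (q.2.natAbs : ℝ) with hu
    set v : ℝ := ((ff q).natAbs : ℝ) with hv
    have hmm : min u v * max u v ≤ Q := by
      rw [min_mul_max]
      exact h8
    have hmn : 0 < min u v := lt_min hn1 hf1
    have b1 : min u v ≤ 65 * (Q / T) := by
      rw [← mul_div_assoc, le_div_iff₀ hT0]
      have : min u v * T ≤ min u v * (65 * max u v) := by
        gcongr
      linarith
    have b2 : min u v ≤ 65 * T := by
      have := min_le_left u v
      linarith
    have b3 : min u v ≤ Y := by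
      have c1 : min u v / 65 ≤ T := by
        rw [div_le_iff₀ (by norm_num)]
        linarith
      have c2 : min u v / 65 ≤ Q / T := by
        rw [div_le_iff₀ (by norm_num)]
        linarith
      have c0 : 0 < min u v / 65 := by positivity
      have c3 : min u v / 65 ≤ T ^ (1 - s) * (Q / T) ^ s := by
        calc min u v / 65 = (min u v / 65) ^ (1 - s) * (min u v / 65) ^ s := by
              rw [← Real.rpow_add c0]
              simp
          _ ≤ T ^ (1 - s) * (Q / T) ^ s := by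
              apply mul_le_mul
              · exact Real.rpow_le_rpow c0.le c1 (by linarith)
              · exact Real.rpow_le_rpow c0.le c2 hs0
              · positivity
              · positivity
      have c4 : T ^ (1 - s) * (Q / T) ^ s = T ^ (1 - 2 * s) * Q ^ s := by
        rw [Real.div_rpow hQ.le hT0.le, mul_div_assoc', div_eq_iff (by positivity)]
        have : T ^ (1 - s) = T ^ (1 - 2 * s) * T ^ s := by
          rw [← Real.rpow_add hT0]
          congr 1
          ring
        rw [this]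
        ring
      rw [c4] at c3
      rw [hY]
      rw [div_le_iff₀ (by norm_num)] at c3
      linarith
    rcases min_choice u v with hm | hm
    · left
      rw [← hm]
      exact b3
    · right
      rw [← hm]
      exact b3
  -- fibres over a
  have hfib : ∀ a ∈ S.image Prod.fst, ((S.filter (fun q => q.1 = a)).card : ℝ) ≤
      4 * (Y / ((w : ℝ) * z)) + 2 := by
    intro a _
    have e1 : (S.filter (fun q => q.1 = a)).card =
        ((S.filter (fun q => q.1 = a)).image Prod.snd).card := by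
      rw [card_image_of_injOn]
      intro q hq q' hq' hqq
      rw [mem_coe, mem_filter] at hq hq'
      exact Prod.ext (hq.2.trans hq'.2.symm) hqq
    rw [e1]
    refine row a w z hw hz hcop hzo Y hY0.le _ ?_
    intro n hn
    rw [mem_image] at hn
    obtain ⟨q, hq, rfl⟩ := hn
    rw [mem_filter] at hq
    obtain ⟨h1, h2, h3, h4, h5, h6, h7, h8⟩ := h q hq.1
    have hf0 : ff q ≠ 0 := by
      intro h1
      rw [h1] at h2
      exact absurd h2 (by decide)
    have eq : (a, q.2) = q := Prod.ext hq.2.symm rfl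
    refine ⟨?_, ?_, ?_⟩
    · have := pw_dvd (n := q.2.natAbs) (by omega)
      rw [h4] at this
      exact Int.natCast_dvd.2 this
    · rw [eq]
      have := pw_dvd (n := (ff q).natAbs) (by omega)
      rw [h5] at this
      exact Int.natCast_dvd.2 this
    · rw [eq]
      exact hmin q hq.1
  have himg : ((S.image Prod.fst).card : ℝ) ≤ 3 * √(2 * T) := by
    refine card_sq_le _ (2 * T) (by linarith) ?_
    intro a ha
    rw [mem_image] at ha
    obtain ⟨q, hq, rfl⟩ := ha
    obtain ⟨-, -, -, -, -, -, h7, -⟩ := h q hq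
    have e2 : q.1 ^ 2 ≤ HH q := le_max_left _ _
    have e2' : ((q.1 ^ 2 : ℤ) : ℝ) ≤ ((HH q : ℤ) : ℝ) := by exact_mod_cast e2
    push_cast at e2'
    linarith
  have hcard : (S.card : ℝ) = ∑ a ∈ S.image Prod.fst, ((S.filter (fun q => q.1 = a)).card : ℝ) := by
    rw [card_eq_sum_card_image Prod.fst S]
    push_cast
    rfl
  rw [hcard]
  calc ∑ a ∈ S.image Prod.fst, ((S.filter (fun q => q.1 = a)).card : ℝ)
      ≤ ∑ a ∈ S.image Prod.fst, (4 * (Y / ((w : ℝ) * z)) + 2) := sum_le_sum hfib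
    _ = ((S.image Prod.fst).card : ℝ) * (4 * (Y / ((w : ℝ) * z)) + 2) := by
        rw [sum_const, nsmul_eq_mul]
    _ ≤ 3 * √(2 * T) * (4 * (Y / ((w : ℝ) * z)) + 2) := by
        apply mul_le_mul_of_nonneg_right himg
        positivity
    _ = _ := by
        rw [hY]
        ring

end Pool.Agent.T2h82
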